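import Mathlib
import Pool.Agent.TH910.Voj.Main

/-! # Integral forms and their affine equations -/

set_option autoImplicit false

namespace Pool.Agent.D0H41.OC

open MvPolynomial

/-- the affine equation `F(1, z_1, …, z_n)` of a form with integral coefficients -/
noncomputable def aff {n : ℕ} (F : MvPolynomial (Fin (n + 1)) ℤ) : MvPolynomial (Fin n) ℚ :=
  eval₂ (C.comp (Int.castRingHom ℚ)) (Fin.cons 1 X) F

variable {n : ℕ}

lemma aff_mul (F G : MvPolynomial (Fin (n + 1)) ℤ) : aff (F * G) = aff F * aff G :=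
  eval₂_mul _ _

lemma aff_add (F G : MvPolynomial (Fin (n + 1)) ℤ) : aff (F + G) = aff F + aff G :=
  eval₂_add _ _

lemma aff_C (a : ℤ) : aff (C a : MvPolynomial (Fin (n + 1)) ℤ) = C (a : ℚ) :=
  eval₂_C _ _ _

lemma aff_X0 : aff (X 0 : MvPolynomial (Fin (n + 1)) ℤ) = 1 := by
  unfold aff
  rw [eval₂_X, Fin.cons_zero]

lemma aff_Xs (i : Fin n) : aff (X i.succ : MvPolynomial (Fin (n + 1)) ℤ) = X i := by
  unfold aff
  rw [eval₂_X, Fin.cons_succ]

lemma aff_one : aff (1 : MvPolynomial (Fin (n + 1)) ℤ) = 1 := by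
  unfold aff
  exact eval₂_one _ _

/-- the affine equation factors through `ℚ` -/
noncomputable def affQ : MvPolynomial (Fin (n + 1)) ℚ →ₐ[ℚ] MvPolynomial (Fin n) ℚ :=
  aeval (Fin.cons 1 X)

lemma affQ_map (F : MvPolynomial (Fin (n + 1)) ℤ) :
    affQ (map (Int.castRingHom ℚ) F) = aff F := by
  unfold affQ aff
  rw [aeval_def, eval₂_map]
  rfl

lemma aff_dvd {F G : MvPolynomial (Fin (n + 1)) ℤ}
    (h : map (Int.castRingHom ℚ) F ∣ map (Int.castRingHom ℚ) G) : aff F ∣ aff G := by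
  rw [← affQ_map, ← affQ_map]
  exact map_dvd affQ h

/-- homogenisation, denominators cleared -/
theorem exists_homZ (g : MvPolynomial (Fin n) ℚ) : ∃ D : ℕ, ∀ e : ℕ, D ≤ e →
    ∃ (H : MvPolynomial (Fin (n + 1)) ℤ) (a : ℤ), a ≠ 0 ∧ H.IsHomogeneous e ∧
      aff H = C (a : ℚ) * g := by
  induction g using MvPolynomial.induction_on with
  | C c =>
    refine ⟨0, fun e _ => ⟨C c.num * X 0 ^ e, c.den, by exact_mod_cast c.den_ne_zero, ?_, ?_⟩⟩
    · have := (isHomogeneous_C (Fin (n + 1)) c.num).mul ((isHomogeneous_X ℤ (0 : Fin (n + 1))).pow e)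
      rw [zero_add, one_mul] at this
      exact this
    · have h1 : ∀ k : ℕ, aff ((X 0 : MvPolynomial (Fin (n + 1)) ℤ) ^ k) = 1 := by
        intro k
        induction k with
        | zero => rw [pow_zero, aff_one]
        | succ k ih => rw [pow_succ, aff_mul, ih, aff_X0, one_mul]
      rw [aff_mul, aff_C, h1, mul_one, ← C_mul]
      congr 1
      have h2 := Rat.den_mul_eq_num c
      push_cast
      exact h2.symm
  | add p q hp hq =>
    obtain ⟨D, hD⟩ := hp
    obtain ⟨D', hD'⟩ := hq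
    refine ⟨max D D', fun e he => ?_⟩
    obtain ⟨H, a, ha, hH, h1⟩ := hD e ((le_max_left _ _).trans he)
    obtain ⟨H', a', ha', hH', h1'⟩ := hD' e ((le_max_right _ _).trans he)
    refine ⟨C a' * H + C a * H', a * a', mul_ne_zero ha ha', ?_, ?_⟩
    · have e1 := (isHomogeneous_C (Fin (n + 1)) a').mul hH
      have e2 := (isHomogeneous_C (Fin (n + 1)) a).mul hH'
      rw [zero_add] at e1 e2
      exact e1.add e2
    · rw [aff_add, aff_mul, aff_mul, aff_C, aff_C, h1, h1']
      push_cast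
      rw [C_mul]
      ring
  | mul_X p i hp =>
    obtain ⟨D, hD⟩ := hp
    refine ⟨D + 1, fun e he => ?_⟩
    obtain ⟨H, a, ha, hH, h1⟩ := hD (e - 1) (by omega)
    refine ⟨H * X i.succ, a, ha, ?_, ?_⟩
    · have := hH.mul (isHomogeneous_X ℤ i.succ)
      rwa [Nat.sub_add_cancel (by omega : 1 ≤ e)] at this
    · rw [aff_mul, aff_Xs, h1, mul_assoc]

/-- the affine coordinates -/
def crd (x : Fin (n + 1) → ℤ) : Fin n → ℚ := fun i => (x i.succ : ℚ) / x 0

/-- the value of a form and of its affine equation -/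
lemma aff_eval {F : MvPolynomial (Fin (n + 1)) ℤ} {κ : ℕ} (hF : F.IsHomogeneous κ)
    {x : Fin (n + 1) → ℤ} (hx : x 0 ≠ 0) :
    ((eval x F : ℤ) : ℚ) = (x 0 : ℚ) ^ κ * eval (crd x) (aff F) := by
  have hx' : (x 0 : ℚ) ≠ 0 := by exact_mod_cast hx
  have h1 : eval (crd x) (aff F) = aeval (fun j => (x j : ℚ) / x 0) F := by
    unfold aff
    rw [eval₂_eq, map_sum, aeval_def, eval₂_eq]
    refine Finset.sum_congr rfl fun d _ => ?_
    rw [map_mul, map_prod, RingHom.comp_apply, eval_C]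
    congr 1
    refine Finset.prod_congr rfl fun j _ => ?_
    rw [map_pow]
    congr 1
    refine Fin.cases ?_ (fun i => ?_) j
    · rw [Fin.cons_zero, map_one, div_self hx']
    · rw [Fin.cons_succ, eval_X]
      rfl
  have h0 : ((eval x F : ℤ) : ℚ) = aeval (fun j => (x j : ℚ)) F := by
    rw [eval_eq, aeval_def, eval₂_eq]
    push_cast
    rfl
  rw [h1, h0, aeval_def, aeval_def, eval₂_eq, eval₂_eq, Finset.mul_sum]
  refine Finset.sum_congr rfl fun d hd => ?_
  have hdeg : ∑ i ∈ d.support, d i = κ := by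
    by_contra hne
    have h2 := hF.coeff_eq_zero (d := d) (by rw [Finsupp.degree_apply]; exact hne)
    exact (mem_support_iff.1 hd) h2
  have h3 : ∏ i ∈ d.support, ((x i : ℚ) / x 0) ^ d i =
      (∏ i ∈ d.support, (x i : ℚ) ^ d i) / (x 0 : ℚ) ^ κ := by
    rw [← hdeg, ← Finset.prod_pow_eq_pow_sum, ← Finset.prod_div_distrib]
    exact Finset.prod_congr rfl fun i _ => div_pow _ _ _
  rw [h3]
  have h4 : (x 0 : ℚ) ^ κ ≠ 0 := pow_ne_zero _ hx'
  field_simp

end Pool.Agent.D0H41.OC
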