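import Mathlib
import Pool.Agent.TH910.Voj.Norm
import Pool.Agent.TH910.Voj.Ram
import Pool.Agent.TH910.Voj.Model

/-! # A normal finite algebra at a prime divisor of the base -/

set_option autoImplicit false

namespace Pool.Agent.D0H41.OC

open IsLocalRing Pool.Agent.TH910.Voj

/-- an element whose multiplicities are divisible by `e` is a unit times an `e`-th power -/
theorem exists_pow_of_mult {S : Type} [CommRing S] [IsDomain S] [UniqueFactorizationMonoid S]
    (e : ℕ) (he : 1 ≤ e) (a : S) (ha : a ≠ 0) (h : ∀ π : S, Prime π → e ∣ multiplicity π a) :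
    ∃ u ζ : S, IsUnit u ∧ a = u * ζ ^ e := by
  have hwf : WellFounded (DvdNotUnit : S → S → Prop) := wellFounded_dvdNotUnit
  induction a using hwf.induction with
  | _ a ih =>
    by_cases hu : IsUnit a
    · exact ⟨a, 1, hu, by rw [one_pow, mul_one]⟩
    obtain ⟨π, hπ, hπa⟩ := WfDvdMonoid.exists_irreducible_factor hu ha
    have hπp : Prime π := hπ.prime
    have hfin : ∀ ρ : S, Prime ρ → ∀ b : S, b ≠ 0 → FiniteMultiplicity ρ b := fun ρ hρ b hb =>
      FiniteMultiplicity.of_prime_left hρ hb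
    have h1 : 1 ≤ multiplicity π a :=
      (hfin π hπp a ha).le_multiplicity_of_pow_dvd (by rwa [pow_one])
    have h2 : e ≤ multiplicity π a := Nat.le_of_dvd (by omega) (h π hπp)
    obtain ⟨b, hb⟩ : π ^ e ∣ a := (pow_dvd_pow π h2).trans (pow_multiplicity_dvd π a)
    have hb0 : b ≠ 0 := by
      rintro rfl
      rw [mul_zero] at hb
      exact ha hb
    obtain ⟨u, ζ, hu', hζ⟩ := ih b ⟨hb0, π ^ e, fun h => hπp.not_isUnit
      (isUnit_of_dvd_unit (dvd_pow_self π (by omega)) h), by rw [hb]; ring⟩ hb0 (by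
      intro ρ hρ
      have h3 := h ρ hρ
      rw [hb, multiplicity_mul hρ (hfin ρ hρ _ (by rw [← hb]; exact ha)),
        FiniteMultiplicity.multiplicity_pow hρ (hfin ρ hρ π hπp.ne_zero)] at h3
      exact (Nat.dvd_add_right (Dvd.intro _ rfl)).1 h3)
    exact ⟨u, π * ζ, hu', by rw [hb, hζ]; ring⟩

/-- **The localisation at a prime divisor of the base.** -/
theorem semilocal {R A : Type} [CommRing R] [IsDomain R] [IsNoetherianRing R] [CommRing A]
    [IsDomain A] [IsIntegrallyClosed A] [Algebra R A] [Module.Finite R A] [FaithfulSMul R A]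
    (F : R) (hF : Prime F) :
    ∃ (S : Type) (_ : CommRing S) (_ : IsDomain S) (_ : IsPrincipalIdealRing S) (ι : A →+* S),
      Function.Injective ι ∧ (∀ g : R, ¬ F ∣ g → IsUnit (ι (algebraMap R A g))) ∧
      ∀ d : S, ∃ (a : A) (g : R), ¬ F ∣ g ∧ ι (algebraMap R A g) * d = ι a := by
  classical
  have hP : (Ideal.span {F}).IsPrime := (Ideal.span_singleton_prime hF.ne_zero).mpr hF
  set p : Ideal R := Ideal.span {F} with hp
  have hmemp : ∀ r : R, r ∈ p.primeCompl ↔ ¬ F ∣ r := fun r => by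
    rw [Ideal.mem_primeCompl_iff, hp, Ideal.mem_span_singleton]
  let Rₚ := Localization.AtPrime p
  let Sₚ := Localization (Algebra.algebraMapSubmonoid A p.primeCompl)
  let _ : Algebra Rₚ Sₚ := localizationAlgebra p.primeCompl A
  have : IsScalarTower R Rₚ Sₚ := IsScalarTower.of_algebraMap_eq'
    (by rw [RingHom.algebraMap_toAlgebra, IsLocalization.map_comp, ← IsScalarTower.algebraMap_eq])
  have : IsLocalization (Submonoid.map (algebraMap R A) (Ideal.primeCompl p)) Sₚ :=
    inferInstanceAs (IsLocalization (Algebra.algebraMapSubmonoid A p.primeCompl) Sₚ)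
  have e0 : Algebra.algebraMapSubmonoid A p.primeCompl ≤ nonZeroDivisors A :=
    Submonoid.map_le_of_le_comap _ <| p.primeCompl_le_nonZeroDivisors.trans
      (nonZeroDivisors_le_comap_nonZeroDivisors_of_injective _
        (FaithfulSMul.algebraMap_injective _ _))
  have : IsDomain Sₚ := IsLocalization.isDomain_of_le_nonZeroDivisors _ e0
  have hinjS : Function.Injective (algebraMap A Sₚ) := IsLocalization.injective _ e0
  have hinjR : Function.Injective (algebraMap R Rₚ) :=
    IsLocalization.injective _ p.primeCompl_le_nonZeroDivisors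
  have hinjRS : Function.Injective (algebraMap Rₚ Sₚ) :=
    localizationAlgebra_injective (R := R) (S := A) (Rₘ := Rₚ) (Sₘ := Sₚ) (M := p.primeCompl)
      (FaithfulSMul.algebraMap_injective R A)
  have htf : Module.IsTorsionFree Rₚ Sₚ := by
    rw [Module.isTorsionFree_iff_algebraMap_injective]
    exact hinjRS
  have : Module.Finite Rₚ Sₚ := .of_isLocalization R A p.primeCompl
  have : IsIntegrallyClosed Sₚ := isIntegrallyClosed_of_isLocalization _ _ e0
  have hNoeR : IsNoetherianRing Rₚ := IsLocalization.isNoetherianRing p.primeCompl _ inferInstance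
  have hmax : maximalIdeal Rₚ = Ideal.span {algebraMap R Rₚ F} := by
    rw [← Localization.AtPrime.map_eq_maximalIdeal]
    change Ideal.map (algebraMap R Rₚ) (Ideal.span {F}) = _
    rw [Ideal.map_span, Set.image_singleton]
  have hprin : (maximalIdeal Rₚ).IsPrincipal := ⟨⟨algebraMap R Rₚ F, hmax⟩⟩
  have hPID : IsPrincipalIdealRing Rₚ :=
    ((tfae_of_isNoetherianRing_of_isLocalRing_of_isDomain Rₚ).out 4 0).mp hprin
  have hNoeS : IsNoetherianRing Sₚ := by
    have h1 : IsNoetherian Rₚ Sₚ := isNoetherian_of_isNoetherianRing_of_finite _ _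
    exact isNoetherian_of_tower Rₚ h1
  have hint : Algebra.IsIntegral Rₚ Sₚ := inferInstance
  have hdim : Ring.DimensionLEOne Sₚ := Ring.DimensionLEOne.of_isIntegral Rₚ Sₚ
  have hDed : IsDedekindDomain Sₚ := { }
  have hPIDS : IsPrincipalIdealRing Sₚ := by
    refine IsPrincipalIdealRing.of_finite_maximals
      ((primesOver_finite (A := Sₚ) (algebraMap R Rₚ F)).subset ?_)
    intro 𝔪 h𝔪
    have h𝔪' : 𝔪.IsMaximal := h𝔪
    refine ⟨h𝔪'.isPrime, ?_⟩
    have h1 : (𝔪.comap (algebraMap Rₚ Sₚ)).IsMaximal :=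
      Ideal.isMaximal_comap_of_isIntegral_of_isMaximal 𝔪
    rw [← hmax]
    exact IsLocalRing.eq_maximalIdeal h1
  have hunitR : ∀ g : R, ¬ F ∣ g → IsUnit (algebraMap R Rₚ g) := fun g hg =>
    IsLocalization.map_units Rₚ (⟨g, (hmemp g).mpr hg⟩ : p.primeCompl)
  have htower : ∀ r : R, algebraMap A Sₚ (algebraMap R A r) =
      algebraMap Rₚ Sₚ (algebraMap R Rₚ r) := fun r => by
    rw [← IsScalarTower.algebraMap_apply R A Sₚ, ← IsScalarTower.algebraMap_apply R Rₚ Sₚ]
  refine ⟨Sₚ, inferInstance, inferInstance, hPIDS, algebraMap A Sₚ, hinjS, ?_, ?_⟩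
  · intro g hg
    rw [htower]
    exact (hunitR g hg).map _
  · intro d
    obtain ⟨⟨a, ⟨t, ht⟩⟩, h⟩ := IsLocalization.surj
      (Algebra.algebraMapSubmonoid A p.primeCompl) d
    obtain ⟨g, hg, rfl⟩ := ht
    refine ⟨a, g, (hmemp g).mp hg, ?_⟩
    rw [mul_comm]
    exact h

/-- `e` divides the ramification indices of `A` at the prime ideals above `f` -/
def RamDvd {R : Type} (A : Type) [CommRing R] [CommRing A] [Algebra R A] (f : R) (e : ℕ) : Prop :=
  ∀ 𝔮 : Ideal A, 𝔮.IsPrime → 𝔮.comap (algebraMap R A) = Ideal.span {f} →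
    ∃ a c c' : A, c ∉ 𝔮 ∧ c' ∉ 𝔮 ∧ c * algebraMap R A f = c' * a ^ e

/-- **The equation of a divisor is a unit times a power.** -/
theorem ramified {R A : Type} [CommRing R] [IsDomain R] [IsNoetherianRing R] [CommRing A]
    [IsDomain A] [IsIntegrallyClosed A] [Algebra R A] [Module.Finite R A] [FaithfulSMul R A]
    (F : R) (hF : Prime F) (e : ℕ) (he : 1 ≤ e) (h : RamDvd A F e) :
    ∃ g : R, ¬ F ∣ g ∧ ∃ u u' ζ : A, algebraMap R A (g * F) = u * ζ ^ e ∧
      algebraMap R A g = u * u' := by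
  classical
  obtain ⟨S, _, _, _, ι, hinj, hunit, hsurj⟩ := semilocal (A := A) F hF
  have hF0 : ι (algebraMap R A F) ≠ 0 := by
    rw [Ne, map_eq_zero_iff ι hinj, FaithfulSMul.algebraMap_eq_zero_iff]
    exact hF.ne_zero
  obtain ⟨u, ζ, hu, hζ⟩ := exists_pow_of_mult e he (ι (algebraMap R A F)) hF0 (by
    intro π hπ
    have hfin : ∀ b : S, b ≠ 0 → FiniteMultiplicity π b := fun b hb =>
      FiniteMultiplicity.of_prime_left hπ hb
    by_cases hπF : π ∣ ι (algebraMap R A F)
    swap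
    · rw [multiplicity_eq_zero.2 hπF]
      exact dvd_zero _
    have hπp : (Ideal.span {π}).IsPrime := (Ideal.span_singleton_prime hπ.ne_zero).2 hπ
    have hmem : ∀ b : A, b ∈ (Ideal.span {π}).comap ι ↔ π ∣ ι b := fun b => by
      rw [Ideal.mem_comap, Ideal.mem_span_singleton]
    obtain ⟨a, c, c', hc, hc', heq⟩ := h ((Ideal.span {π}).comap ι) (Ideal.comap_isPrime ι _) (by
      ext r
      rw [Ideal.mem_comap, hmem, Ideal.mem_span_singleton]
      constructor
      · intro hr
        by_contra hFr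
        exact hπ.not_isUnit (isUnit_of_dvd_unit hr (hunit r hFr))
      · rintro ⟨s, rfl⟩
        rw [map_mul, map_mul]
        exact Dvd.dvd.mul_right hπF _)
    rw [hmem] at hc hc'
    have h1 := congrArg ι heq
    rw [map_mul, map_mul, map_pow] at h1
    have hc0 : ι c ≠ 0 := fun h0 => hc (by rw [h0]; exact dvd_zero _)
    have h2 : ι c * ι (algebraMap R A F) ≠ 0 := mul_ne_zero hc0 hF0
    have h3 := congrArg (multiplicity π) h1
    rw [multiplicity_mul hπ (hfin _ h2)] at h3
    rw [h1] at h2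
    have ha0 : ι a ≠ 0 := by
      intro h0
      rw [h0, zero_pow (by omega), mul_zero] at h2
      exact h2 rfl
    rw [multiplicity_mul hπ (hfin _ h2), FiniteMultiplicity.multiplicity_pow hπ (hfin _ ha0),
      multiplicity_eq_zero.2 hc, multiplicity_eq_zero.2 hc', zero_add, zero_add] at h3
    rw [h3]
    exact Dvd.intro _ rfl)
  obtain ⟨v, hv⟩ := hu.exists_right_inv
  obtain ⟨a1, g1, hg1, h1⟩ := hsurj u
  obtain ⟨a2, g2, hg2, h2⟩ := hsurj v
  obtain ⟨a3, g3, hg3, h3⟩ := hsurj ζ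
  have hnd : ∀ {a b : R}, ¬ F ∣ a → ¬ F ∣ b → ¬ F ∣ a * b := fun ha hb h =>
    (hF.dvd_or_dvd h).elim ha hb
  have hndp : ∀ {a : R} (k : ℕ), ¬ F ∣ a → ¬ F ∣ a ^ k := fun k ha h => ha (hF.dvd_of_dvd_pow h)
  have e1 : algebraMap R A (g1 * g2) = a1 * a2 := by
    apply hinj
    rw [map_mul, map_mul, map_mul, ← h1, ← h2]
    calc ι (algebraMap R A g1) * ι (algebraMap R A g2) =
        ι (algebraMap R A g1) * ι (algebraMap R A g2) * (u * v) := by rw [hv, mul_one]
      _ = _ := by ring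
  refine ⟨g1 * g2 ^ e * g3 ^ e, hnd (hnd hg1 (hndp e hg2)) (hndp e hg3), a1,
    a2 * algebraMap R A (g2 ^ (e - 1) * g3 ^ e), a3 * algebraMap R A g2, ?_, ?_⟩
  · apply hinj
    simp only [map_mul, map_pow]
    rw [hζ, ← h1, ← h3]
    ring
  · have h4 : g1 * g2 ^ e * g3 ^ e = (g1 * g2) * (g2 ^ (e - 1) * g3 ^ e) := by
      obtain ⟨f, rfl⟩ := Nat.exists_eq_add_of_le he
      rw [Nat.add_sub_cancel_left, pow_add, pow_one]
      ring
    rw [h4, map_mul, e1]
    ring

end Pool.Agent.D0H41.OC
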