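import Mathlib
import Pool.Agent.N445.DF.A15

/-! # The structure of the values of a form at almost all points -/

set_option autoImplicit false

namespace Pool.Agent.D0H41.OC

open MvPolynomial Pool.Agent.TH910.Voj Pool.Agent.H813R3.Voj Pool.Agent.N445.VW
open Pool.Agent.N445.DF NumberField

/-- the structure of a value `N` of a form of degree `k` -/
structure Str (B : ℝ) (k : ℕ) (β γ ε : ℝ) (N : ℕ) : Prop where
  ne : N ≠ 0
  low : B ^ ((k : ℝ) - ε) < N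
  up : (N : ℝ) ≤ B ^ ((k : ℝ) + γ)
  ex : ∃ s0 ML M1 : ℕ, s0 * (ML * M1) ^ 2 = N ∧ Squarefree s0 ∧ (M1 : ℝ) ^ 2 ≤ B ^ (4 * ε) ∧
    (∀ p : ℕ, p.Prime → p ∣ ML → B ^ β < p) ∧ (∀ p : ℕ, p.Prime → p ∣ M1 → (p : ℝ) ≤ B ^ β) ∧
    ∀ e s w : ℕ, 2 ≤ e → e ≤ k → s ∣ N → Squarefree s → (s : ℝ) ≤ B ^ β → N ≠ M1 ^ 2 * s * w ^ e

/-- **The structure of the values of a form.** -/
theorem str_abs {n : ℕ} (F : MvPolynomial (Fin (n + 1)) ℤ) {k : ℕ}
    (hk : F.IsHomogeneous k) (hk2 : 2 ≤ k) (hirr : Irreducible (toQ F)) (α : ℝ) (hα : 1 < α)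
    (v : Fin (n + 1) → ℤ) (hFv : eval v F ≠ 0) (K0 : ℤ) (hK0 : K0 ≠ 0) (ρ : ℝ → ℝ)
    (hρ : ∀ δ, 0 < δ → 0 < ρ δ) (Q : (Fin (n + 1) → ℤ) → Prop)
    (H1 : ∀ ε δ : ℝ, 0 < ε → ε ≤ 1 / 16 → 0 < δ → δ ≤ 1 → Sparse (n + 1) (fun B x => Q x ∧
      ∃ M : ℕ, (B : ℝ) ^ ε < M ∧ ((M : ℤ) ^ 2 ∣ eval x F) ∧
      ∀ p : ℕ, p.Prime → p ∣ M → (p : ℝ) ≤ (B : ℝ) ^ (α - δ) ∧
        ¬ (p : ℤ) ∣ K0 * eval x (dder v F)))
    (H2 : ∀ e : ℕ, 2 ≤ e → ∀ δ : ℝ, 0 < δ → δ ≤ 1 → Sparse (n + 1) (fun B x => Q x ∧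
      ∃ (s : ℕ) (σ w : ℤ), Squarefree s ∧ (s : ℝ) ≤ (B : ℝ) ^ (α - δ) ∧
      (σ.natAbs : ℝ) ≤ (B : ℝ) ^ (ρ δ) ∧ eval x F = σ * s * w ^ e ∧ eval x F ≠ 0 ∧
      ∀ p : ℕ, p.Prime → p ∣ s → ¬ (p : ℤ) ∣ K0 * eval x (dder v F)))
    (γ ε : ℝ) (hγ0 : 0 < γ) (hγ8 : γ ≤ 1 / 8) (hε0 : 0 < ε) (hε2 : ε ≤ 1 / 16)
    (hε4 : ε ≤ ρ γ / 8) :
    Sparse (n + 1) (fun B x => Q x ∧ eval x F ≠ 0 ∧
      ¬ Str (B : ℝ) k (α - γ) γ ε (eval x F).natAbs) := by
  classical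
  have hk1 : 1 ≤ k := by omega
  have hF0 : F ≠ 0 := by rintro rfl; simp at hFv
  have hG := not_dvd_dder v F hk hk1 hFv
  obtain ⟨c, hc1, hc⟩ := exists_eval_bound F (hk.totalDegree_le)
  have hργ := hρ γ hγ0
  set β := α - γ with hβ
  obtain ⟨η1, hη1, S1⟩ := sparse_sing F hk hk1 hirr hε0 (by linarith)
  have S2 := sparse_gcd F (dder v F) hk hirr hG (η := η1 / 2) (by positivity)
  have S3 := H1 ε γ hε0 hε2 hγ0 (by linarith)
  have S0 := sparse_small_value F hk hF0 hε0 (by linarith)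
  have S5 : Sparse (n + 1) (fun B x => ∃ j : Fin (k + 1), 2 ≤ (j : ℕ) ∧
      (Q x ∧ ∃ (s : ℕ) (σ w : ℤ), Squarefree s ∧ (s : ℝ) ≤ (B : ℝ) ^ (α - γ) ∧
      (σ.natAbs : ℝ) ≤ (B : ℝ) ^ (ρ γ) ∧ eval x F = σ * s * w ^ (j : ℕ) ∧ eval x F ≠ 0 ∧
      ∀ p : ℕ, p.Prime → p ∣ s → ¬ (p : ℤ) ∣ K0 * eval x (dder v F))) := by
    refine Sparse.exists_fin fun j => ?_
    by_cases hj : 2 ≤ (j : ℕ)
    · exact (H2 j hj γ hγ0 (by linarith)).mono fun B x _ _ h => h.2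
    · exact (Sparse.false (n + 1)).mono fun B x _ _ h => hj h.1
  -- large `B`
  have hev : ∀ (t : ℝ), 0 < t → ∀ C : ℝ, ∃ B₀ : ℕ, ∀ B : ℕ, B₀ ≤ B → C ≤ (B : ℝ) ^ t := by
    intro t ht C
    have h1 : Filter.Tendsto (fun B : ℕ => (B : ℝ) ^ t) Filter.atTop Filter.atTop :=
      (tendsto_rpow_atTop ht).comp tendsto_natCast_atTop_atTop
    exact Filter.eventually_atTop.mp (h1.eventually_ge_atTop C)
  obtain ⟨B1, hB1⟩ := hev (η1 / 2) (by positivity) (K0.natAbs : ℝ)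
  obtain ⟨B2, hB2⟩ := hev γ hγ0 (c : ℝ)
  refine (((S0.or S1).or (S2.or (S3.or S5))).of_eventually (B1 + B2) ?_)
  rintro B x hBB hB hx ⟨hQ, hne, hstr⟩
  by_contra hcon
  rw [not_or, not_or, not_or, not_or] at hcon
  obtain ⟨⟨n0, n1⟩, n2, n3, n5⟩ := hcon
  have hBr : (1 : ℝ) ≤ B := by exact_mod_cast hB
  have hBpos : (0 : ℝ) < B := by linarith
  have hKB := hB1 B (by omega)
  have hcB := hB2 B (by omega)
  set N := (eval x F).natAbs with hN
  have hN0 : N ≠ 0 := Int.natAbs_ne_zero.2 hne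
  have hNpos : 0 < N := Nat.pos_of_ne_zero hN0
  have hNup : (N : ℝ) ≤ (B : ℝ) ^ ((k : ℝ) + γ) := by
    have h1 : (N : ℝ) ≤ c * (B : ℝ) ^ k := by exact_mod_cast hc B hB x hx
    refine h1.trans ?_
    rw [add_comm, Real.rpow_add hBpos, Real.rpow_natCast]
    exact mul_le_mul_of_nonneg_right hcB (by positivity)
  have hNlow : (B : ℝ) ^ ((k : ℝ) - ε) < N := by
    by_contra h
    push Not at h
    exact n0 ⟨hne, h⟩
  have hdvdN : ∀ d : ℕ, d ∣ N → (d : ℤ) ∣ eval x F := fun d hd => Int.natCast_dvd.2 hd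
  have hBε : 1 ≤ (B : ℝ) ^ ε := Real.one_le_rpow hBr hε0.le
  -- the singular divisors are small
  have hsing : ∀ t : ℕ, t ∣ N → (∀ p : ℕ, p.Prime → p ∣ t →
      (p : ℤ) ∣ K0 * eval x (dder v F)) → (t : ℝ) ≤ (B : ℝ) ^ ε := by
    intro t htN htp
    by_contra h
    push Not at h
    refine n1 ⟨hne, t, hdvdN t htN, h, ?_⟩
    have hg0 : Int.gcd (eval x F) (eval x (dder v F)) ≠ 0 := fun h =>
      hne (Int.gcd_eq_zero_iff.mp h).1
    have h1 : rd t ≤ K0.natAbs * rd (Int.gcd (eval x F) (eval x (dder v F))) := by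
      refine rd_le_mul t _ _ (Int.natAbs_ne_zero.2 hK0) hg0 ?_
      intro p hp hpM
      have hpZ : Prime (p : ℤ) := Nat.prime_iff_prime_int.1 hp
      rcases hpZ.dvd_or_dvd (htp p hp hpM) with h2 | h2
      · left; exact Int.natCast_dvd.1 h2
      · right
        have h3 : (p : ℤ) ∣ eval x F := hdvdN p (hpM.trans htN)
        exact Nat.dvd_gcd (Int.natCast_dvd.1 h3) (Int.natCast_dvd.1 h2)
    have h2 : (rd (Int.gcd (eval x F) (eval x (dder v F))) : ℝ) ≤ (B : ℝ) ^ (η1 / 2) := by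
      by_contra h3
      push Not at h3
      exact n2 ⟨hne, h3⟩
    calc (rd t : ℝ) ≤ K0.natAbs * rd (Int.gcd (eval x F) (eval x (dder v F))) := by
          exact_mod_cast h1
      _ ≤ (B : ℝ) ^ (η1 / 2) * (B : ℝ) ^ (η1 / 2) :=
          mul_le_mul hKB h2 (Nat.cast_nonneg _) (by positivity)
      _ = (B : ℝ) ^ η1 := by rw [← Real.rpow_add hBpos]; congr 1; ring
  obtain ⟨s0, M, hMN, hsq⟩ := Nat.sq_mul_squarefree N
  have hM0 : M ≠ 0 := by
    rintro rfl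
    simp at hMN
    omega
  have hs00 : s0 ≠ 0 := by
    rintro rfl
    simp at hMN
    omega
  obtain ⟨ML, M1, hML, hMLp, hM1p⟩ := exists_split M hM0 (fun p => (B : ℝ) ^ β < p)
  have hML0 : ML ≠ 0 := by rintro rfl; simp at hML; exact hM0 hML.symm
  have hM10 : M1 ≠ 0 := by rintro rfl; simp at hML; exact hM0 hML.symm
  obtain ⟨Ms, Mn, hMs, hMsp, hMnp⟩ := exists_split M1 hM10
    (fun p => (p : ℤ) ∣ K0 * eval x (dder v F))
  have hMdvd : M ^ 2 ∣ N := ⟨s0, hMN.symm⟩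
  have hM1M : M1 ∣ M := ⟨ML, by rw [mul_comm]; exact hML.symm⟩
  have hMsM : Ms ∣ M := (Dvd.intro _ hMs).trans hM1M
  have hMnM : Mn ∣ M := (Dvd.intro_left _ hMs).trans hM1M
  have hMLM : ML ∣ M := Dvd.intro _ hML
  have hMN1 : M ∣ N := (dvd_pow_self M two_ne_zero).trans hMdvd
  -- the singular part
  have bMs : (Ms : ℝ) ≤ (B : ℝ) ^ ε := hsing Ms (hMsM.trans hMN1) hMsp
  -- the non-singular part
  have bMn : (Mn : ℝ) ≤ (B : ℝ) ^ ε := by
    by_contra h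
    push Not at h
    refine n3 ⟨hQ, Mn, h, ?_, ?_⟩
    · have h3 : Mn ^ 2 ∣ N := (pow_dvd_pow_of_dvd hMnM 2).trans hMdvd
      exact_mod_cast hdvdN _ h3
    · intro p hp hpM
      refine ⟨?_, hMnp p hp hpM⟩
      have h2 := hM1p p hp (hpM.trans (Dvd.intro_left _ hMs))
      push Not at h2
      exact h2
  have bM1 : (M1 : ℝ) ^ 2 ≤ (B : ℝ) ^ (4 * ε) := by
    have h1 : (M1 : ℝ) = Ms * Mn := by rw [← hMs]; push_cast; rfl
    have h2 : (M1 : ℝ) ≤ (B : ℝ) ^ ε * (B : ℝ) ^ ε := by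
      rw [h1]; exact mul_le_mul bMs bMn (Nat.cast_nonneg _) (by positivity)
    calc (M1 : ℝ) ^ 2 ≤ ((B : ℝ) ^ ε * (B : ℝ) ^ ε) ^ 2 := pow_le_pow_left₀ (Nat.cast_nonneg _) h2 2
      _ = (B : ℝ) ^ (4 * ε) := by
          rw [← Real.rpow_add hBpos, ← Real.rpow_natCast, ← Real.rpow_mul hBpos.le]
          congr 1
          push_cast
          ring
  -- values of a given shape
  have hshape : ∀ (e s w : ℕ), 2 ≤ e → e ≤ k → s ∣ N → Squarefree s → (s : ℝ) ≤ (B : ℝ) ^ β →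
      N ≠ M1 ^ 2 * s * w ^ e := by
    intro e s w he hek hsN hssq hs hNs
    have hs0 : s ≠ 0 := by
      rintro rfl
      rw [zero_dvd_iff] at hsN
      exact hN0 hsN
    obtain ⟨s1, s2, hs12, hs1p, hs2p⟩ := exists_split s hs0
      (fun p => (p : ℤ) ∣ K0 * eval x (dder v F))
    have hs1N : s1 ∣ N := (Dvd.intro _ hs12).trans hsN
    have b1 : (s1 : ℝ) ≤ (B : ℝ) ^ ε := hsing s1 hs1N hs1p
    have hs10 : s1 ≠ 0 := by rintro rfl; simp at hs12; exact hs0 hs12.symm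
    have hs2le : (s2 : ℝ) ≤ (B : ℝ) ^ (α - γ) := by
      refine le_trans ?_ hs
      have : s2 ≤ s := Nat.le_of_dvd (Nat.pos_of_ne_zero hs0) (Dvd.intro_left _ hs12)
      exact_mod_cast this
    have hσ : ((M1 ^ 2 * s1 : ℕ) : ℝ) ≤ (B : ℝ) ^ (ρ γ) := by
      push_cast
      calc (M1 : ℝ) ^ 2 * s1 ≤ (B : ℝ) ^ (4 * ε) * (B : ℝ) ^ ε :=
            mul_le_mul bM1 b1 (Nat.cast_nonneg _) (by positivity)
        _ = (B : ℝ) ^ (5 * ε) := by rw [← Real.rpow_add hBpos]; congr 1; ring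
        _ ≤ _ := Real.rpow_le_rpow_of_exponent_le hBr (by linarith)
    have hs2sq : Squarefree s2 := hssq.squarefree_of_dvd (Dvd.intro_left _ hs12)
    refine n5 ⟨⟨e, by omega⟩, he, hQ, ?_⟩
    rcases Int.natAbs_eq (eval x F) with h | h
    · refine ⟨s2, ((M1 ^ 2 * s1 : ℕ) : ℤ), (w : ℤ), hs2sq, hs2le, ?_, ?_, hne, hs2p⟩
      · rw [Int.natAbs_natCast]; exact hσ
      · rw [h, ← hN, hNs, ← hs12]; push_cast; ring
    · refine ⟨s2, -((M1 ^ 2 * s1 : ℕ) : ℤ), (w : ℤ), hs2sq, hs2le, ?_, ?_, hne, hs2p⟩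
      · rw [Int.natAbs_neg, Int.natAbs_natCast]; exact hσ
      · rw [h, ← hN, hNs, ← hs12]; push_cast; ring
  refine hstr ⟨hN0, hNlow, hNup, s0, ML, M1, ?_, hsq, bM1, hMLp, ?_, hshape⟩
  · rw [hML, mul_comm]
    exact hMN
  · intro p hp hpM
    have h2 := hM1p p hp hpM
    push Not at h2
    exact h2

/-- `α` is an admissible parameter of `F` -/
def HasAlpha {n : ℕ} (F : MvPolynomial (Fin (n + 1)) ℤ) (α : ℝ) : Prop :=
  α = 1 + 1 / (n : ℝ) ∨ ∃ m : ℕ, 1 ≤ m ∧ IsNormForm F m ∧ α = m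

/-- the structure of the values at almost all primitive vectors -/
theorem str_comp {n : ℕ} (hn : 2 ≤ n) (F : MvPolynomial (Fin (n + 1)) ℤ) {k : ℕ}
    (hk : F.IsHomogeneous k) (hk2 : 2 ≤ k) (hirr : Irreducible (toQ F)) (α : ℝ)
    (hα : HasAlpha F α) : 1 < α ∧ ∀ γ0 ε0 : ℝ, 0 < γ0 → 0 < ε0 → ∃ γ ε : ℝ, 0 < γ ∧ γ ≤ γ0 ∧
      0 < ε ∧ ε ≤ ε0 ∧ Sparse (n + 1) (fun B x => (∃ c : Fin (n + 1) → ℤ, ∑ i, c i * x i = 1) ∧
        eval x F ≠ 0 ∧ ¬ Str (B : ℝ) k (α - γ) γ ε (eval x F).natAbs) := by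
  classical
  have hk1 : 1 ≤ k := by omega
  have hn0 : (0 : ℝ) < n := by exact_mod_cast (by omega : 0 < n)
  have h1n : 0 < 1 / (n : ℝ) := by positivity
  have hF0 : F ≠ 0 := by
    intro h0
    exact hirr.ne_zero (by rw [h0, map_zero])
  rcases hα with rfl | ⟨m, -, hF, rfl⟩
  · obtain ⟨a, i₀, hFa, ha⟩ := exists_direction F hk hirr
    refine ⟨by linarith, fun γ0 ε0 hγ0 hε0 => ?_⟩
    set γ := min γ0 (1 / 8) with hγ
    have hγp : 0 < γ := lt_min hγ0 (by norm_num)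
    set ε := min (min ε0 (1 / 16)) (γ / 64 / 8) with hε
    refine ⟨γ, ε, hγp, min_le_left _ _, lt_min (lt_min hε0 (by norm_num)) (by positivity),
      (min_le_left _ _).trans (min_le_left _ _), ?_⟩
    refine str_abs F hk hk2 hirr (1 + 1 / (n : ℝ)) (by linarith) a hFa (a i₀ * eval a F)
      (mul_ne_zero ha hFa) (fun δ => δ / 64) (fun δ hδ => by positivity)
      (fun x => ∃ c : Fin (n + 1) → ℤ, ∑ i, c i * x i = 1) ?_ ?_ γ ε hγp (min_le_right _ _)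
      (lt_min (lt_min hε0 (by norm_num)) (by positivity))
      ((min_le_left _ _).trans (min_le_right _ _)) (min_le_right _ _)
    · intro ε δ hε hε1 hδ hδ1
      have S3 := sparse_square F hk hk1 a i₀ hFa ha hε (show (0 : ℝ) < 1 / 8 by norm_num)
        (by norm_num)
      have S4 := sparse_planes hn F hk hk1 hirr δ hδ
      refine (S3.or S4).mono ?_
      rintro B x hB - ⟨hprim, M, hM1, hM2, hM3⟩
      have hBr : (1 : ℝ) ≤ B := by exact_mod_cast hB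
      have hBpos : (0 : ℝ) < B := by linarith
      by_cases hbig : ∃ p : ℕ, p.Prime ∧ p ∣ M ∧ (B : ℝ) ^ ((3 : ℝ) / 4) < p
      · obtain ⟨p, hp, hpM, hpB⟩ := hbig
        right
        refine ⟨hprim, p, hp, hpB, (hM3 p hp hpM).1, ?_⟩
        refine dvd_trans ?_ hM2
        exact pow_dvd_pow_of_dvd (Int.natCast_dvd_natCast.2 hpM) 2
      · left
        push Not at hbig
        obtain ⟨d, hd1, hd2, hd3⟩ := exists_divisor M _ ((B : ℝ) ^ ((3 : ℝ) / 4))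
          (Real.one_le_rpow hBr hε.le) hM1 (fun p hp hpM => hbig p hp hpM)
        refine ⟨d, hd2, ?_, ?_, fun p hp hpd => (hM3 p hp (hpd.trans hd1)).2⟩
        · refine hd3.trans ?_
          rw [← Real.rpow_add hBpos]
          exact Real.rpow_le_rpow_of_exponent_le hBr (by linarith)
        · exact dvd_trans (pow_dvd_pow_of_dvd (Int.natCast_dvd_natCast.2 hd1) 2) hM2
    · intro e he δ hδ hδ1
      refine (sparse_mul hn F hk hk2 hirr e he δ hδ).mono ?_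
      rintro B x - - ⟨hprim, s, σ, w, h1, h2, h3, h4, h5, -⟩
      exact ⟨hprim, h5, s, σ, w, h1, h2, h3, h4⟩
  · obtain ⟨E, hE1, hE2, α, d, c, J, hNF, hJm, hJ, hind⟩ := NF_of_isNormForm F hF0 m hF
    have hm2 := two_le_rank F hk hk2 hirr α d c hNF J hJ hind
    rw [← hJm]
    obtain ⟨j0, hj0⟩ : J.Nonempty := by
      rw [← Finset.card_pos]; omega
    set a : Fin (n + 1) → ℤ := Pi.single j0 1 with ha
    have haJ : ∀ i, i ∉ J → a i = 0 := by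
      intro i hi
      rw [ha, Pi.single_eq_of_ne]
      rintro rfl
      exact hi hj0
    have ha0 : a ≠ 0 := by
      intro h
      have := congrFun h j0
      rw [ha, Pi.single_eq_same, Pi.zero_apply] at this
      exact one_ne_zero this
    have hFa : eval a F ≠ 0 := eval_ne_of_Lf F α d c hNF a (hind a haJ ha0)
    have hm1 : (2 : ℝ) ≤ J.card := by exact_mod_cast hm2
    have hmJ : (0 : ℝ) < J.card := by linarith
    refine ⟨by linarith, fun γ0 ε0 hγ0 hε0 => ?_⟩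
    set γ := min γ0 (1 / 8) with hγ
    have hγp : 0 < γ := lt_min hγ0 (by norm_num)
    set ε := min (min ε0 (1 / 16)) (γ / (32 * J.card) / 8) with hε
    refine ⟨γ, ε, hγp, min_le_left _ _, lt_min (lt_min hε0 (by norm_num)) (by positivity),
      (min_le_left _ _).trans (min_le_left _ _), ?_⟩
    refine (str_abs F hk hk2 hirr (J.card : ℝ) (by linarith) a hFa (d * c)
      (mul_ne_zero hNF.hd hNF.hc) (fun δ => δ / (32 * J.card)) (fun δ hδ => by positivity)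
      (fun _ => True) ?_ ?_ γ ε hγp (min_le_right _ _)
      (lt_min (lt_min hε0 (by norm_num)) (by positivity))
      ((min_le_left _ _).trans (min_le_right _ _)) (min_le_right _ _)).mono
        fun B x _ _ h => ⟨trivial, h.2⟩
    · intro ε δ hε hε1 hδ hδ1
      set ε' := min ε (δ / 2) with hε'
      have hε'0 : 0 < ε' := lt_min hε (by positivity)
      refine (sparse_p F hk α d c hNF J hind (by omega) a haJ ε' (δ / 2) hε'0 (by positivity)
        (by linarith)).mono ?_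
      rintro B x hB - ⟨-, M, hM1, hM2, hM3⟩
      have hBr : (1 : ℝ) ≤ B := by exact_mod_cast hB
      have hBpos : (0 : ℝ) < B := by linarith
      have hM1' : (B : ℝ) ^ ε' < M :=
        lt_of_le_of_lt (Real.rpow_le_rpow_of_exponent_le hBr (min_le_left _ _)) hM1
      obtain ⟨t, ht1, ht2, ht3⟩ := exists_divisor M _ ((B : ℝ) ^ ((J.card : ℝ) - δ))
        (Real.one_le_rpow hBr hε'0.le) hM1' (fun p hp hpM => (hM3 p hp hpM).1)
      refine ⟨t, ht2, ?_, ?_, fun p hp hpd => (hM3 p hp (hpd.trans ht1)).2⟩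
      · refine ht3.trans ?_
        rw [← Real.rpow_add hBpos]
        refine Real.rpow_le_rpow_of_exponent_le hBr ?_
        have : ε' ≤ δ / 2 := min_le_right _ _
        linarith
      · exact dvd_trans (pow_dvd_pow_of_dvd (Int.natCast_dvd_natCast.2 ht1) 2) hM2
    · intro e he δ hδ hδ1
      refine (sparse_s F hk hk2 hirr α d c hNF J hJ hind hm2 a haJ e he δ hδ hδ1).mono ?_
      rintro B x - - ⟨-, s, σ, w, -, h2⟩
      exact ⟨s, σ, w, h2⟩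

end Pool.Agent.D0H41.OC
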