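import Mathlib
import Pool.Agent.D0H41.OC.Str

/-! # Weighted sums over the prime divisors of a value -/

set_option autoImplicit false

namespace Pool.Agent.D0H41.OC

open Finset
open Pool.Agent.H813R3.Voj (rd)
open Pool.Agent.N445.VW (exists_split)

/-- the sum of `(1 - gcd (e, v_p(N)) / e) log p` over the primes `p` -/
noncomputable def dd (e N : ℕ) : ℝ :=
  ∑ p ∈ N.primeFactors, (1 - (Nat.gcd e (N.factorization p) : ℝ) / e) * Real.log p

/-- the sum of `log p` over the primes `p` which divide `N` exactly once -/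
noncomputable def mo (N : ℕ) : ℝ :=
  ∑ p ∈ N.primeFactors.filter (fun p => N.factorization p = 1), Real.log p

theorem coef_nonneg (e v : ℕ) (he : 1 ≤ e) : (0 : ℝ) ≤ 1 - (Nat.gcd e v : ℝ) / e := by
  have he0 : (0 : ℝ) < e := by exact_mod_cast he
  rw [sub_nonneg, div_le_one he0]
  exact_mod_cast Nat.gcd_le_left v he

theorem coef_half (e v : ℕ) (he : 1 ≤ e) (hv : ¬ e ∣ v) : (1 : ℝ) / 2 ≤ 1 - (Nat.gcd e v : ℝ) / e := by
  have he0 : (0 : ℝ) < e := by exact_mod_cast he
  obtain ⟨t, ht⟩ := Nat.gcd_dvd_left e v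
  have hne : t ≠ 1 := by
    rintro rfl
    rw [mul_one] at ht
    apply hv
    rw [ht]
    exact Nat.gcd_dvd_right _ _
  have h0 : t ≠ 0 := by
    rintro rfl
    rw [mul_zero] at ht
    omega
  have h2 : 2 ≤ t := by omega
  have h3 : 2 * Nat.gcd e v ≤ e := by
    conv_rhs => rw [ht]
    rw [mul_comm]
    exact Nat.mul_le_mul_left _ h2
  have h4 : (2 : ℝ) * Nat.gcd e v ≤ e := by exact_mod_cast h3
  have h5 : (Nat.gcd e v : ℝ) / e ≤ 1 / 2 := by
    rw [div_le_iff₀ he0]
    linarith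
  linarith

theorem coef_cop (e v : ℕ) (hv : Nat.gcd e v = 1) :
    (1 : ℝ) - (Nat.gcd e v : ℝ) / e = 1 - 1 / e := by
  rw [hv, Nat.cast_one]

theorem term_nonneg (e v p : ℕ) (he : 1 ≤ e) :
    0 ≤ (1 - (Nat.gcd e v : ℝ) / e) * Real.log p :=
  mul_nonneg (coef_nonneg e v he) (Real.log_natCast_nonneg p)

theorem dd_nonneg (e N : ℕ) (he : 1 ≤ e) : 0 ≤ dd e N :=
  Finset.sum_nonneg fun p _ => term_nonneg e _ p he

/-- a part of the sum -/
theorem dd_ge_sum (e N : ℕ) (he : 1 ≤ e) (T : Finset ℕ) (hT : T ⊆ N.primeFactors) :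
    ∑ p ∈ T, (1 - (Nat.gcd e (N.factorization p) : ℝ) / e) * Real.log p ≤ dd e N :=
  Finset.sum_le_sum_of_subset_of_nonneg hT fun p _ _ => term_nonneg e _ p he

theorem log_rd (N : ℕ) : Real.log (rd N) = ∑ p ∈ N.primeFactors, Real.log p := by
  unfold rd
  push_cast
  rw [Real.log_prod]
  intro p hp
  exact_mod_cast (Nat.prime_of_mem_primeFactors hp).ne_zero

/-- the bound by the radical -/
theorem dd_ge_rad (e N : ℕ) (he : 1 ≤ e) :
    Real.log (rd N) - Real.log N / e ≤ dd e N := by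
  have he0 : (0 : ℝ) < e := by exact_mod_cast he
  have h1 : Real.log N = ∑ p ∈ N.primeFactors, (N.factorization p : ℝ) * Real.log p := by
    rw [Real.log_nat_eq_sum_factorization, Finsupp.sum, Nat.support_factorization]
  rw [log_rd, h1, Finset.sum_div, ← Finset.sum_sub_distrib]
  refine Finset.sum_le_sum fun p hp => ?_
  have h2 : N.factorization p ≠ 0 := by
    have := Nat.support_factorization N ▸ hp
    exact Finsupp.mem_support_iff.1 this
  have h3 : (Nat.gcd e (N.factorization p) : ℝ) ≤ N.factorization p := by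
    exact_mod_cast Nat.gcd_le_right e (Nat.pos_of_ne_zero h2)
  have h4 : (Nat.gcd e (N.factorization p) : ℝ) / e ≤ N.factorization p / e :=
    div_le_div_of_nonneg_right h3 he0.le
  have h5 := Real.log_natCast_nonneg p
  have h6 := mul_le_mul_of_nonneg_right h4 h5
  have h7 : (N.factorization p : ℝ) * Real.log p / e = N.factorization p / e * Real.log p := by
    ring
  rw [h7]
  linarith

section parts

variable {X : ℝ} {s0 ML M1 N : ℕ}

/-- the factorization of `N` -/
theorem fact_eq (hN : s0 * (ML * M1) ^ 2 = N) (hN0 : N ≠ 0) (p : ℕ) :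
    N.factorization p = s0.factorization p + 2 * (ML.factorization p + M1.factorization p) := by
  have h0 : s0 ≠ 0 := by rintro rfl; simp at hN; exact hN0 hN.symm
  have h1 : ML ≠ 0 := by rintro rfl; simp at hN; exact hN0 hN.symm
  have h2 : M1 ≠ 0 := by rintro rfl; simp at hN; exact hN0 hN.symm
  rw [← hN, Nat.factorization_mul h0 (pow_ne_zero _ (mul_ne_zero h1 h2)), Nat.factorization_pow,
    Nat.factorization_mul h1 h2]
  simp only [Finsupp.coe_add, Finsupp.coe_smul, Pi.add_apply, Pi.smul_apply, smul_eq_mul]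

theorem core (hN : s0 * (ML * M1) ^ 2 = N) (hN0 : N ≠ 0)
    (hML : ∀ p : ℕ, p.Prime → p ∣ ML → X < p) (hM1 : ∀ p : ℕ, p.Prime → p ∣ M1 → (p : ℝ) ≤ X)
    (g : ℕ) (hg : ∀ p : ℕ, p.Prime → p ∣ ML → g ∣ N.factorization p) (hg0 : g ≠ 0) :
    ∃ s w : ℕ, s ∣ s0 ∧ (∀ p : ℕ, p.Prime → p ∣ s → ¬ p ∣ ML) ∧ N = M1 ^ 2 * s * w ^ g := by
  have h0 : s0 ≠ 0 := by rintro rfl; simp at hN; exact hN0 hN.symm
  have h1 : ML ≠ 0 := by rintro rfl; simp at hN; exact hN0 hN.symm
  have h2 : M1 ≠ 0 := by rintro rfl; simp at hN; exact hN0 hN.symm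
  obtain ⟨t, s, hts, ht, hs⟩ := exists_split s0 h0 (fun p => p ∣ ML)
  have ht0 : t ≠ 0 := by rintro rfl; simp at hts; exact h0 hts.symm
  have hs0 : s ≠ 0 := by rintro rfl; simp at hts; exact h0 hts.symm
  obtain ⟨A, hA⟩ : ∃ A, A = t * ML ^ 2 := ⟨_, rfl⟩
  have hA0 : A ≠ 0 := by rw [hA]; exact mul_ne_zero ht0 (pow_ne_zero _ h1)
  have hAfac : ∀ p : ℕ, p.Prime → A.factorization p = t.factorization p + 2 * ML.factorization p := by
    intro p _
    rw [hA, Nat.factorization_mul ht0 (pow_ne_zero _ h1), Nat.factorization_pow]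
    simp
  have hdiv : ∀ p : ℕ, p.Prime → g ∣ A.factorization p := by
    intro p hp
    by_cases hpM : p ∣ ML
    · have h3 := hg p hp hpM
      rw [fact_eq hN hN0 p, ← hts, Nat.factorization_mul ht0 hs0] at h3
      have h4 : s.factorization p = 0 :=
        Nat.factorization_eq_zero_of_not_dvd fun h => hs p hp h hpM
      have h5 : M1.factorization p = 0 :=
        Nat.factorization_eq_zero_of_not_dvd fun h => absurd (hM1 p hp h) (not_le.2 (hML p hp hpM))
      rw [hAfac p hp]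
      simpa [h4, h5] using h3
    · have h4 : t.factorization p = 0 :=
        Nat.factorization_eq_zero_of_not_dvd fun h => hpM (ht p hp h)
      have h5 : ML.factorization p = 0 := Nat.factorization_eq_zero_of_not_dvd hpM
      rw [hAfac p hp, h4, h5]
      exact dvd_zero _
  obtain ⟨w, hw⟩ : ∃ w : ℕ, w ^ g = A := by
    refine ⟨∏ p ∈ A.primeFactors, p ^ (A.factorization p / g), ?_⟩
    rw [← Finset.prod_pow]
    have h3 : ∏ p ∈ A.primeFactors, (p ^ (A.factorization p / g)) ^ g =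
        ∏ p ∈ A.primeFactors, p ^ A.factorization p := by
      refine Finset.prod_congr rfl fun p hp => ?_
      rw [← pow_mul, Nat.div_mul_cancel (hdiv p (Nat.prime_of_mem_primeFactors hp))]
    rw [h3]
    exact Nat.prod_factorization_pow_eq_self hA0
  refine ⟨s, w, Dvd.intro_left _ hts, hs, ?_⟩
  rw [hw, hA, ← hN, ← hts]
  ring

/-- the primes of a squarefree part -/
theorem fact_one (hN : s0 * (ML * M1) ^ 2 = N) (hN0 : N ≠ 0) (hsq : Squarefree s0) {s p : ℕ}
    (hs : s ∣ s0) (hp : p.Prime) (hps : p ∣ s) (hpML : ¬ p ∣ ML) (hpM1 : ¬ p ∣ M1) :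
    N.factorization p = 1 := by
  rw [fact_eq hN hN0, Nat.factorization_eq_zero_of_not_dvd hpML,
    Nat.factorization_eq_zero_of_not_dvd hpM1]
  have h0 : s0 ≠ 0 := hsq.ne_zero
  have h1 : s0.factorization p ≤ 1 := hsq.natFactorization_le_one p
  have h2 : 1 ≤ s0.factorization p := (hp.dvd_iff_one_le_factorization h0).1 (hps.trans hs)
  omega

/-- the sum over the primes of a squarefree part -/
theorem sum_sqf (hsq : Squarefree s0) {s : ℕ} (hs : s ∣ s0) (hM10 : M1 ≠ 0) :
    Real.log s - Real.log M1 ≤ ∑ p ∈ s.primeFactors \ M1.primeFactors, Real.log p := by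
  have hsqs : Squarefree s := hsq.squarefree_of_dvd hs
  have h1 : Real.log s = ∑ p ∈ s.primeFactors, Real.log p := by
    rw [← log_rd]
    unfold rd
    rw [Nat.prod_primeFactors_of_squarefree hsqs]
  have h2 : ∑ p ∈ M1.primeFactors, Real.log p ≤ Real.log M1 := by
    rw [← log_rd]
    have h3 : rd M1 ≤ M1 := Nat.le_of_dvd (Nat.pos_of_ne_zero hM10) (Nat.prod_primeFactors_dvd M1)
    have h4 : 0 < rd M1 := Finset.prod_pos fun p hp => (Nat.prime_of_mem_primeFactors hp).pos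
    exact Real.log_le_log (by exact_mod_cast h4) (by exact_mod_cast h3)
  have h3 : ∑ p ∈ s.primeFactors, Real.log p ≤
      ∑ p ∈ s.primeFactors \ M1.primeFactors, Real.log p + ∑ p ∈ M1.primeFactors, Real.log p := by
    rw [← Finset.sum_union Finset.sdiff_disjoint]
    refine Finset.sum_le_sum_of_subset_of_nonneg ?_ fun p _ _ => Real.log_natCast_nonneg p
    intro p hp
    rw [Finset.mem_union, Finset.mem_sdiff]
    tauto
  linarith

theorem dd_ge_sqf (hN : s0 * (ML * M1) ^ 2 = N) (hN0 : N ≠ 0) (hsq : Squarefree s0) {s : ℕ}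
    (hs : s ∣ s0) (hsM : ∀ p : ℕ, p.Prime → p ∣ s → ¬ p ∣ ML) (e : ℕ) (he : 1 ≤ e) :
    (1 - 1 / (e : ℝ)) * (Real.log s - Real.log M1) ≤ dd e N := by
  have h2 : M1 ≠ 0 := by rintro rfl; simp at hN; exact hN0 hN.symm
  have hsN : s ∣ N := hs.trans (Dvd.intro _ hN)
  refine le_trans ?_ (dd_ge_sum e N he (s.primeFactors \ M1.primeFactors) ?_)
  · have h3 : ∑ p ∈ s.primeFactors \ M1.primeFactors,
        (1 - (Nat.gcd e (N.factorization p) : ℝ) / e) * Real.log p =
        (1 - 1 / (e : ℝ)) * ∑ p ∈ s.primeFactors \ M1.primeFactors, Real.log p := by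
      rw [Finset.mul_sum]
      refine Finset.sum_congr rfl fun p hp => ?_
      rw [Finset.mem_sdiff] at hp
      have hpp := Nat.prime_of_mem_primeFactors hp.1
      have hps := Nat.dvd_of_mem_primeFactors hp.1
      have h4 : N.factorization p = 1 := by
        refine fact_one hN hN0 hsq hs hpp hps (hsM p hpp hps) fun h => hp.2 ?_
        exact Nat.mem_primeFactors.2 ⟨hpp, h, h2⟩
      rw [h4, Nat.gcd_one_right, Nat.cast_one]
    rw [h3]
    refine mul_le_mul_of_nonneg_left (sum_sqf hsq hs h2) ?_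
    have he0 : (1 : ℝ) ≤ e := by exact_mod_cast he
    rw [sub_nonneg, div_le_one (by linarith)]
    exact he0
  · intro p hp
    rw [Finset.mem_sdiff] at hp
    exact Nat.primeFactors_mono hsN hN0 hp.1

theorem mo_ge_sqf (hN : s0 * (ML * M1) ^ 2 = N) (hN0 : N ≠ 0) (hsq : Squarefree s0) {s : ℕ}
    (hs : s ∣ s0) (hsM : ∀ p : ℕ, p.Prime → p ∣ s → ¬ p ∣ ML) :
    Real.log s - Real.log M1 ≤ mo N := by
  have h2 : M1 ≠ 0 := by rintro rfl; simp at hN; exact hN0 hN.symm
  have hsN : s ∣ N := hs.trans (Dvd.intro _ hN)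
  refine (sum_sqf hsq hs h2).trans ?_
  refine Finset.sum_le_sum_of_subset_of_nonneg ?_ fun p _ _ => Real.log_natCast_nonneg p
  intro p hp
  rw [Finset.mem_sdiff] at hp
  have hpp := Nat.prime_of_mem_primeFactors hp.1
  have hps := Nat.dvd_of_mem_primeFactors hp.1
  rw [Finset.mem_filter]
  refine ⟨Nat.primeFactors_mono hsN hN0 hp.1, ?_⟩
  refine fact_one hN hN0 hsq hs hpp hps (hsM p hpp hps) fun h => hp.2 ?_
  exact Nat.mem_primeFactors.2 ⟨hpp, h, h2⟩

end parts

section str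

variable {B β γ ε : ℝ} {k N : ℕ}

/-- the exponent of a large prime -/
theorem two_le_fact {s0 ML M1 p : ℕ} (hN : s0 * (ML * M1) ^ 2 = N) (hN0 : N ≠ 0) (hp : p.Prime)
    (hpM : p ∣ ML) : 2 ≤ N.factorization p := by
  have h1 : ML ≠ 0 := by rintro rfl; simp at hN; exact hN0 hN.symm
  rw [fact_eq hN hN0]
  have h2 : 1 ≤ ML.factorization p := (hp.dvd_iff_one_le_factorization h1).1 hpM
  omega

/-- a product of prime powers dividing `N` is smaller than `B ^ (k + γ)` -/
theorem pow_lt_of {p : ℕ} {a : ℕ} (hB : 1 ≤ B) (hβ : 0 ≤ β) (hp : B ^ β < p) (ha : 1 ≤ a) :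
    B ^ (a * β) < (p : ℝ) ^ a := by
  have hB0 : 0 < B := by linarith
  rw [mul_comm, Real.rpow_mul hB0.le, Real.rpow_natCast]
  exact pow_lt_pow_left₀ hp (by positivity) (by omega)

theorem log_M1 {M1 : ℕ} (hB : 1 ≤ B) (h : (M1 : ℝ) ^ 2 ≤ B ^ (4 * ε)) (h0 : M1 ≠ 0) :
    Real.log M1 ≤ 2 * ε * Real.log B := by
  have hB0 : 0 < B := by linarith
  have h1 : (0 : ℝ) < M1 := by exact_mod_cast Nat.pos_of_ne_zero h0
  have h2 := Real.log_le_log (by positivity) h
  rw [Real.log_pow, Real.log_rpow hB0] at h2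
  push_cast at h2
  linarith

theorem fact_le (h : Str B k β γ ε N) (hB : 1 ≤ B) (hβ : 1 ≤ β) (hγ : γ ≤ 1)
    {p : ℕ} (hp : p.Prime) (hpB : B ^ β < p) : N.factorization p ≤ k := by
  by_contra hcon
  push Not at hcon
  have hB0 : 0 < B := by linarith
  have h1 : p ^ (k + 1) ∣ N := (pow_dvd_pow p hcon).trans (Nat.ordProj_dvd N p)
  have h2 : ((p ^ (k + 1) : ℕ) : ℝ) ≤ N := by
    exact_mod_cast Nat.le_of_dvd (Nat.pos_of_ne_zero h.ne) h1
  have h3 := pow_lt_of (a := k + 1) hB (by linarith) hpB (by omega)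
  have h4 : B ^ ((k : ℝ) + γ) ≤ B ^ (((k + 1 : ℕ) : ℝ) * β) := by
    refine Real.rpow_le_rpow_of_exponent_le hB ?_
    have h5 : ((k + 1 : ℕ) : ℝ) ≤ ((k + 1 : ℕ) : ℝ) * β :=
      le_mul_of_one_le_right (Nat.cast_nonneg _) hβ
    push_cast at h5 ⊢
    linarith
  have h5 := h.up
  push_cast at h2
  linarith

/-- the squarefree cofactor is large -/
theorem s_large {s0 ML M1 : ℕ} (h : Str B k β γ ε N) (hB : 1 ≤ B) (hβ : 1 ≤ β) (hγ : γ ≤ 1)
    (hk : β + 5 * ε ≤ k) (hN : s0 * (ML * M1) ^ 2 = N) (hsq : Squarefree s0)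
    (hM1 : (M1 : ℝ) ^ 2 ≤ B ^ (4 * ε)) (hML : ∀ p : ℕ, p.Prime → p ∣ ML → B ^ β < p)
    (hM1p : ∀ p : ℕ, p.Prime → p ∣ M1 → (p : ℝ) ≤ B ^ β)
    (hsh : ∀ e s w : ℕ, 2 ≤ e → e ≤ k → s ∣ N → Squarefree s → (s : ℝ) ≤ B ^ β →
      N ≠ M1 ^ 2 * s * w ^ e) (g : ℕ) (hg2 : 2 ≤ g)
    (hg : ∀ p : ℕ, p.Prime → p ∣ ML → g ∣ N.factorization p) :
    ∃ s w : ℕ, s ∣ s0 ∧ (∀ p : ℕ, p.Prime → p ∣ s → ¬ p ∣ ML) ∧ N = M1 ^ 2 * s * w ^ g ∧
      B ^ β < s := by
  have hB0 : 0 < B := by linarith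
  by_cases hML1 : ML = 1
  · refine ⟨s0, 1, dvd_rfl, fun p hp _ h1 => ?_, ?_, ?_⟩
    · rw [hML1] at h1
      exact hp.one_lt.ne' (Nat.dvd_one.1 h1)
    · rw [← hN, hML1]
      ring
    · have h1 : (N : ℝ) = s0 * (M1 : ℝ) ^ 2 := by
        rw [← hN, hML1]
        push_cast
        ring
      have h2 : (N : ℝ) ≤ s0 * B ^ (4 * ε) := by
        rw [h1]
        exact mul_le_mul_of_nonneg_left hM1 (Nat.cast_nonneg _)
      have h3 : B ^ ((k : ℝ) - ε) < s0 * B ^ (4 * ε) := h.low.trans_le h2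
      have h4 : B ^ ((k : ℝ) - ε) = B ^ ((k : ℝ) - 5 * ε) * B ^ (4 * ε) := by
        rw [← Real.rpow_add hB0]
        congr 1
        ring
      rw [h4] at h3
      have h5 : B ^ ((k : ℝ) - 5 * ε) < s0 := lt_of_mul_lt_mul_right h3 (by positivity)
      refine lt_of_le_of_lt ?_ h5
      exact Real.rpow_le_rpow_of_exponent_le hB (by linarith)
  · obtain ⟨s, w, hs, hsM, hNw⟩ := core hN h.ne hML hM1p g hg (by omega)
    refine ⟨s, w, hs, hsM, hNw, ?_⟩
    by_contra hcon
    push Not at hcon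
    obtain ⟨p, hp, hpM⟩ := Nat.exists_prime_and_dvd hML1
    have h1 := two_le_fact hN h.ne hp hpM
    have h2 := Nat.le_of_dvd (by omega) (hg p hp hpM)
    have h3 := fact_le h hB hβ hγ hp (hML p hp hpM)
    exact hsh g s w hg2 (by omega) (hs.trans (Dvd.intro _ hN)) (hsq.squarefree_of_dvd hs) hcon hNw

/-- **The general lower bound.** -/
theorem dd_ge_alpha (h : Str B k β γ ε N) (hB : 1 ≤ B) (hβ : 1 ≤ β) (hγ : γ ≤ 1) (hε : 0 ≤ ε)
    (hk : β + 5 * ε ≤ k) (e : ℕ) (he : 1 ≤ e) :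
    (1 - 1 / (e : ℝ)) * ((β - 2 * ε) * Real.log B) ≤ dd e N := by
  have hB0 : 0 < B := by linarith
  have hlB : 0 ≤ Real.log B := Real.log_nonneg hB
  have he0 : (1 : ℝ) ≤ e := by exact_mod_cast he
  have hco0 : 0 ≤ 1 - 1 / (e : ℝ) := by
    rw [sub_nonneg, div_le_one (by linarith)]
    exact he0
  have hco1 : 1 - 1 / (e : ℝ) ≤ 1 := by
    have : 0 ≤ 1 / (e : ℝ) := by positivity
    linarith
  rcases Nat.eq_or_lt_of_le he with he1 | he2
  · rw [← he1]
    simp only [Nat.cast_one, div_one, sub_self, zero_mul]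
    exact dd_nonneg 1 N le_rfl
  obtain ⟨s0, ML, M1, hN, hsq, hM1, hML, hM1p, hsh⟩ := h.ex
  have hM10 : M1 ≠ 0 := by rintro rfl; simp at hN; exact h.ne hN.symm
  have hMLN : ∀ p : ℕ, p ∣ ML → p ∣ N := fun p hp => by
    rw [← hN]
    exact (hp.trans (Dvd.intro _ rfl)).trans ((dvd_pow_self _ two_ne_zero).trans (Dvd.intro_left _ rfl))
  have hfin : ∀ g : ℕ, 2 ≤ g → (∀ p : ℕ, p.Prime → p ∣ ML → g ∣ N.factorization p) →
      (1 - 1 / (e : ℝ)) * ((β - 2 * ε) * Real.log B) ≤ dd e N := by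
    intro g hg2 hg
    obtain ⟨s, w, hs, hsM, -, hsB⟩ := s_large h hB hβ hγ hk hN hsq hM1 hML hM1p hsh g hg2 hg
    refine le_trans ?_ (dd_ge_sqf hN h.ne hsq hs hsM e he)
    refine mul_le_mul_of_nonneg_left ?_ hco0
    have h1 : β * Real.log B ≤ Real.log s := by
      rw [← Real.log_rpow hB0]
      exact Real.log_le_log (by positivity) hsB.le
    have h2 := log_M1 hB hM1 hM10
    linarith
  have hlogp : ∀ p : ℕ, p.Prime → p ∣ ML → β * Real.log B ≤ Real.log p := fun p hp hpM => by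
    rw [← Real.log_rpow hB0]
    exact Real.log_le_log (by positivity) (hML p hp hpM).le
  have htgt : (1 - 1 / (e : ℝ)) * ((β - 2 * ε) * Real.log B) ≤
      (1 - 1 / (e : ℝ)) * (β * Real.log B) := by
    refine mul_le_mul_of_nonneg_left ?_ hco0
    have : 0 ≤ ε * Real.log B := mul_nonneg hε hlB
    linarith
  by_cases hC : ∃ p : ℕ, p.Prime ∧ p ∣ ML ∧ ¬ e ∣ N.factorization p
  · obtain ⟨p, hp, hpM, hpe⟩ := hC
    by_cases hA : ∃ q : ℕ, q.Prime ∧ q ∣ ML ∧ q ≠ p ∧ ¬ e ∣ N.factorization q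
    · obtain ⟨q, hq, hqM, hqp, hqe⟩ := hA
      have h1 := dd_ge_sum e N he {p, q} (by
        intro r hr
        rw [Finset.mem_insert, Finset.mem_singleton] at hr
        rcases hr with rfl | rfl
        · exact Nat.mem_primeFactors.2 ⟨hp, hMLN _ hpM, h.ne⟩
        · exact Nat.mem_primeFactors.2 ⟨hq, hMLN _ hqM, h.ne⟩)
      rw [Finset.sum_pair (Ne.symm hqp)] at h1
      have h2 := mul_le_mul_of_nonneg_right (coef_half e _ he hpe) (Real.log_natCast_nonneg p)
      have h3 := mul_le_mul_of_nonneg_right (coef_half e _ he hqe) (Real.log_natCast_nonneg q)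
      have h4 := hlogp p hp hpM
      have h5 := hlogp q hq hqM
      have h6 : (1 - 1 / (e : ℝ)) * (β * Real.log B) ≤ β * Real.log B := by
        refine mul_le_of_le_one_left (mul_nonneg (by linarith) hlB) hco1
      linarith
    · push Not at hA
      by_cases hg1 : Nat.gcd e (N.factorization p) = 1
      · have h1 := dd_ge_sum e N he {p} (by
          intro r hr
          rw [Finset.mem_singleton] at hr
          rw [hr]
          exact Nat.mem_primeFactors.2 ⟨hp, hMLN _ hpM, h.ne⟩)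
        rw [Finset.sum_singleton, coef_cop _ _ hg1] at h1
        exact htgt.trans ((mul_le_mul_of_nonneg_left (hlogp p hp hpM) hco0).trans h1)
      · have h0 : Nat.gcd e (N.factorization p) ≠ 0 := (Nat.gcd_pos_of_pos_left _ he).ne'
        refine hfin (Nat.gcd e (N.factorization p)) (by omega) fun q hq hqM => ?_
        by_cases hqp : q = p
        · rw [hqp]
          exact Nat.gcd_dvd_right _ _
        · exact (Nat.gcd_dvd_left _ _).trans (hA q hq hqM hqp)
  · push Not at hC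
    exact hfin e he2 hC

/-- **The lower bound for prime indices.** -/
theorem dd_ge_prime (h : Str B k β γ ε N) (hB : 1 ≤ B) (hβ : 1 ≤ β) (hγ : γ ≤ 1)
    (hk : β + 5 * ε ≤ k) (e : ℕ) (he : e.Prime) (hke : (k : ℝ) + γ ≤ (e + 1) * β) :
    (1 - 1 / (e : ℝ)) * (Real.log (rd N) - 2 * ε * Real.log B) ≤ dd e N := by
  have hB0 : 0 < B := by linarith
  have he1 : 1 ≤ e := he.one_lt.le
  have he0 : (1 : ℝ) ≤ e := by exact_mod_cast he1
  have hco0 : 0 ≤ 1 - 1 / (e : ℝ) := by
    rw [sub_nonneg, div_le_one (by linarith)]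
    exact he0
  obtain ⟨s0, ML, M1, hN, hsq, hM1, hML, hM1p, hsh⟩ := h.ex
  have hM10 : M1 ≠ 0 := by rintro rfl; simp at hN; exact h.ne hN.symm
  have hMLN : ∀ p : ℕ, p ∣ ML → p ∣ N := fun p hp => by
    rw [← hN]
    exact (hp.trans (Dvd.intro _ rfl)).trans ((dvd_pow_self _ two_ne_zero).trans (Dvd.intro_left _ rfl))
  have hNle : ∀ d : ℕ, d ∣ N → (d : ℝ) ≤ B ^ ((k : ℝ) + γ) := fun d hd => by
    refine le_trans ?_ h.up
    exact_mod_cast Nat.le_of_dvd (Nat.pos_of_ne_zero h.ne) hd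
  have key : ∀ p ∈ N.primeFactors, e ∣ N.factorization p → p ∣ M1 := by
    intro p hp hpe
    have hpp := Nat.prime_of_mem_primeFactors hp
    have hpN := Nat.dvd_of_mem_primeFactors hp
    by_contra hpM1
    have hf := fact_eq hN h.ne p
    rw [Nat.factorization_eq_zero_of_not_dvd hpM1] at hf
    have h1 : 1 ≤ N.factorization p := (hpp.dvd_iff_one_le_factorization h.ne).1 hpN
    have h2 : e ≤ N.factorization p := Nat.le_of_dvd (by omega) hpe
    have h3 : s0.factorization p ≤ 1 := hsq.natFactorization_le_one p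
    have hpM : p ∣ ML := by
      by_contra hpM
      rw [Nat.factorization_eq_zero_of_not_dvd hpM] at hf
      have := he.two_le
      omega
    have hpB := hML p hpp hpM
    have hpow : p ^ e ∣ N := (pow_dvd_pow p h2).trans (Nat.ordProj_dvd N p)
    have h5 := pow_lt_of (a := e) hB (by linarith) hpB he1
    by_cases hq : ∃ q : ℕ, q.Prime ∧ q ∣ ML ∧ q ≠ p
    · obtain ⟨q, hqp, hqM, hqne⟩ := hq
      have h6 := two_le_fact hN h.ne hqp hqM
      have h7 : q ^ 2 ∣ N := (pow_dvd_pow q h6).trans (Nat.ordProj_dvd N q)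
      have hcop : Nat.Coprime (p ^ e) (q ^ 2) :=
        Nat.Coprime.pow _ _ ((Nat.coprime_primes hpp hqp).2 hqne.symm)
      have h8 := hNle _ (hcop.mul_dvd_of_dvd_of_dvd hpow h7)
      have h9 := pow_lt_of (a := 2) hB (by linarith) (hML q hqp hqM) (by omega)
      have h10 : B ^ ((e : ℝ) * β) * B ^ (((2 : ℕ) : ℝ) * β) < (p : ℝ) ^ e * (q : ℝ) ^ 2 :=
        mul_lt_mul'' h5 h9 (by positivity) (by positivity)
      rw [← Real.rpow_add hB0] at h10
      have h11 : B ^ ((k : ℝ) + γ) ≤ B ^ ((e : ℝ) * β + ((2 : ℕ) : ℝ) * β) := by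
        refine Real.rpow_le_rpow_of_exponent_le hB ?_
        push_cast
        linarith
      push_cast at h8
      linarith
    · push Not at hq
      obtain ⟨s, w, hs, hsM, -, hsB⟩ := s_large h hB hβ hγ hk hN hsq hM1 hML hM1p hsh e he.two_le
        (fun q hqp hqM => by rw [hq q hqp hqM]; exact hpe)
      have hcop : Nat.Coprime (p ^ e) s := by
        refine Nat.Coprime.pow_left _ ((hpp.coprime_iff_not_dvd).2 fun hps => ?_)
        exact hsM p hpp hps hpM
      have hsN : s ∣ N := hs.trans (Dvd.intro _ hN)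
      have h8 := hNle _ (hcop.mul_dvd_of_dvd_of_dvd hpow hsN)
      have h10 : B ^ ((e : ℝ) * β) * B ^ β < (p : ℝ) ^ e * (s : ℝ) :=
        mul_lt_mul'' h5 hsB (by positivity) (by positivity)
      rw [← Real.rpow_add hB0] at h10
      have h11 : B ^ ((k : ℝ) + γ) ≤ B ^ ((e : ℝ) * β + β) := by
        refine Real.rpow_le_rpow_of_exponent_le hB ?_
        linarith
      push_cast at h8
      linarith
  have h1 := dd_ge_sum e N he1 (N.primeFactors \ M1.primeFactors) Finset.sdiff_subset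
  have h2 : ∑ p ∈ N.primeFactors \ M1.primeFactors,
      (1 - (Nat.gcd e (N.factorization p) : ℝ) / e) * Real.log p =
      (1 - 1 / (e : ℝ)) * ∑ p ∈ N.primeFactors \ M1.primeFactors, Real.log p := by
    rw [Finset.mul_sum]
    refine Finset.sum_congr rfl fun p hp => ?_
    rw [Finset.mem_sdiff] at hp
    have h3 : ¬ e ∣ N.factorization p := fun h3 => hp.2
      (Nat.mem_primeFactors.2 ⟨Nat.prime_of_mem_primeFactors hp.1, key p hp.1 h3, hM10⟩)
    rw [coef_cop _ _ ((he.coprime_iff_not_dvd).2 h3)]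
  rw [h2] at h1
  refine le_trans (mul_le_mul_of_nonneg_left ?_ hco0) h1
  have h3 : ∑ p ∈ M1.primeFactors, Real.log p ≤ Real.log M1 := by
    rw [← log_rd]
    have h3 : rd M1 ≤ M1 := Nat.le_of_dvd (Nat.pos_of_ne_zero hM10) (Nat.prod_primeFactors_dvd M1)
    have h4 : 0 < rd M1 := Finset.prod_pos fun p hp => (Nat.prime_of_mem_primeFactors hp).pos
    exact Real.log_le_log (by exact_mod_cast h4) (by exact_mod_cast h3)
  have h4 := log_M1 hB hM1 hM10
  have h5 : Real.log (rd N) ≤ ∑ p ∈ N.primeFactors \ M1.primeFactors, Real.log p +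
      ∑ p ∈ M1.primeFactors, Real.log p := by
    rw [log_rd, ← Finset.sum_union Finset.sdiff_disjoint]
    refine Finset.sum_le_sum_of_subset_of_nonneg ?_ fun p _ _ => Real.log_natCast_nonneg p
    intro p hp
    rw [Finset.mem_union, Finset.mem_sdiff]
    tauto
  linarith

/-- **The primes which divide the value once.** -/
theorem mo_ge (h : Str B k β γ ε N) (hB : 1 ≤ B) (hβ : 1 ≤ β) (hγ : γ ≤ 1)
    (hk : β + 5 * ε ≤ k) (hke : (k : ℝ) + γ ≤ 5 * β) :
    (β - 2 * ε) * Real.log B ≤ mo N ∧ ((k : ℝ) + γ ≤ 3 * β →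
      ((k : ℝ) - 7 * ε) * Real.log B ≤ mo N) := by
  have hB0 : 0 < B := by linarith
  obtain ⟨s0, ML, M1, hN, hsq, hM1, hML, hM1p, hsh⟩ := h.ex
  have hM10 : M1 ≠ 0 := by rintro rfl; simp at hN; exact h.ne hN.symm
  have hNle : ∀ d : ℕ, d ∣ N → (d : ℝ) ≤ B ^ ((k : ℝ) + γ) := fun d hd => by
    refine le_trans ?_ h.up
    exact_mod_cast Nat.le_of_dvd (Nat.pos_of_ne_zero h.ne) hd
  have h4 := log_M1 hB hM1 hM10
  -- a common divisor of the exponents
  obtain ⟨g, hg2, hg, hg1⟩ : ∃ g : ℕ, 2 ≤ g ∧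
      (∀ p : ℕ, p.Prime → p ∣ ML → g ∣ N.factorization p) ∧
      ((k : ℝ) + γ ≤ 3 * β → ∀ p : ℕ, p.Prime → p ∣ ML → ∀ q : ℕ, q.Prime → q ∣ ML → q = p) := by
    have h2 : ∀ p q : ℕ, p.Prime → p ∣ ML → q.Prime → q ∣ ML → q ≠ p →
        N.factorization p = 2 ∧ ¬ (k : ℝ) + γ ≤ 3 * β := by
      intro p q hp hpM hq hqM hqp
      have a1 := two_le_fact hN h.ne hp hpM
      have a2 := two_le_fact hN h.ne hq hqM
      have a3 := pow_lt_of (a := N.factorization p) hB (by linarith) (hML p hp hpM) (by omega)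
      have a4 := pow_lt_of (a := N.factorization q) hB (by linarith) (hML q hq hqM) (by omega)
      have hcop : Nat.Coprime (p ^ N.factorization p) (q ^ N.factorization q) :=
        Nat.Coprime.pow _ _ ((Nat.coprime_primes hp hq).2 hqp.symm)
      have a5 := hNle _ (hcop.mul_dvd_of_dvd_of_dvd (Nat.ordProj_dvd N p) (Nat.ordProj_dvd N q))
      have a6 : B ^ ((N.factorization p : ℝ) * β) * B ^ ((N.factorization q : ℝ) * β) <
          (p : ℝ) ^ N.factorization p * (q : ℝ) ^ N.factorization q :=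
        mul_lt_mul'' a3 a4 (by positivity) (by positivity)
      rw [← Real.rpow_add hB0, ← add_mul] at a6
      push_cast at a5
      have a7 : ((N.factorization p : ℝ) + N.factorization q) * β < k + γ := by
        by_contra hcon
        push Not at hcon
        have := Real.rpow_le_rpow_of_exponent_le hB hcon
        linarith
      have a2' : (2 : ℝ) ≤ N.factorization q := by exact_mod_cast a2
      have a1' : (2 : ℝ) ≤ N.factorization p := by exact_mod_cast a1
      constructor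
      · by_contra hne
        have a8 : (3 : ℝ) ≤ N.factorization p := by exact_mod_cast (by omega : 3 ≤ N.factorization p)
        nlinarith
      · intro hcon
        nlinarith
    by_cases hML1 : ML = 1
    · have h0 : ∀ p : ℕ, p.Prime → ¬ p ∣ ML := fun p hp h => by
        rw [hML1] at h
        exact hp.one_lt.ne' (Nat.dvd_one.1 h)
      exact ⟨2, le_rfl, fun p hp hpM => absurd hpM (h0 p hp),
        fun _ p hp hpM => absurd hpM (h0 p hp)⟩
    · obtain ⟨p, hp, hpM⟩ := Nat.exists_prime_and_dvd hML1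
      refine ⟨N.factorization p, two_le_fact hN h.ne hp hpM, fun q hq hqM => ?_, ?_⟩
      · by_cases hqp : q = p
        · rw [hqp]
        · rw [(h2 p q hp hpM hq hqM hqp).1, (h2 q p hq hqM hp hpM (Ne.symm hqp)).1]
      · intro hk3 p' hp' hpM' q' hq' hqM'
        by_contra hne
        exact (h2 p' q' hp' hpM' hq' hqM' hne).2 hk3
  obtain ⟨s, w, hs, hsM, hNw, hsB⟩ := s_large h hB hβ hγ hk hN hsq hM1 hML hM1p hsh g hg2 hg
  constructor
  · refine le_trans ?_ (mo_ge_sqf hN h.ne hsq hs hsM)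
    have h1 : β * Real.log B ≤ Real.log s := by
      rw [← Real.log_rpow hB0]
      exact Real.log_le_log (by positivity) hsB.le
    linarith
  · intro hk3
    have hML1 : ML = 1 := by
      by_contra hML1
      obtain ⟨p, hp, hpM⟩ := Nat.exists_prime_and_dvd hML1
      have a1 := two_le_fact hN h.ne hp hpM
      have hcop : Nat.Coprime (p ^ 2) s := by
        refine Nat.Coprime.pow_left _ ((hp.coprime_iff_not_dvd).2 fun hps => ?_)
        exact hsM p hp hps hpM
      have hsN : s ∣ N := hs.trans (Dvd.intro _ hN)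
      have h8 := hNle _ (hcop.mul_dvd_of_dvd_of_dvd
        ((pow_dvd_pow p a1).trans (Nat.ordProj_dvd N p)) hsN)
      have a3 := pow_lt_of (a := 2) hB (by linarith) (hML p hp hpM) (by omega)
      have h10 : B ^ (((2 : ℕ) : ℝ) * β) * B ^ β < (p : ℝ) ^ 2 * (s : ℝ) :=
        mul_lt_mul'' a3 hsB (by positivity) (by positivity)
      rw [← Real.rpow_add hB0] at h10
      have h11 : B ^ ((k : ℝ) + γ) ≤ B ^ (((2 : ℕ) : ℝ) * β + β) := by
        refine Real.rpow_le_rpow_of_exponent_le hB ?_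
        push_cast
        linarith
      push_cast at h8
      linarith
    refine le_trans ?_ (mo_ge_sqf hN h.ne hsq dvd_rfl fun p hp _ h1 => ?_)
    · have h1 : (N : ℝ) = s0 * (M1 : ℝ) ^ 2 := by
        rw [← hN, hML1]
        push_cast
        ring
      have h2 : (N : ℝ) ≤ s0 * B ^ (4 * ε) := by
        rw [h1]
        exact mul_le_mul_of_nonneg_left hM1 (Nat.cast_nonneg _)
      have h3 : B ^ ((k : ℝ) - ε) < s0 * B ^ (4 * ε) := h.low.trans_le h2
      have h6 : B ^ ((k : ℝ) - ε) = B ^ ((k : ℝ) - 5 * ε) * B ^ (4 * ε) := by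
        rw [← Real.rpow_add hB0]
        congr 1
        ring
      rw [h6] at h3
      have h5 : B ^ ((k : ℝ) - 5 * ε) < s0 := lt_of_mul_lt_mul_right h3 (by positivity)
      have h7 : ((k : ℝ) - 5 * ε) * Real.log B ≤ Real.log s0 := by
        rw [← Real.log_rpow hB0]
        exact Real.log_le_log (by positivity) h5.le
      linarith
    · rw [hML1] at h1
      exact hp.one_lt.ne' (Nat.dvd_one.1 h1)

end str

end Pool.Agent.D0H41.OC
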