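import Mathlib
import Pool.Agent.D0H41.OC.Orb

/-! # The weighted sums at almost all points, for one component -/

set_option autoImplicit false

namespace Pool.Agent.D0H41.OC

open MvPolynomial Pool.Agent.TH910.Voj Pool.Agent.H813R3.Voj Pool.Agent.N445.VW
open Pool.Agent.N445.DF NumberField

/-- the weight for the index `e` -/
noncomputable def ow (α : ℝ) (e k : ℕ) : ℝ :=
  if (k : ℝ) < 3 * α then (1 - 1 / (e : ℝ)) * k
  else if e.Prime ∧ (k : ℝ) < (e + 1) * α then (1 - 1 / (e : ℝ)) * wgt α k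
  else max ((1 - 1 / (e : ℝ)) * α) (wgt α k - k / e)

/-- the weight for the primes which divide the value once -/
noncomputable def mw (α : ℝ) (k : ℕ) : ℝ :=
  if (k : ℝ) < 3 * α then k else if (k : ℝ) < 5 * α then α else 0

theorem alpha_ge {n : ℕ} {F : MvPolynomial (Fin (n + 1)) ℤ} {α : ℝ} (h : HasAlpha F α) :
    1 ≤ α := by
  rcases h with rfl | ⟨m, hm, -, rfl⟩
  · have : (0 : ℝ) ≤ 1 / (n : ℝ) := by positivity
    linarith
  · exact_mod_cast hm

theorem rad_alpha {n : ℕ} (hn : 2 ≤ n) (F : MvPolynomial (Fin (n + 1)) ℤ) {k : ℕ}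
    (hk : F.IsHomogeneous k) (hirr : Irreducible (toQ F)) (α : ℝ)
    (hα : HasAlpha F α) (η : ℝ) (hη : 0 < η) :
    Sparse (n + 1) (fun B x => (∃ c : Fin (n + 1) → ℤ, ∑ i, c i * x i = 1) ∧ eval x F ≠ 0 ∧
      (rd (eval x F).natAbs : ℝ) ≤ (B : ℝ) ^ (wgt α k - η)) := by
  refine rad_comp hn F hk hirr (wgt α k) ?_ η hη
  rcases hα with rfl | ⟨m, -, hm, rfl⟩
  · exact Or.inl le_rfl
  · exact Or.inr ⟨m, hm, le_rfl⟩

theorem eventually_ge (t : ℝ) (ht : 0 < t) (C : ℝ) : ∃ B₀ : ℕ, ∀ B : ℕ, B₀ ≤ B →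
    C ≤ (B : ℝ) ^ t := by
  have h1 : Filter.Tendsto (fun B : ℕ => (B : ℝ) ^ t) Filter.atTop Filter.atTop :=
    (tendsto_rpow_atTop ht).comp tendsto_natCast_atTop_atTop
  exact Filter.eventually_atTop.mp (h1.eventually_ge_atTop C)

theorem coef_le_one (e : ℕ) (he : 1 ≤ e) : 0 ≤ 1 - 1 / (e : ℝ) ∧ 1 - 1 / (e : ℝ) ≤ 1 := by
  have he0 : (1 : ℝ) ≤ e := by exact_mod_cast he
  constructor
  · rw [sub_nonneg, div_le_one (by linarith)]
    exact he0
  · have : 0 ≤ 1 / (e : ℝ) := by positivity
    linarith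

/-- the bound by the radical -/
theorem orb_rad {n : ℕ} (hn : 2 ≤ n) (F : MvPolynomial (Fin (n + 1)) ℤ) {k : ℕ}
    (hk : F.IsHomogeneous k) (hirr : Irreducible (toQ F)) (α : ℝ)
    (hα : HasAlpha F α) (e : ℕ) (he : 1 ≤ e) (η : ℝ) (hη : 0 < η) :
    Sparse (n + 1) (fun B x => (∃ c : Fin (n + 1) → ℤ, ∑ i, c i * x i = 1) ∧ eval x F ≠ 0 ∧
      dd e (eval x F).natAbs < (wgt α k - k / e - η) * Real.log B) := by
  have hrad := rad_alpha hn F hk hirr α hα (η / 4) (by positivity)
  obtain ⟨c, hc1, hc⟩ := exists_eval_bound F hk.totalDegree_le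
  obtain ⟨B₀, hB₀⟩ := eventually_ge (η / 4) (by positivity) (c : ℝ)
  refine hrad.of_eventually B₀ ?_
  rintro B x hBB hB hx ⟨hprim, hne, hlt⟩
  refine ⟨hprim, hne, ?_⟩
  by_contra hcon
  push Not at hcon
  have hBr : (1 : ℝ) ≤ B := by exact_mod_cast hB
  have hB0 : (0 : ℝ) < B := by linarith
  have hlB : 0 ≤ Real.log B := Real.log_nonneg hBr
  have he0 : (1 : ℝ) ≤ e := by exact_mod_cast he
  have hN0 : (0 : ℝ) < ((eval x F).natAbs : ℝ) := by
    exact_mod_cast Nat.pos_of_ne_zero (Int.natAbs_ne_zero.2 hne)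
  have h1 : (wgt α k - η / 4) * Real.log B ≤ Real.log (rd (eval x F).natAbs) := by
    rw [← Real.log_rpow hB0]
    exact Real.log_le_log (by positivity) hcon.le
  have h2 : Real.log ((eval x F).natAbs : ℝ) ≤ ((k : ℝ) + η / 4) * Real.log B := by
    rw [← Real.log_rpow hB0]
    refine Real.log_le_log hN0 ?_
    have h3 : (((eval x F).natAbs : ℕ) : ℝ) ≤ c * (B : ℝ) ^ k := by exact_mod_cast hc B hB x hx
    refine h3.trans ?_
    rw [add_comm, Real.rpow_add hB0, Real.rpow_natCast]
    exact mul_le_mul_of_nonneg_right (hB₀ B hBB) (by positivity)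
  have h3 := dd_ge_rad e (eval x F).natAbs he
  have h4 : Real.log ((eval x F).natAbs : ℝ) / e ≤ ((k : ℝ) / e + η / 4) * Real.log B := by
    rw [div_le_iff₀ (by linarith)]
    refine h2.trans ?_
    have h5 : ((k : ℝ) / e + η / 4) * Real.log B * e =
        (k : ℝ) * Real.log B + η / 4 * Real.log B * e := by
      field_simp
    rw [h5]
    have h6 : η / 4 * Real.log B * 1 ≤ η / 4 * Real.log B * e :=
      mul_le_mul_of_nonneg_left he0 (by positivity)
    linarith
  have h5 : (wgt α k - k / e - η) * Real.log B ≤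
      (wgt α k - η / 4) * Real.log B - ((k : ℝ) / e + η / 4) * Real.log B := by
    have : 0 ≤ η / 2 * Real.log B := by positivity
    linarith
  linarith

/-- **The weighted sum at almost all points.** -/
theorem orb_comp {n : ℕ} (hn : 2 ≤ n) (F : MvPolynomial (Fin (n + 1)) ℤ) {k : ℕ}
    (hk : F.IsHomogeneous k) (hirr : Irreducible (toQ F)) (α : ℝ)
    (hα : HasAlpha F α) (e : ℕ) (he : 1 ≤ e) (η : ℝ) (hη : 0 < η) :
    Sparse (n + 1) (fun B x => (∃ c : Fin (n + 1) → ℤ, ∑ i, c i * x i = 1) ∧ eval x F ≠ 0 ∧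
      dd e (eval x F).natAbs < (ow α e k - η) * Real.log B) := by
  have hA := orb_rad hn F hk hirr α hα e he η hη
  have hα1 := alpha_ge hα
  have he0 : (1 : ℝ) ≤ e := by exact_mod_cast he
  obtain ⟨hco0, hco1⟩ := coef_le_one e he
  unfold ow
  by_cases h1 : (k : ℝ) < 3 * α
  · rw [if_pos h1]
    have h2 : (1 - 1 / (e : ℝ)) * k = wgt α k - k / e := by
      unfold wgt
      rw [if_pos h1]
      ring
    rw [h2]
    exact hA
  rw [if_neg h1]
  have hk3 : 3 ≤ k := by
    have : (3 : ℝ) ≤ k := by linarith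
    exact_mod_cast this
  obtain ⟨hα2, hstr⟩ := str_comp hn F hk (by omega) hirr α hα
  by_cases h2 : e.Prime ∧ (k : ℝ) < (e + 1) * α
  · rw [if_pos h2]
    obtain ⟨hep, hke⟩ := h2
    obtain ⟨γ, ε, hγ0, hγ, hε0, hε, hS⟩ := hstr
      (min (min (α - 1) (1 / 8)) (((e + 1) * α - k) / (e + 2))) (min (η / 8) (1 / 8))
      (lt_min (lt_min (by linarith) (by norm_num)) (div_pos (by linarith) (by positivity)))
      (lt_min (by positivity) (by norm_num))
    have g1 : γ ≤ α - 1 := (hγ.trans (min_le_left _ _)).trans (min_le_left _ _)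
    have g2 : γ ≤ 1 / 8 := (hγ.trans (min_le_left _ _)).trans (min_le_right _ _)
    have g3 : γ ≤ ((e + 1) * α - k) / (e + 2) := hγ.trans (min_le_right _ _)
    have g4 : ε ≤ η / 8 := hε.trans (min_le_left _ _)
    have g5 : ε ≤ 1 / 8 := hε.trans (min_le_right _ _)
    rw [le_div_iff₀ (by positivity)] at g3
    refine (hS.or (rad_alpha hn F hk hirr α hα (η / 4) (by positivity))).mono ?_
    rintro B x hB hx ⟨hprim, hne, hlt⟩
    by_contra hcon
    rw [not_or] at hcon
    obtain ⟨c1, c2⟩ := hcon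
    have hStr : Str (B : ℝ) k (α - γ) γ ε (eval x F).natAbs := by
      by_contra h
      exact c1 ⟨hprim, hne, h⟩
    have hrad : (B : ℝ) ^ (wgt α k - η / 4) < rd (eval x F).natAbs := by
      by_contra h
      push Not at h
      exact c2 ⟨hprim, hne, h⟩
    have hBr : (1 : ℝ) ≤ B := by exact_mod_cast hB
    have hB0 : (0 : ℝ) < B := by linarith
    have hlB : 0 ≤ Real.log B := Real.log_nonneg hBr
    have b1 := dd_ge_prime hStr hBr (by linarith) (by linarith) (by linarith) e hep (by nlinarith)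
    have b2 : (wgt α k - η / 4) * Real.log B ≤ Real.log (rd (eval x F).natAbs) := by
      rw [← Real.log_rpow hB0]
      exact Real.log_le_log (by positivity) hrad.le
    have b3 : (wgt α k - η / 2) * Real.log B ≤
        Real.log (rd (eval x F).natAbs) - 2 * ε * Real.log B := by
      have : ε * Real.log B ≤ η / 8 * Real.log B := mul_le_mul_of_nonneg_right g4 hlB
      linarith
    have b4 := mul_le_mul_of_nonneg_left b3 hco0
    have b5 : ((1 - 1 / (e : ℝ)) * wgt α k - η) * Real.log B ≤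
        (1 - 1 / (e : ℝ)) * ((wgt α k - η / 2) * Real.log B) := by
      have b6 : (1 - 1 / (e : ℝ)) * (η / 2 * Real.log B) ≤ 1 * (η / 2 * Real.log B) :=
        mul_le_mul_of_nonneg_right hco1 (by positivity)
      have : 0 ≤ η / 2 * Real.log B := by positivity
      linarith
    linarith
  · rw [if_neg h2]
    obtain ⟨γ, ε, hγ0, hγ, hε0, hε, hS⟩ := hstr
      (min (min (α - 1) (1 / 8)) (η / 4)) (min (η / 8) (1 / 8))
      (lt_min (lt_min (by linarith) (by norm_num)) (by positivity))
      (lt_min (by positivity) (by norm_num))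
    have g1 : γ ≤ α - 1 := (hγ.trans (min_le_left _ _)).trans (min_le_left _ _)
    have g2 : γ ≤ 1 / 8 := (hγ.trans (min_le_left _ _)).trans (min_le_right _ _)
    have g3 : γ ≤ η / 4 := hγ.trans (min_le_right _ _)
    have g4 : ε ≤ η / 8 := hε.trans (min_le_left _ _)
    have g5 : ε ≤ 1 / 8 := hε.trans (min_le_right _ _)
    refine (hS.or hA).mono ?_
    rintro B x hB hx ⟨hprim, hne, hlt⟩
    by_contra hcon
    rw [not_or] at hcon
    obtain ⟨c1, c2⟩ := hcon
    have hStr : Str (B : ℝ) k (α - γ) γ ε (eval x F).natAbs := by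
      by_contra h
      exact c1 ⟨hprim, hne, h⟩
    have hrad : (wgt α k - k / e - η) * Real.log B ≤ dd e (eval x F).natAbs := by
      by_contra h
      push Not at h
      exact c2 ⟨hprim, hne, h⟩
    have hBr : (1 : ℝ) ≤ B := by exact_mod_cast hB
    have hB0 : (0 : ℝ) < B := by linarith
    have hlB : 0 ≤ Real.log B := Real.log_nonneg hBr
    have b1 := dd_ge_alpha hStr hBr (by linarith) (by linarith) hε0.le (by linarith) e he
    have b2 : ((1 - 1 / (e : ℝ)) * α - η) * Real.log B ≤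
        (1 - 1 / (e : ℝ)) * ((α - γ - 2 * ε) * Real.log B) := by
      have b3 : (γ + 2 * ε) * Real.log B ≤ η / 2 * Real.log B :=
        mul_le_mul_of_nonneg_right (by linarith) hlB
      have b4 := mul_le_mul_of_nonneg_left b3 hco0
      have b6 : (1 - 1 / (e : ℝ)) * (η / 2 * Real.log B) ≤ 1 * (η / 2 * Real.log B) :=
        mul_le_mul_of_nonneg_right hco1 (by positivity)
      have : 0 ≤ η / 2 * Real.log B := by positivity
      linarith
    have b3 : ((1 - 1 / (e : ℝ)) * α - η) * Real.log B ≤ dd e (eval x F).natAbs := b2.trans b1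
    rcases le_total ((1 - 1 / (e : ℝ)) * α) (wgt α k - k / e) with h | h
    · rw [max_eq_right h] at hlt
      linarith
    · rw [max_eq_left h] at hlt
      linarith

theorem mo_nonneg (N : ℕ) : 0 ≤ mo N := Finset.sum_nonneg fun p _ => Real.log_natCast_nonneg p

/-- **The primes which divide the value once, at almost all points.** -/
theorem mo_comp {n : ℕ} (hn : 2 ≤ n) (F : MvPolynomial (Fin (n + 1)) ℤ) {k : ℕ}
    (hk : F.IsHomogeneous k) (hirr : Irreducible (toQ F)) (α : ℝ)
    (hα : HasAlpha F α) (η : ℝ) (hη : 0 < η) :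
    Sparse (n + 1) (fun B x => (∃ c : Fin (n + 1) → ℤ, ∑ i, c i * x i = 1) ∧ eval x F ≠ 0 ∧
      mo (eval x F).natAbs < (mw α k - η) * Real.log B) := by
  have hα1 := alpha_ge hα
  unfold mw
  by_cases h1 : (k : ℝ) < 3 * α
  · rw [if_pos h1]
    -- twice the radical
    have hrad := rad_alpha hn F hk hirr α hα (η / 4) (by positivity)
    obtain ⟨c, hc1, hc⟩ := exists_eval_bound F hk.totalDegree_le
    obtain ⟨B₀, hB₀⟩ := eventually_ge (η / 4) (by positivity) (c : ℝ)
    refine hrad.of_eventually B₀ ?_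
    rintro B x hBB hB hx ⟨hprim, hne, hlt⟩
    refine ⟨hprim, hne, ?_⟩
    by_contra hcon
    push Not at hcon
    have hw : wgt α k = k := by
      unfold wgt
      rw [if_pos h1]
    rw [hw] at hcon
    have hBr : (1 : ℝ) ≤ B := by exact_mod_cast hB
    have hB0 : (0 : ℝ) < B := by linarith
    have hlB : 0 ≤ Real.log B := Real.log_nonneg hBr
    obtain ⟨N, hN⟩ : ∃ N, N = (eval x F).natAbs := ⟨_, rfl⟩
    have hN0 : N ≠ 0 := by rw [hN]; exact Int.natAbs_ne_zero.2 hne
    have hN0' : (0 : ℝ) < (N : ℝ) := by exact_mod_cast Nat.pos_of_ne_zero hN0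
    rw [← hN] at hcon hlt
    have a1 : ((k : ℝ) - η / 4) * Real.log B ≤ Real.log (rd N) := by
      rw [← Real.log_rpow hB0]
      exact Real.log_le_log (by positivity) hcon.le
    have a2 : Real.log (N : ℝ) ≤ ((k : ℝ) + η / 4) * Real.log B := by
      rw [← Real.log_rpow hB0]
      refine Real.log_le_log hN0' ?_
      have h3 : (N : ℝ) ≤ c * (B : ℝ) ^ k := by rw [hN]; exact_mod_cast hc B hB x hx
      refine h3.trans ?_
      rw [add_comm, Real.rpow_add hB0, Real.rpow_natCast]
      exact mul_le_mul_of_nonneg_right (hB₀ B hBB) (by positivity)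
    have a3 : 2 * Real.log (rd N) - Real.log N ≤ mo N := by
      have h1 : Real.log N = ∑ p ∈ N.primeFactors, (N.factorization p : ℝ) * Real.log p := by
        rw [Real.log_nat_eq_sum_factorization, Finsupp.sum, Nat.support_factorization]
      rw [log_rd, h1, Finset.mul_sum, ← Finset.sum_sub_distrib]
      unfold mo
      rw [Finset.sum_filter]
      refine Finset.sum_le_sum fun p hp => ?_
      have h2 : N.factorization p ≠ 0 := by
        have := Nat.support_factorization N ▸ hp
        exact Finsupp.mem_support_iff.1 this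
      have h5 := Real.log_natCast_nonneg p
      split_ifs with h3
      · rw [h3]
        push_cast
        linarith
      · have h4 : (2 : ℝ) ≤ N.factorization p := by
          exact_mod_cast (by omega : 2 ≤ N.factorization p)
        have := mul_le_mul_of_nonneg_right h4 h5
        linarith
    have a4 : 0 ≤ η / 4 * Real.log B := by positivity
    linarith
  rw [if_neg h1]
  by_cases h2 : (k : ℝ) < 5 * α
  · rw [if_pos h2]
    have hk3 : 3 ≤ k := by
      have : (3 : ℝ) ≤ k := by linarith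
      exact_mod_cast this
    obtain ⟨hα2, hstr⟩ := str_comp hn F hk (by omega) hirr α hα
    obtain ⟨γ, ε, hγ0, hγ, hε0, hε, hS⟩ := hstr
      (min (min (min (α - 1) (1 / 8)) (η / 4)) ((5 * α - k) / 6)) (min (η / 8) (1 / 8))
      (lt_min (lt_min (lt_min (by linarith) (by norm_num)) (by positivity)) (by linarith))
      (lt_min (by positivity) (by norm_num))
    have g0 : γ ≤ (5 * α - k) / 6 := hγ.trans (min_le_right _ _)
    have g1 : γ ≤ α - 1 := ((hγ.trans (min_le_left _ _)).trans (min_le_left _ _)).trans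
      (min_le_left _ _)
    have g2 : γ ≤ 1 / 8 := ((hγ.trans (min_le_left _ _)).trans (min_le_left _ _)).trans
      (min_le_right _ _)
    have g3 : γ ≤ η / 4 := (hγ.trans (min_le_left _ _)).trans (min_le_right _ _)
    have g4 : ε ≤ η / 8 := hε.trans (min_le_left _ _)
    have g5 : ε ≤ 1 / 8 := hε.trans (min_le_right _ _)
    refine hS.mono ?_
    rintro B x hB hx ⟨hprim, hne, hlt⟩
    refine ⟨hprim, hne, fun hStr => ?_⟩
    have hBr : (1 : ℝ) ≤ B := by exact_mod_cast hB
    have hlB : 0 ≤ Real.log B := Real.log_nonneg hBr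
    have b1 := (mo_ge hStr hBr (by linarith) (by linarith) (by linarith) (by linarith)).1
    have b3 : (γ + 2 * ε) * Real.log B ≤ η * Real.log B :=
      mul_le_mul_of_nonneg_right (by linarith) hlB
    linarith
  · rw [if_neg h2]
    refine (Sparse.false (n + 1)).mono ?_
    rintro B x hB hx ⟨hprim, hne, hlt⟩
    have hBr : (1 : ℝ) ≤ B := by exact_mod_cast hB
    have hlB : 0 ≤ Real.log B := Real.log_nonneg hBr
    have := mo_nonneg (eval x F).natAbs
    have : 0 ≤ η * Real.log B := by positivity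
    linarith

end Pool.Agent.D0H41.OC
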