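import Mathlib
import Pool.Agent.TH910.Voj.Norm
import Pool.Agent.TH910.Voj.Ram
import Pool.Agent.TH910.Voj.Model

/-!
# A normal finite algebra at a prime divisor of the base: all prime divisors above it

Adapted from `Pool/Agent/N61/AC/Loc.lean` (helper61).
-/

set_option autoImplicit false

namespace Pool.Agent.D0H41.OC

open IsLocalRing Pool.Agent.TH910.Voj

/-- the ramification index of the prime ideal `𝔮` above `F` is `e` -/
def RamIdx {R A : Type} [CommRing R] [CommRing A] [Algebra R A] (F : R) (𝔮 : Ideal A) (e : ℕ) :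
    Prop :=
  ∃ π ∈ 𝔮, (∀ y ∈ 𝔮, ∃ s, s ∉ 𝔮 ∧ ∃ b, s * y = b * π) ∧
    ∃ s s', s ∉ 𝔮 ∧ s' ∉ 𝔮 ∧ s * algebraMap R A F = s' * π ^ e

/-- the residue degree of the prime ideal `𝔮` above `F` is at most `d` -/
def ResDeg {R A : Type} [CommRing R] [CommRing A] [Algebra R A] (F : R) (𝔮 : Ideal A) (d : ℕ) :
    Prop :=
  ∃ g : R, ¬ F ∣ g ∧ ∃ a : Fin d → A, ∀ b : A, ∃ ρ : Fin d → R,
    algebraMap R A g * b - ∑ l, algebraMap R A (ρ l) * a l ∈ 𝔮

/-- an element with given prime divisors and multiplicities -/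
theorem eq_prod_of_mult {S : Type} [CommRing S] [IsDomain S] [IsPrincipalIdealRing S] {q : ℕ}
    (a : S) (ha : a ≠ 0) (π : Fin q → S) (hπ : ∀ c, Prime (π c))
    (hd : ∀ c c', c ≠ c' → ¬ π c ∣ π c') (e : Fin q → ℕ) (he : ∀ c, multiplicity (π c) a = e c)
    (hall : ∀ ρ : S, Prime ρ → ρ ∣ a → ∃ c, π c ∣ ρ) :
    ∃ u : S, IsUnit u ∧ a = u * ∏ c, π c ^ e c := by
  classical
  have hdvd : ∏ c, π c ^ e c ∣ a := by
    refine Finset.prod_dvd_of_coprime ?_ fun c _ => ?_
    · intro c _ c' _ hcc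
      refine IsCoprime.pow ?_
      exact (hπ c).coprime_iff_not_dvd.2 (hd c c' hcc)
    · rw [← he c]
      exact pow_multiplicity_dvd _ _
  obtain ⟨b, hb⟩ := hdvd
  have hb0 : b ≠ 0 := by
    rintro rfl
    rw [mul_zero] at hb
    exact ha hb
  refine ⟨b, ?_, by rw [hb]; ring⟩
  by_contra hu
  obtain ⟨ρ, hρ, hρb⟩ := WfDvdMonoid.exists_irreducible_factor hu hb0
  obtain ⟨c, hc⟩ := hall ρ hρ.prime (hb ▸ Dvd.dvd.mul_left hρb _)
  have h1 : π c ^ (e c + 1) ∣ a := by
    rw [hb, pow_succ]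
    exact mul_dvd_mul (Finset.dvd_prod_of_mem (fun c => π c ^ e c) (Finset.mem_univ c))
      (hc.trans hρb)
  have h2 := (FiniteMultiplicity.of_prime_left (hπ c) ha).le_multiplicity_of_pow_dvd h1
  rw [he c] at h2
  omega

/-- **All prime divisors above a prime divisor of the base.** -/
theorem local_data2 {R A : Type} [CommRing R] [IsDomain R] [IsNoetherianRing R] [CommRing A]
    [IsDomain A] [IsIntegrallyClosed A] [Algebra R A] [Module.Finite R A] [FaithfulSMul R A]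
    (F : R) (hF : Prime F) (Y : Finset A) (N : ℕ) (hN : Module.finrank R A = N) {q : ℕ}
    (𝔮 : Fin q → Ideal A) (h𝔮 : ∀ c, (𝔮 c).IsPrime)
    (hover : ∀ c, (𝔮 c).comap (algebraMap R A) = Ideal.span {F}) (hinj𝔮 : Function.Injective 𝔮)
    (hall : ∀ 𝔭 : Ideal A, 𝔭.IsPrime → 𝔭.comap (algebraMap R A) = Ideal.span {F} → ∃ c, 𝔭 = 𝔮 c)
    (e d : Fin q → ℕ) (he : ∀ c, RamIdx F (𝔮 c) (e c)) (hd : ∀ c, ResDeg F (𝔮 c) (d c)) :
    ∃ (ζ : Fin q → A) (g g₁ : R) (u u' : A) (ω : Fin N → A) (M : Fin q → Matrix (Fin N) (Fin N) R),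
      ¬ F ∣ g ∧ g₁ ∣ g ∧ algebraMap R A (g₁ * F) = u * ∏ c, ζ c ^ e c ∧
      algebraMap R A g = u * u' ∧
      (∀ c c', c ≠ c' → ∃ a b, a * ζ c + b * ζ c' = algebraMap R A g) ∧
      (∀ c i, algebraMap R A g * ζ c * ω i = ∑ j, algebraMap R A (M c i j) * ω j) ∧
      (∀ c, ¬ F ^ (d c + 1) ∣ (M c).det) ∧
      (∀ a, ∃ r : Fin N → R, algebraMap R A g * a = ∑ i, algebraMap R A (r i) * ω i) ∧
      ∀ c, ∀ y ∈ Y, y ∈ 𝔮 c → ζ c ∣ algebraMap R A g * y := by
  classical
  have hP : (Ideal.span {F}).IsPrime := (Ideal.span_singleton_prime hF.ne_zero).mpr hF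
  set p : Ideal R := Ideal.span {F} with hp
  have hmemp : ∀ r : R, r ∈ p.primeCompl ↔ ¬ F ∣ r := fun r => by
    rw [Ideal.mem_primeCompl_iff, hp, Ideal.mem_span_singleton]
  have hmemp' : ∀ r : R, r ∈ p ↔ F ∣ r := fun r => Ideal.mem_span_singleton
  let Rₚ := Localization.AtPrime p
  let Sₚ := Localization (Algebra.algebraMapSubmonoid A p.primeCompl)
  let _ : Algebra Rₚ Sₚ := localizationAlgebra p.primeCompl A
  have : IsScalarTower R Rₚ Sₚ := IsScalarTower.of_algebraMap_eq'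
    (by rw [RingHom.algebraMap_toAlgebra, IsLocalization.map_comp, ← IsScalarTower.algebraMap_eq])
  have : IsLocalization (Submonoid.map (algebraMap R A) (Ideal.primeCompl p)) Sₚ :=
    inferInstanceAs (IsLocalization (Algebra.algebraMapSubmonoid A p.primeCompl) Sₚ)
  have e0 : Algebra.algebraMapSubmonoid A p.primeCompl ≤ nonZeroDivisors A :=
    Submonoid.map_le_of_le_comap _ <| p.primeCompl_le_nonZeroDivisors.trans
      (nonZeroDivisors_le_comap_nonZeroDivisors_of_injective _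
        (FaithfulSMul.algebraMap_injective _ _))
  have : IsDomain Sₚ := IsLocalization.isDomain_of_le_nonZeroDivisors _ e0
  have hinjS : Function.Injective (algebraMap A Sₚ) := IsLocalization.injective _ e0
  have hinjR : Function.Injective (algebraMap R Rₚ) :=
    IsLocalization.injective _ p.primeCompl_le_nonZeroDivisors
  have hinjRS : Function.Injective (algebraMap Rₚ Sₚ) :=
    localizationAlgebra_injective (R := R) (S := A) (Rₘ := Rₚ) (Sₘ := Sₚ) (M := p.primeCompl)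
      (FaithfulSMul.algebraMap_injective R A)
  have htf : Module.IsTorsionFree Rₚ Sₚ := by
    rw [Module.isTorsionFree_iff_algebraMap_injective]
    exact hinjRS
  have : Module.Finite Rₚ Sₚ := .of_isLocalization R A p.primeCompl
  have : IsIntegrallyClosed Sₚ := isIntegrallyClosed_of_isLocalization _ _ e0
  have hNoeR : IsNoetherianRing Rₚ := IsLocalization.isNoetherianRing p.primeCompl _ inferInstance
  have hmax : maximalIdeal Rₚ = Ideal.span {algebraMap R Rₚ F} := by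
    rw [← Localization.AtPrime.map_eq_maximalIdeal]
    change Ideal.map (algebraMap R Rₚ) (Ideal.span {F}) = _
    rw [Ideal.map_span, Set.image_singleton]
  have hprin : (maximalIdeal Rₚ).IsPrincipal := ⟨⟨algebraMap R Rₚ F, hmax⟩⟩
  have hPID : IsPrincipalIdealRing Rₚ :=
    ((tfae_of_isNoetherianRing_of_isLocalRing_of_isDomain Rₚ).out 4 0).mp hprin
  have hfree : Module.Free Rₚ Sₚ := Module.free_of_finite_type_torsion_free'
  have hNoeS : IsNoetherianRing Sₚ := by
    have h1 : IsNoetherian Rₚ Sₚ := isNoetherian_of_isNoetherianRing_of_finite _ _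
    exact isNoetherian_of_tower Rₚ h1
  have hint : Algebra.IsIntegral Rₚ Sₚ := inferInstance
  have hdim : Ring.DimensionLEOne Sₚ := Ring.DimensionLEOne.of_isIntegral Rₚ Sₚ
  have hDed : IsDedekindDomain Sₚ := { }
  have hPIDS : IsPrincipalIdealRing Sₚ := by
    refine IsPrincipalIdealRing.of_finite_maximals
      ((primesOver_finite (A := Sₚ) (algebraMap R Rₚ F)).subset ?_)
    intro 𝔪 h𝔪
    have h𝔪' : 𝔪.IsMaximal := h𝔪
    refine ⟨h𝔪'.isPrime, ?_⟩
    have h1 : (𝔪.comap (algebraMap Rₚ Sₚ)).IsMaximal :=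
      Ideal.isMaximal_comap_of_isIntegral_of_isMaximal 𝔪
    rw [← hmax]
    exact IsLocalRing.eq_maximalIdeal h1
  -- the rank
  have hfin : Module.finrank Rₚ Sₚ = N := by
    have h1 : Module.finrank Rₚ Sₚ = Module.finrank R Sₚ :=
      IsLocalization.finrank_eq Rₚ p.primeCompl p.primeCompl_le_nonZeroDivisors
    have h2 : IsLocalizedModule p.primeCompl (IsScalarTower.toAlgHom R A Sₚ).toLinearMap :=
      isLocalizedModule_iff_isLocalization.mpr inferInstance
    have h3 : Module.finrank R Sₚ = Module.finrank R A :=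
      IsLocalizedModule.finrank_eq p.primeCompl (IsScalarTower.toAlgHom R A Sₚ).toLinearMap
        p.primeCompl_le_nonZeroDivisors
    rw [h1, h3, hN]
  have hunitR : ∀ g : R, ¬ F ∣ g → IsUnit (algebraMap R Rₚ g) := fun g hg =>
    IsLocalization.map_units Rₚ (⟨g, (hmemp g).mpr hg⟩ : p.primeCompl)
  have htower : ∀ r : R, algebraMap A Sₚ (algebraMap R A r) =
      algebraMap Rₚ Sₚ (algebraMap R Rₚ r) := fun r => by
    rw [← IsScalarTower.algebraMap_apply R A Sₚ, ← IsScalarTower.algebraMap_apply R Rₚ Sₚ]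
  have hunitS : ∀ g : R, ¬ F ∣ g → IsUnit (algebraMap A Sₚ (algebraMap R A g)) := fun g hg => by
    rw [htower]
    exact (hunitR g hg).map _
  have hsurjS : ∀ d : Sₚ, ∃ a : A, ∃ g : R, ¬ F ∣ g ∧
      algebraMap A Sₚ (algebraMap R A g) * d = algebraMap A Sₚ a := by
    intro d
    obtain ⟨⟨a, ⟨t, ht⟩⟩, h⟩ := IsLocalization.surj
      (Algebra.algebraMapSubmonoid A p.primeCompl) d
    obtain ⟨g, hg, rfl⟩ := ht
    refine ⟨a, g, (hmemp g).mp hg, ?_⟩
    rw [mul_comm]
    exact h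
  have hnd : ∀ {a b : R}, ¬ F ∣ a → ¬ F ∣ b → ¬ F ∣ a * b := fun ha hb h =>
    (hF.dvd_or_dvd h).elim ha hb
  set F' : Sₚ := algebraMap A Sₚ (algebraMap R A F) with hF'
  have hF'0 : F' ≠ 0 := by
    rw [hF', Ne, map_eq_zero_iff _ hinjS, map_eq_zero_iff _ (FaithfulSMul.algebraMap_injective R A)]
    exact hF.ne_zero
  have hF𝔮 : ∀ c, algebraMap R A F ∈ 𝔮 c := by
    intro c
    have : F ∈ (𝔮 c).comap (algebraMap R A) := by
      rw [hover c]
      exact Ideal.mem_span_singleton_self _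
    exact this
  -- the prime elements
  have hloc : ∀ c, ∃ ζ : A, Prime (algebraMap A Sₚ ζ) ∧
      ∀ y : A, y ∈ 𝔮 c ↔ algebraMap A Sₚ ζ ∣ algebraMap A Sₚ y := by
    intro c
    have hdisj : Disjoint (Algebra.algebraMapSubmonoid A p.primeCompl : Set A) (𝔮 c) := by
      rw [Set.disjoint_left]
      rintro t ⟨g, hg, rfl⟩ ht
      have h1 : g ∈ (𝔮 c).comap (algebraMap R A) := ht
      rw [hover c] at h1
      exact hg h1
    have hQp := IsLocalization.isPrime_of_isPrime_disjoint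
      (Algebra.algebraMapSubmonoid A p.primeCompl) Sₚ (𝔮 c) (h𝔮 c) hdisj
    have hQc := IsLocalization.under_map_of_isPrime_disjoint
      (Algebra.algebraMapSubmonoid A p.primeCompl) Sₚ (h𝔮 c) hdisj
    obtain ⟨π₀, hπ₀⟩ := (IsPrincipalIdealRing.principal
      (Ideal.map (algebraMap A Sₚ) (𝔮 c))).principal
    have hπ₀' : Ideal.map (algebraMap A Sₚ) (𝔮 c) = Ideal.span {π₀} := hπ₀
    have hF'Q : F' ∈ Ideal.map (algebraMap A Sₚ) (𝔮 c) := Ideal.mem_map_of_mem _ (hF𝔮 c)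
    have hπ0 : π₀ ≠ 0 := by
      rintro rfl
      rw [hπ₀', Ideal.mem_span_singleton, zero_dvd_iff] at hF'Q
      exact hF'0 hF'Q
    rw [hπ₀'] at hQp
    have hπp : Prime π₀ := (Ideal.span_singleton_prime hπ0).1 hQp
    obtain ⟨ζ, gζ, hgζ, hζ⟩ := hsurjS π₀
    have hass : Associated π₀ (algebraMap A Sₚ ζ) := by
      obtain ⟨u, hu⟩ := hunitS gζ hgζ
      exact ⟨u, by rw [hu, mul_comm]; exact hζ⟩
    refine ⟨ζ, hass.prime hπp, fun y => ?_⟩
    rw [← hass.dvd_iff_dvd_left, ← Ideal.mem_span_singleton, ← hπ₀']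
    constructor
    · intro hy
      exact Ideal.mem_map_of_mem _ hy
    · intro hy
      have h1 : y ∈ (Ideal.map (algebraMap A Sₚ) (𝔮 c)).comap (algebraMap A Sₚ) := hy
      have h2 : (Ideal.map (algebraMap A Sₚ) (𝔮 c)).comap (algebraMap A Sₚ) = 𝔮 c := hQc
      rwa [h2] at h1
  choose ζ hζp hζ using hloc
  have hζself : ∀ c, ζ c ∈ 𝔮 c := fun c => (hζ c _).2 dvd_rfl
  have hdist : ∀ c c', c ≠ c' → ¬ algebraMap A Sₚ (ζ c) ∣ algebraMap A Sₚ (ζ c') := by
    intro c c' hcc hdv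
    have hass : Associated (algebraMap A Sₚ (ζ c)) (algebraMap A Sₚ (ζ c')) :=
      (hζp c).irreducible.associated_of_dvd (hζp c').irreducible hdv
    apply hcc
    apply hinj𝔮
    ext y
    rw [hζ c, hζ c', hass.dvd_iff_dvd_left]
  have hallp : ∀ ρ : Sₚ, Prime ρ → ρ ∣ F' → ∃ c, algebraMap A Sₚ (ζ c) ∣ ρ := by
    intro ρ hρ hρF
    have hρp : (Ideal.span {ρ}).IsPrime := (Ideal.span_singleton_prime hρ.ne_zero).2 hρ
    have hmem : ∀ b : A, b ∈ (Ideal.span {ρ}).comap (algebraMap A Sₚ) ↔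
        ρ ∣ algebraMap A Sₚ b := fun b => by
      rw [Ideal.mem_comap, Ideal.mem_span_singleton]
    obtain ⟨c, hc⟩ := hall ((Ideal.span {ρ}).comap (algebraMap A Sₚ)) (Ideal.comap_isPrime _ _) (by
      ext r
      rw [Ideal.mem_comap, hmem, hmemp']
      constructor
      · intro hr
        by_contra hFr
        exact hρ.not_isUnit (isUnit_of_dvd_unit hr (hunitS r hFr))
      · rintro ⟨s, rfl⟩
        rw [map_mul, map_mul]
        exact Dvd.dvd.mul_right hρF _)
    refine ⟨c, ?_⟩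
    have h1 : ρ ∣ algebraMap A Sₚ (ζ c) := by
      rw [← hmem, hc]
      exact hζself c
    exact (hρ.irreducible.associated_of_dvd (hζp c).irreducible h1).symm.dvd
  have hfinm : ∀ c, ∀ b : Sₚ, b ≠ 0 → FiniteMultiplicity (algebraMap A Sₚ (ζ c)) b :=
    fun c b hb => FiniteMultiplicity.of_prime_left (hζp c) hb
  have hmult : ∀ c, multiplicity (algebraMap A Sₚ (ζ c)) F' = e c := by
    intro c
    obtain ⟨π, hπ𝔮, hπ, s, s', hs, hs', hsF⟩ := he c
    have hπ1 : algebraMap A Sₚ (ζ c) ∣ algebraMap A Sₚ π := (hζ c π).1 hπ𝔮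
    obtain ⟨s₂, hs₂, b, hb⟩ := hπ (ζ c) (hζself c)
    rw [hζ c] at hs hs' hs₂
    have hs0 : algebraMap A Sₚ s ≠ 0 := fun h => hs (h ▸ dvd_zero _)
    have hs0' : algebraMap A Sₚ s' ≠ 0 := fun h => hs' (h ▸ dvd_zero _)
    have hs0₂ : algebraMap A Sₚ s₂ ≠ 0 := fun h => hs₂ (h ▸ dvd_zero _)
    have h1 := congrArg (algebraMap A Sₚ) hsF
    rw [map_mul, map_mul, map_pow] at h1
    have h2 := congrArg (algebraMap A Sₚ) hb
    rw [map_mul, map_mul] at h2
    have hbπ : algebraMap A Sₚ b * algebraMap A Sₚ π ≠ 0 := by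
      rw [← h2]
      exact mul_ne_zero hs0₂ (hζp c).ne_zero
    have hπ0 : algebraMap A Sₚ π ≠ 0 := right_ne_zero_of_mul hbπ
    have hm1 : multiplicity (algebraMap A Sₚ (ζ c)) (algebraMap A Sₚ π) = 1 := by
      have h3 := congrArg (multiplicity (algebraMap A Sₚ (ζ c))) h2
      rw [multiplicity_mul (hζp c) (hfinm c _ (mul_ne_zero hs0₂ (hζp c).ne_zero)),
        multiplicity_mul (hζp c) (hfinm c _ hbπ), multiplicity_eq_zero.2 hs₂] at h3
      have h4 : multiplicity (algebraMap A Sₚ (ζ c)) (algebraMap A Sₚ (ζ c)) = 1 :=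
        multiplicity_self
      have h5 : 1 ≤ multiplicity (algebraMap A Sₚ (ζ c)) (algebraMap A Sₚ π) :=
        (hfinm c _ hπ0).le_multiplicity_of_pow_dvd (by rwa [pow_one])
      omega
    have h3 := congrArg (multiplicity (algebraMap A Sₚ (ζ c))) h1
    rw [multiplicity_mul (hζp c) (hfinm c _ (mul_ne_zero hs0 hF'0)),
      multiplicity_mul (hζp c) (hfinm c _ (mul_ne_zero hs0' (pow_ne_zero _ hπ0))),
      multiplicity_eq_zero.2 hs, multiplicity_eq_zero.2 hs', zero_add, zero_add,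
      FiniteMultiplicity.multiplicity_pow (hζp c) (hfinm c _ hπ0), hm1, mul_one] at h3
    exact h3
  obtain ⟨U, hU, hFU⟩ := eq_prod_of_mult F' hF'0 (fun c => algebraMap A Sₚ (ζ c)) hζp hdist e hmult
    hallp
  -- the unit
  obtain ⟨V, hV⟩ := hU.exists_right_inv
  obtain ⟨a1, g1, hg1, h1⟩ := hsurjS U
  obtain ⟨a2, g2, hg2, h2⟩ := hsurjS V
  have hu1 : algebraMap R A (g1 * g2) = a1 * a2 := by
    apply hinjS
    rw [map_mul, map_mul, map_mul, ← h1, ← h2]
    calc algebraMap A Sₚ (algebraMap R A g1) * algebraMap A Sₚ (algebraMap R A g2) =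
        algebraMap A Sₚ (algebraMap R A g1) * algebraMap A Sₚ (algebraMap R A g2) * (U * V) := by
          rw [hV, mul_one]
      _ = _ := by ring
  have hu2 : algebraMap R A (g1 * F) = a1 * ∏ c, ζ c ^ e c := by
    apply hinjS
    rw [map_mul (algebraMap R A), map_mul (algebraMap A Sₚ), map_mul (algebraMap A Sₚ), map_prod,
      ← h1]
    have h3 : ∏ c, algebraMap A Sₚ (ζ c ^ e c) = ∏ c, algebraMap A Sₚ (ζ c) ^ e c :=
      Finset.prod_congr rfl fun c _ => map_pow _ _ _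
    rw [h3, mul_assoc, ← hFU]
  -- coprimality
  have hcop : ∃ g : R, ¬ F ∣ g ∧ ∀ c c', c ≠ c' → ∃ a b, a * ζ c + b * ζ c' = algebraMap R A g := by
    have h3 : ∀ c c', ∃ g : R, ¬ F ∣ g ∧ (c ≠ c' → ∃ a b, a * ζ c + b * ζ c' = algebraMap R A g) := by
      intro c c'
      by_cases hcc : c = c'
      · exact ⟨1, fun h => hF.not_isUnit (isUnit_of_dvd_one h), fun h => absurd hcc h⟩
      obtain ⟨a, b, hab⟩ := (hζp c).coprime_iff_not_dvd.2 (hdist c c' hcc)
      obtain ⟨a', ga, hga, ha⟩ := hsurjS a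
      obtain ⟨b', gb, hgb, hb⟩ := hsurjS b
      refine ⟨ga * gb, hnd hga hgb, fun _ => ⟨a' * algebraMap R A gb, b' * algebraMap R A ga, ?_⟩⟩
      apply hinjS
      simp only [map_mul, map_add]
      rw [← ha, ← hb]
      linear_combination (algebraMap A Sₚ (algebraMap R A ga)) *
        (algebraMap A Sₚ (algebraMap R A gb)) * hab
    choose gcc hgcc hcc using h3
    refine ⟨∏ c, ∏ c', gcc c c', ?_, ?_⟩
    · intro h
      obtain ⟨c, -, h4⟩ := (hF.dvd_finsetProd_iff _).mp h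
      obtain ⟨c', -, h5⟩ := (hF.dvd_finsetProd_iff _).mp h4
      exact hgcc c c' h5
    · intro c c' hne
      obtain ⟨a, b, hab⟩ := hcc c c' hne
      obtain ⟨s, hs⟩ : gcc c c' ∣ ∏ c, ∏ c', gcc c c' :=
        (Finset.dvd_prod_of_mem (fun c' => gcc c c') (Finset.mem_univ c')).trans
          (Finset.dvd_prod_of_mem (fun c => ∏ c', gcc c c') (Finset.mem_univ c))
      refine ⟨a * algebraMap R A s, b * algebraMap R A s, ?_⟩
      rw [hs, map_mul, ← hab]
      ring
  obtain ⟨gc, hgc, hcop⟩ := hcop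
  -- the equations
  have hY : ∃ g : R, ¬ F ∣ g ∧ ∀ c, ∀ y ∈ Y, y ∈ 𝔮 c → ζ c ∣ algebraMap R A g * y := by
    have h3 : ∀ c (y : A), ∃ g : R, ¬ F ∣ g ∧ (y ∈ 𝔮 c → ζ c ∣ algebraMap R A g * y) := by
      intro c y
      by_cases hy : y ∈ 𝔮 c
      swap
      · exact ⟨1, fun h => hF.not_isUnit (isUnit_of_dvd_one h), fun h => absurd h hy⟩
      obtain ⟨b, hb⟩ := (hζ c y).1 hy
      obtain ⟨b', gb, hgb, hb'⟩ := hsurjS b
      refine ⟨gb, hgb, fun _ => ⟨b', ?_⟩⟩
      apply hinjS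
      rw [map_mul, map_mul, hb, ← hb']
      ring
    choose gy hgy hy using h3
    refine ⟨∏ c, ∏ y ∈ Y, gy c y, ?_, ?_⟩
    · intro h
      obtain ⟨c, -, h4⟩ := (hF.dvd_finsetProd_iff _).mp h
      obtain ⟨y, -, h5⟩ := (hF.dvd_finsetProd_iff _).mp h4
      exact hgy c y h5
    · intro c y hyY hyq
      obtain ⟨s, hs⟩ : gy c y ∣ ∏ c, ∏ y ∈ Y, gy c y :=
        (Finset.dvd_prod_of_mem (fun y => gy c y) hyY).trans
          (Finset.dvd_prod_of_mem (fun c => ∏ y ∈ Y, gy c y) (Finset.mem_univ c))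
      rw [hs, map_mul, mul_comm (algebraMap R A (gy c y)), mul_assoc]
      exact Dvd.dvd.mul_left (hy c y hyq) _
  obtain ⟨gY, hgY, hY⟩ := hY
  -- the norms
  have hnorm : ∀ c, Algebra.norm Rₚ (algebraMap A Sₚ (ζ c)) ∣ (algebraMap R Rₚ F) ^ d c := by
    intro c
    obtain ⟨g₀, hg₀, α, hα⟩ := hd c
    refine norm_dvd_pow (algebraMap R Rₚ F) _ (hζp c).ne_zero (by
      rw [← htower]; exact (hζ c _).1 (hF𝔮 c)) (d c) (fun l => algebraMap A Sₚ (α l)) ?_
    intro b
    obtain ⟨a, g, hg, hga⟩ := hsurjS b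
    obtain ⟨r, hr⟩ := hα a
    have hgg : ¬ F ∣ g₀ * g := hnd hg₀ hg
    have hu := hunitR _ hgg
    obtain ⟨v, hv⟩ := hu.exists_right_inv
    refine ⟨fun l => v * algebraMap R Rₚ (r l), ?_⟩
    have h1 : algebraMap A Sₚ (ζ c) ∣
        algebraMap A Sₚ (algebraMap R A g₀ * a - ∑ l, algebraMap R A (r l) * α l) := (hζ c _).1 hr
    have h4 : algebraMap Rₚ Sₚ (algebraMap R Rₚ (g₀ * g)) * (b - ∑ l, algebraMap Rₚ Sₚ
        (v * algebraMap R Rₚ (r l)) * algebraMap A Sₚ (α l)) =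
        algebraMap A Sₚ (algebraMap R A g₀ * a - ∑ l, algebraMap R A (r l) * α l) := by
      rw [mul_sub, map_sub, map_mul (algebraMap A Sₚ), ← hga, htower, htower, Finset.mul_sum,
        map_sum]
      congr 1
      · rw [map_mul (algebraMap R Rₚ) g₀ g, map_mul (algebraMap Rₚ Sₚ)]
        ring
      · refine Finset.sum_congr rfl fun l _ => ?_
        rw [map_mul (algebraMap A Sₚ), htower, ← mul_assoc, ← map_mul, ← mul_assoc, hv, one_mul]
    rw [← h4] at h1
    exact (((hu.map (algebraMap Rₚ Sₚ)).dvd_mul_left).mp h1)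
  -- a basis
  set B₀ := (Module.finBasis Rₚ Sₚ).reindex (finCongr hfin) with hB₀
  choose ω gω hgω hω using fun i => hsurjS (B₀ i)
  set B := B₀.isUnitSMul (fun i => hunitR (gω i) (hgω i)) with hB
  have hBω : ∀ i, B i = algebraMap A Sₚ (ω i) := by
    intro i
    rw [hB, Module.Basis.isUnitSMul_apply, Algebra.smul_def, ← htower]
    exact hω i
  have hexp : ∀ a : A, ∃ g : R, ¬ F ∣ g ∧ ∃ r : Fin N → R,
      algebraMap R A g * a = ∑ i, algebraMap R A (r i) * ω i := by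
    intro a
    obtain ⟨⟨g, hg⟩, hgi⟩ := IsLocalization.exist_integer_multiples_of_finite p.primeCompl
      (fun i => B.repr (algebraMap A Sₚ a) i)
    choose r hr using hgi
    refine ⟨g, (hmemp g).mp hg, r, hinjS ?_⟩
    rw [map_mul, map_sum, htower]
    have h1 := B.sum_repr (algebraMap A Sₚ a)
    calc algebraMap Rₚ Sₚ (algebraMap R Rₚ g) * algebraMap A Sₚ a
        = algebraMap Rₚ Sₚ (algebraMap R Rₚ g) *
          ∑ i, B.repr (algebraMap A Sₚ a) i • B i := by rw [h1]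
      _ = _ := by
        rw [Finset.mul_sum]
        refine Finset.sum_congr rfl fun i _ => ?_
        have h2 : algebraMap R Rₚ (r i) = algebraMap R Rₚ g * B.repr (algebraMap A Sₚ a) i := by
          rw [hr i]
          exact Algebra.smul_def _ _
        rw [map_mul, htower, h2, hBω i, Algebra.smul_def, ← mul_assoc, ← map_mul]
  obtain ⟨G, hG, hGall⟩ : ∃ G : R, ¬ F ∣ G ∧ ∀ a : A, ∃ r : Fin N → R,
      algebraMap R A G * a = ∑ i, algebraMap R A (r i) * ω i := by
    obtain ⟨T, hT⟩ := (Module.Finite.fg_top : (⊤ : Submodule R A).FG)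
    choose gt hgt rt hrt using hexp
    refine ⟨∏ τ ∈ T, gt τ, ?_, ?_⟩
    · intro h
      obtain ⟨τ, -, hτ⟩ := (hF.dvd_finsetProd_iff _).mp h
      exact hgt τ hτ
    · intro a
      have ha : a ∈ Submodule.span R (T : Set A) := by rw [hT]; trivial
      refine Submodule.span_induction ?_ ?_ ?_ ?_ ha
      · intro τ hτ
        refine ⟨fun i => (∏ τ' ∈ T.erase τ, gt τ') * rt τ i, ?_⟩
        rw [← Finset.mul_prod_erase T gt hτ, map_mul, mul_assoc, mul_comm (algebraMap R A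
          (∏ τ' ∈ T.erase τ, gt τ')) τ, ← mul_assoc, hrt τ, Finset.sum_mul]
        refine Finset.sum_congr rfl fun i _ => ?_
        rw [map_mul]; ring
      · exact ⟨0, by simp⟩
      · rintro x y - - ⟨r, hr⟩ ⟨r', hr'⟩
        refine ⟨r + r', ?_⟩
        rw [mul_add, hr, hr', ← Finset.sum_add_distrib]
        refine Finset.sum_congr rfl fun i _ => ?_
        rw [Pi.add_apply, map_add]; ring
      · rintro c x - ⟨r, hr⟩
        refine ⟨fun i => c * r i, ?_⟩
        rw [Algebra.smul_def, mul_left_comm, hr, Finset.mul_sum]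
        refine Finset.sum_congr rfl fun i _ => ?_
        rw [map_mul]; ring
  -- the final common multiple
  set g := G * (gc * (gY * (g1 * g2))) with hg
  have hgF : ¬ F ∣ g := hnd hG (hnd hgc (hnd hgY (hnd hg1 hg2)))
  have hgall : ∀ a : A, ∃ r : Fin N → R,
      algebraMap R A g * a = ∑ i, algebraMap R A (r i) * ω i := by
    intro a
    obtain ⟨r, hr⟩ := hGall (algebraMap R A (gc * (gY * (g1 * g2))) * a)
    exact ⟨r, by rw [hg, map_mul, mul_assoc, hr]⟩
  choose M hM using fun c i => hgall (ζ c * ω i)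
  refine ⟨ζ, g, g1, a1, a2 * algebraMap R A (G * (gc * gY)), ω, fun c => Matrix.of (M c), hgF,
    ⟨G * gc * gY * g2, by rw [hg]; ring⟩, hu2, ?_, ?_, ?_, ?_, hgall, ?_⟩
  · have h3 : g = (g1 * g2) * (G * (gc * gY)) := by rw [hg]; ring
    rw [h3, map_mul, hu1]
    ring
  · intro c c' hcc
    obtain ⟨a, b, hab⟩ := hcop c c' hcc
    refine ⟨a * algebraMap R A (G * (gY * (g1 * g2))), b * algebraMap R A (G * (gY * (g1 * g2))), ?_⟩
    have h3 : g = gc * (G * (gY * (g1 * g2))) := by rw [hg]; ring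
    rw [h3, map_mul (algebraMap R A) gc, ← hab]
    ring
  · intro c i
    rw [mul_assoc, hM c i]
    rfl
  · intro c hdvd
    have h1 : algebraMap R Rₚ (Matrix.of (M c)).det =
        Algebra.norm Rₚ (algebraMap Rₚ Sₚ (algebraMap R Rₚ g) * algebraMap A Sₚ (ζ c)) := by
      rw [Algebra.norm_eq_matrix_det B, RingHom.map_det, ← Matrix.det_transpose]
      congr 1
      ext i j
      rw [Matrix.transpose_apply, RingHom.mapMatrix_apply, Matrix.map_apply, Matrix.of_apply,
        Algebra.leftMulMatrix_eq_repr_mul, hBω j]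
      have h2 : algebraMap Rₚ Sₚ (algebraMap R Rₚ g) * algebraMap A Sₚ (ζ c) *
          algebraMap A Sₚ (ω j) = ∑ l, algebraMap R Rₚ (M c j l) • B l := by
        have h3 := congrArg (algebraMap A Sₚ) (hM c j)
        rw [map_mul (algebraMap A Sₚ), map_mul (algebraMap A Sₚ), map_sum, htower,
          ← mul_assoc] at h3
        rw [h3]
        refine Finset.sum_congr rfl fun l _ => ?_
        rw [map_mul, htower, hBω l, Algebra.smul_def]
      rw [h2, map_sum, Finsupp.finsetSum_apply, Finset.sum_eq_single i]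
      · rw [map_smul, Module.Basis.repr_self, Finsupp.smul_apply, Finsupp.single_eq_same,
          smul_eq_mul, mul_one]
      · intro l _ hl
        rw [map_smul, Module.Basis.repr_self, Finsupp.smul_apply,
          Finsupp.single_eq_of_ne hl.symm, smul_zero]
      · intro h; exact absurd (Finset.mem_univ _) h
    have h4 := map_dvd (algebraMap R Rₚ) hdvd
    rw [h1, map_mul, Algebra.norm_algebraMap, map_pow] at h4
    have h5 : algebraMap R Rₚ F ^ (d c + 1) ∣ Algebra.norm Rₚ (algebraMap A Sₚ (ζ c)) :=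
      (((hunitR g hgF).pow _).dvd_mul_left).mp h4
    have h6 := h5.trans (hnorm c)
    have hF0 : algebraMap R Rₚ F ≠ 0 := by
      rw [Ne, map_eq_zero_iff _ hinjR]; exact hF.ne_zero
    have hFnu : ¬ IsUnit (algebraMap R Rₚ F) := by
      rw [← mem_nonunits_iff, ← mem_maximalIdeal, hmax]
      exact Ideal.mem_span_singleton_self _
    have h7 : d c + 1 ≤ d c := (pow_dvd_pow_iff hF0 hFnu).mp h6
    omega
  · intro c y hyY hyq
    have h3 : g = gY * (G * (gc * (g1 * g2))) := by rw [hg]; ring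
    rw [h3, map_mul, mul_comm (algebraMap R A gY), mul_assoc]
    exact Dvd.dvd.mul_left (hY c y hyY hyq) _

end Pool.Agent.D0H41.OC
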