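import Mathlib
import Pool.Agent.TH910.Voj.Disc

/-! # The discriminant of the fields generated by roots -/

set_option autoImplicit false

namespace Pool.Agent.D0H41.OC

open NumberField IsDedekindDomain

/-- the absolute logarithmic discriminant -/
noncomputable def ld (L : Type) [Field L] [NumberField L] : ℝ :=
  Real.log |(discr L : ℝ)| / Module.finrank ℚ L

variable {L : Type} [Field L] [NumberField L]

/-- the sum over the ramified primes -/
theorem disc_sum (T : Finset ℕ) (ν : ℕ → ℕ) (hT : ∀ p ∈ T, p.Prime) (hν : ∀ p ∈ T, 1 ≤ ν p)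
    (h : ∀ p ∈ T, ∀ 𝔮 : Ideal (𝓞 L), 𝔮.IsPrime → (p : 𝓞 L) ∈ 𝔮 → (p : 𝓞 L) ∈ 𝔮 ^ ν p) :
    ∑ p ∈ T, (1 - 1 / (ν p : ℝ)) * Real.log p ≤ ld L := by
  classical
  have hn : 0 < Module.finrank ℚ L := Module.finrank_pos
  have hn0 : (0 : ℝ) < Module.finrank ℚ L := by exact_mod_cast hn
  choose! D hD1 hD2 hD3 using fun p (hp : p ∈ T) =>
    Pool.Agent.TH910.Voj.disc_part (K := L) (hT p hp) (hν p hp) (h p hp)
  have hdisc0 : (discr L).natAbs ≠ 0 := Int.natAbs_ne_zero.2 (discr_ne_zero L)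
  have hdvd : ∏ p ∈ T, D p ∣ (discr L).natAbs := by
    refine Finset.prod_dvd_of_isRelPrime ?_ fun p hp => hD2 p hp
    intro p hp q hq hpq
    have h1 : Nat.Coprime (p ^ Module.finrank ℚ L) (q ^ Module.finrank ℚ L) :=
      Nat.Coprime.pow _ _ ((Nat.coprime_primes (hT p hp) (hT q hq)).2 hpq)
    exact Nat.coprime_iff_isRelPrime.1
      ((h1.coprime_dvd_left (hD1 p hp)).coprime_dvd_right (hD1 q hq))
  have hD0 : ∀ p ∈ T, D p ≠ 0 := by
    intro p hp h0
    have h1 := hD2 p hp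
    rw [h0, zero_dvd_iff] at h1
    exact hdisc0 h1
  have h1 : ∑ p ∈ T, Real.log (D p) ≤ Real.log |(discr L : ℝ)| := by
    have h2 : ((∏ p ∈ T, D p : ℕ) : ℝ) ≤ |(discr L : ℝ)| := by
      have h3 := Nat.le_of_dvd (Nat.pos_of_ne_zero hdisc0) hdvd
      have h4 : (((discr L).natAbs : ℕ) : ℝ) = |(discr L : ℝ)| := by
        rw [Nat.cast_natAbs, Int.cast_abs]
      rw [← h4]
      exact_mod_cast h3
    have h3 : (0 : ℝ) < ((∏ p ∈ T, D p : ℕ) : ℝ) := by
      exact_mod_cast Nat.pos_of_ne_zero (Finset.prod_ne_zero_iff.2 hD0)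
    have h4 := Real.log_le_log h3 h2
    refine le_trans (le_of_eq ?_) h4
    push_cast
    rw [Real.log_prod]
    intro p hp
    exact_mod_cast hD0 p hp
  unfold ld
  rw [le_div_iff₀ hn0, Finset.sum_mul]
  refine le_trans (Finset.sum_le_sum fun p hp => ?_) h1
  have hνp : (1 : ℝ) ≤ ν p := by exact_mod_cast hν p hp
  have hp0 : (0 : ℝ) < p := by exact_mod_cast (hT p hp).pos
  have hDp : (0 : ℝ) < D p := by exact_mod_cast Nat.pos_of_ne_zero (hD0 p hp)
  have h2 : ((p : ℝ)) ^ (Module.finrank ℚ L * (ν p - 1)) ≤ (D p : ℝ) ^ ν p := by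
    exact_mod_cast hD3 p hp
  have h3 := Real.log_le_log (by positivity) h2
  rw [Real.log_pow, Real.log_pow] at h3
  push_cast [Nat.cast_sub (hν p hp)] at h3
  have h4 : (1 - 1 / (ν p : ℝ)) * Real.log p * Module.finrank ℚ L =
      ((Module.finrank ℚ L : ℝ) * (ν p - 1) * Real.log p) / ν p := by
    field_simp
  rw [h4, div_le_iff₀ (by linarith), mul_comm (Real.log (D p))]
  exact h3

/-- `E ∣ a t` implies `E / gcd (E, a) ∣ t` -/
theorem div_gcd_dvd {E a t : ℕ} (hE : 1 ≤ E) (h : E ∣ a * t) : E / Nat.gcd E a ∣ t := by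
  have hg : 0 < Nat.gcd E a := Nat.gcd_pos_of_pos_left _ hE
  have h1 : Nat.Coprime (E / Nat.gcd E a) (a / Nat.gcd E a) := Nat.coprime_div_gcd_div_gcd hg
  refine h1.dvd_of_dvd_mul_left ?_
  have h2 : E = Nat.gcd E a * (E / Nat.gcd E a) := (Nat.mul_div_cancel' (Nat.gcd_dvd_left _ _)).symm
  have h3 : a * t = Nat.gcd E a * (a / Nat.gcd E a * t) := by
    rw [← mul_assoc, Nat.mul_div_cancel' (Nat.gcd_dvd_right _ _)]
  rw [h3] at h
  have h4 : Nat.gcd E a * (E / Nat.gcd E a) ∣ Nat.gcd E a * (a / Nat.gcd E a * t) := by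
    rw [← h2]
    exact h
  exact Nat.dvd_of_mul_dvd_mul_left hg h4

/-- the order of an element at a prime -/
noncomputable def od (w : HeightOneSpectrum (𝓞 L)) (z : L) : ℤ := -WithZero.log (w.valuation L z)

theorem od_mul (w : HeightOneSpectrum (𝓞 L)) {a b : L} (ha : a ≠ 0) (hb : b ≠ 0) :
    od w (a * b) = od w a + od w b := by
  unfold od
  rw [map_mul, WithZero.log_mul ((Valuation.ne_zero_iff _).2 ha) ((Valuation.ne_zero_iff _).2 hb)]
  ring

theorem od_pow (w : HeightOneSpectrum (𝓞 L)) (a : L) (n : ℕ) : od w (a ^ n) = n * od w a := by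
  unfold od
  rw [map_pow, WithZero.log_pow, nsmul_eq_mul]
  ring

theorem od_one_of (w : HeightOneSpectrum (𝓞 L)) {a : L} (ha : w.valuation L a = 1) :
    od w a = 0 := by
  unfold od
  rw [ha, WithZero.log_one, neg_zero]

theorem od_prod (w : HeightOneSpectrum (𝓞 L)) {ι : Type} (s : Finset ι) (f : ι → L)
    (hf : ∀ i ∈ s, f i ≠ 0) : od w (∏ i ∈ s, f i) = ∑ i ∈ s, od w (f i) := by
  classical
  induction s using Finset.induction_on with
  | empty =>
    rw [Finset.prod_empty, Finset.sum_empty]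
    exact od_one_of w (map_one _)
  | insert a s ha ih =>
    rw [Finset.prod_insert ha, Finset.sum_insert ha, od_mul w (hf a (Finset.mem_insert_self a s))
      (Finset.prod_ne_zero_iff.2 fun i hi => hf i (Finset.mem_insert_of_mem hi)),
      ih fun i hi => hf i (Finset.mem_insert_of_mem hi)]

theorem od_int_zero (w : HeightOneSpectrum (𝓞 L)) {a : ℤ} (ha : (a : 𝓞 L) ∉ w.asIdeal) :
    od w (a : L) = 0 := by
  refine od_one_of w ?_
  have h := (HeightOneSpectrum.valuation_eq_one_iff_notMem (K := L) w (r := (a : 𝓞 L))).2 ha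
  rw [map_intCast] at h
  exact h

theorem od_pos (w : HeightOneSpectrum (𝓞 L)) {a : 𝓞 L} (ha0 : a ≠ 0) (ha : a ∈ w.asIdeal) :
    1 ≤ od w (a : L) := by
  have h := (HeightOneSpectrum.valuation_lt_one_iff_mem (K := L) w a).2 ha
  have h0 : w.valuation L (a : L) ≠ 0 :=
    (Valuation.ne_zero_iff _).2 (RingOfIntegers.coe_ne_zero_iff.2 ha0)
  have h1 : WithZero.log (w.valuation L (a : L)) < WithZero.log 1 :=
    (WithZero.log_lt_log h0 one_ne_zero).2 h
  rw [WithZero.log_one] at h1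
  unfold od
  omega

theorem mem_pow_of (w : HeightOneSpectrum (𝓞 L)) {a : 𝓞 L} (ha0 : a ≠ 0) {n : ℕ}
    (h : (n : ℤ) ≤ od w (a : L)) : a ∈ w.asIdeal ^ n := by
  rw [← HeightOneSpectrum.intValuation_le_pow_iff_mem, ← HeightOneSpectrum.valuation_of_algebraMap
    (K := L)]
  have h0 : w.valuation L (a : L) ≠ 0 :=
    (Valuation.ne_zero_iff _).2 (RingOfIntegers.coe_ne_zero_iff.2 ha0)
  have h1 : WithZero.log (w.valuation L (a : L)) ≤ -(n : ℤ) := by
    unfold od at h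
    omega
  rw [← WithZero.exp_log h0]
  exact WithZero.exp_le_exp.2 h1

/-- **The ramification of the roots.** -/
theorem ram_root {q s : ℕ} (N : Fin q → ℤ) (E : Fin s → ℕ) (a : Fin s → Fin q → ℕ)
    (c y : Fin s → L) (hE : ∀ i, 1 ≤ E i) (hN : ∀ j, N j ≠ 0)
    (hy : ∀ i, y i ^ E i = c i * ∏ j, (N j : L) ^ a i j) {p : ℕ} (hp : p.Prime) (j : Fin q)
    (hpj : ∀ i, i ≠ j → ¬ (p : ℤ) ∣ N i) (𝔮 : Ideal (𝓞 L)) (h𝔮 : 𝔮.IsPrime)
    (hp𝔮 : (p : 𝓞 L) ∈ 𝔮)
    (hc : ∀ w : HeightOneSpectrum (𝓞 L), w.asIdeal = 𝔮 → ∀ i, w.valuation L (c i) = 1)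
    (e : ℕ) (he : e = Finset.univ.lcm fun i => E i / Nat.gcd (E i) (a i j)) (he1 : 1 ≤ e) :
    (p : 𝓞 L) ∈ 𝔮 ^ (e / Nat.gcd e ((N j).natAbs.factorization p)) := by
  have hp0 : (p : 𝓞 L) ≠ 0 := by exact_mod_cast hp.ne_zero
  have h𝔮0 : 𝔮 ≠ ⊥ := by
    rintro rfl
    exact hp0 ((Ideal.mem_bot).1 hp𝔮)
  obtain ⟨w, hw⟩ : ∃ w : HeightOneSpectrum (𝓞 L), w.asIdeal = 𝔮 := ⟨⟨𝔮, h𝔮, h𝔮0⟩, rfl⟩
  have hcw := hc w hw
  subst hw
  obtain ⟨t, ht⟩ : ∃ t : ℕ, (t : ℤ) = od w ((p : 𝓞 L) : L) := by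
    have := od_pos w hp0 hp𝔮
    exact ⟨(od w ((p : 𝓞 L) : L)).toNat, Int.toNat_of_nonneg (by omega)⟩
  have ht1 : 1 ≤ t := by
    have := od_pos w hp0 hp𝔮
    omega
  -- an integer prime to `p` is a unit at `w`
  have hunit : ∀ z : ℤ, ¬ (p : ℤ) ∣ z → od w (z : L) = 0 := by
    intro z hz
    refine od_int_zero w fun hzw => ?_
    have h1 : IsCoprime (p : ℤ) z := (Nat.prime_iff_prime_int.1 hp).coprime_iff_not_dvd.2 hz
    obtain ⟨u, v, huv⟩ := h1
    apply h𝔮.ne_top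
    rw [Ideal.eq_top_iff_one]
    have h2 : (1 : 𝓞 L) = (u : 𝓞 L) * (p : 𝓞 L) + (v : 𝓞 L) * (z : 𝓞 L) := by
      have := congrArg (fun m : ℤ => (m : 𝓞 L)) huv
      push_cast at this
      exact this.symm
    rw [h2]
    exact Ideal.add_mem _ (Ideal.mul_mem_left _ _ hp𝔮) (Ideal.mul_mem_left _ _ hzw)
  obtain ⟨v, hv⟩ : ∃ v, v = (N j).natAbs.factorization p := ⟨_, rfl⟩
  have hNj : od w (N j : L) = v * t := by
    have hN0 : (N j).natAbs ≠ 0 := Int.natAbs_ne_zero.2 (hN j)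
    obtain ⟨r, hr⟩ : ∃ r : ℕ, (N j).natAbs = p ^ v * r :=
      ⟨(N j).natAbs / p ^ v, by rw [hv]; exact (Nat.ordProj_mul_ordCompl_eq_self _ p).symm⟩
    have hpr : ¬ p ∣ r := by
      intro hpr
      have h1 : p ^ (v + 1) ∣ (N j).natAbs := by
        rw [hr, pow_succ]
        exact Nat.mul_dvd_mul_left _ hpr
      have h2 := (hp.pow_dvd_iff_le_factorization hN0).1 h1
      omega
    have hr0 : r ≠ 0 := by
      rintro rfl
      exact hpr (dvd_zero _)
    obtain ⟨σ, hσ, hNσ⟩ : ∃ σ : ℤ, ¬ (p : ℤ) ∣ σ ∧ N j = (p : ℤ) ^ v * σ := by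
      rcases Int.natAbs_eq (N j) with h | h
      · refine ⟨r, fun h1 => hpr (Int.natCast_dvd_natCast.1 h1), ?_⟩
        rw [h, hr]
        push_cast
        ring
      · refine ⟨-r, fun h1 => hpr (Int.natCast_dvd_natCast.1 ((dvd_neg).1 h1)), ?_⟩
        rw [h, hr]
        push_cast
        ring
    have hσ0 : (σ : L) ≠ 0 := by
      have : σ ≠ 0 := by
        rintro rfl
        exact hσ (dvd_zero _)
      exact_mod_cast this
    have hpL : ((p : ℤ) : L) ≠ 0 := by exact_mod_cast hp.ne_zero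
    rw [hNσ, Int.cast_mul, Int.cast_pow, od_mul w (pow_ne_zero _ hpL) hσ0, od_pow, hunit σ hσ,
      add_zero, ht]
    push_cast
    rfl
  have hdiv : ∀ i, E i ∣ a i j * (v * t) := by
    intro i
    have hprod0 : ∀ l ∈ (Finset.univ : Finset (Fin q)), (N l : L) ^ a i l ≠ 0 := fun l _ =>
      pow_ne_zero _ (by exact_mod_cast hN l)
    have hci : c i ≠ 0 := by
      intro h0
      have := hcw i
      rw [h0, map_zero] at this
      exact zero_ne_one this
    have h1 := congrArg (od w) (hy i)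
    rw [od_pow, od_mul w hci (Finset.prod_ne_zero_iff.2 hprod0), od_one_of w (hcw i), zero_add,
      od_prod w _ _ hprod0, Finset.sum_eq_single j] at h1
    · rw [od_pow, hNj] at h1
      have h2 : (E i : ℤ) ∣ ((a i j * (v * t) : ℕ) : ℤ) := ⟨_, by push_cast; exact h1.symm⟩
      exact_mod_cast h2
    · intro l _ hl
      rw [od_pow, hunit _ (hpj l hl), mul_zero]
    · intro h
      exact absurd (Finset.mem_univ j) h
  have hev : e ∣ v * t := by
    rw [he]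
    exact Finset.lcm_dvd fun i _ => div_gcd_dvd (hE i) (hdiv i)
  have h1 := Nat.le_of_dvd (by omega) (div_gcd_dvd he1 hev)
  rw [← hv]
  refine mem_pow_of w hp0 ?_
  rw [← ht]
  exact_mod_cast h1

end Pool.Agent.D0H41.OC
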