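import Mathlib
import Pool.Agent.D0H41.OC.Disc
import Pool.Agent.N459.AC.NRM
import Pool.Agent.N747.AC.Ram

/-! # The places of the rational numbers -/

set_option autoImplicit false

namespace Pool.Agent.D0H41.OC

open NumberField IsDedekindDomain
open Pool.Agent.N459.AC
open Pool.Agent.N747.AC (mk_eq val_le_one)

theorem prime_cast {p : ℕ} (hp : p.Prime) : Prime ((p : ℕ) : 𝓞 ℚ) := by
  have h := Nat.prime_iff_prime_int.1 hp
  have h2 := (MulEquiv.prime_iff (Rat.ringOfIntegersEquiv.symm : ℤ ≃+* 𝓞 ℚ)).2 h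
  have h3 : (Rat.ringOfIntegersEquiv.symm : ℤ ≃+* 𝓞 ℚ) (p : ℤ) = ((p : ℕ) : 𝓞 ℚ) := by
    rw [map_natCast]
  rwa [h3] at h2

/-- the prime `p` -/
noncomputable def vp {p : ℕ} (hp : p.Prime) : HeightOneSpectrum (𝓞 ℚ) where
  asIdeal := Ideal.span {((p : ℕ) : 𝓞 ℚ)}
  isPrime := (Ideal.span_singleton_prime (prime_cast hp).ne_zero).2 (prime_cast hp)
  ne_bot := by
    rw [Ne, Ideal.span_singleton_eq_bot]
    exact (prime_cast hp).ne_zero

theorem mem_vp {p : ℕ} (hp : p.Prime) (z : ℤ) :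
    (z : 𝓞 ℚ) ∈ (vp hp).asIdeal ↔ (p : ℤ) ∣ z := by
  show (z : 𝓞 ℚ) ∈ Ideal.span {((p : ℕ) : 𝓞 ℚ)} ↔ _
  rw [Ideal.mem_span_singleton]
  constructor
  · rintro ⟨c, hc⟩
    refine ⟨Rat.ringOfIntegersEquiv c, ?_⟩
    have h := congrArg Rat.ringOfIntegersEquiv hc
    rw [map_intCast, map_mul, map_natCast] at h
    exact_mod_cast h
  · rintro ⟨c, rfl⟩
    exact ⟨(c : 𝓞 ℚ), by push_cast; ring⟩

theorem absNorm_vp {p : ℕ} (hp : p.Prime) : Ideal.absNorm (vp hp).asIdeal = p := by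
  show Ideal.absNorm (Ideal.span {((p : ℕ) : 𝓞 ℚ)}) = p
  rw [Ideal.absNorm_span_natCast, RingOfIntegers.rank, Module.finrank_self, pow_one]

theorem vp_inj {p q : ℕ} (hp : p.Prime) (hq : q.Prime) (h : vp hp = vp hq) : p = q := by
  rw [← absNorm_vp hp, ← absNorm_vp hq, h]

theorem mk_vp_le {p : ℕ} (hp : p.Prime) (z : ℤ) : FinitePlace.mk (vp hp) (z : ℚ) ≤ 1 := by
  have h : ((z : 𝓞 ℚ) : ℚ) = (z : ℚ) := by push_cast; rfl
  rw [← h]
  exact FinitePlace.norm_le_one ℚ (vp hp) _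

theorem mk_vp_eq_one {p : ℕ} (hp : p.Prime) {z : ℤ} (hz : ¬ (p : ℤ) ∣ z) :
    FinitePlace.mk (vp hp) (z : ℚ) = 1 := by
  have h : ((z : 𝓞 ℚ) : ℚ) = (z : ℚ) := by push_cast; rfl
  rw [← h]
  exact (FinitePlace.norm_eq_one_iff_notMem ℚ (vp hp) _).2 fun h1 => hz ((mem_vp hp z).1 h1)

theorem mk_vp_lt_one {p : ℕ} (hp : p.Prime) {z : ℤ} (hz : (p : ℤ) ∣ z) :
    FinitePlace.mk (vp hp) (z : ℚ) < 1 := by
  have h : ((z : 𝓞 ℚ) : ℚ) = (z : ℚ) := by push_cast; rfl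
  rw [← h]
  exact (FinitePlace.norm_lt_one_iff_mem ℚ (vp hp) _).2 ((mem_vp hp z).2 hz)

variable {L : Type} [Field L] [NumberField L]

theorem above_vp {p : ℕ} (hp : p.Prime) (w : HeightOneSpectrum (𝓞 L)) :
    (vp hp).asIdeal.map (algebraMap (𝓞 ℚ) (𝓞 L)) ≤ w.asIdeal ↔ (p : 𝓞 L) ∈ w.asIdeal := by
  show (Ideal.span {((p : ℕ) : 𝓞 ℚ)}).map (algebraMap (𝓞 ℚ) (𝓞 L)) ≤ w.asIdeal ↔ _
  rw [Ideal.map_span, Set.image_singleton, Ideal.span_singleton_le_iff_mem, map_natCast]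

/-- integral elements have nonnegative order -/
theorem od_nonneg (w : HeightOneSpectrum (𝓞 L)) {a : L} (h : FinitePlace.mk w a ≤ 1) :
    0 ≤ od w a := by
  have h1 := val_le_one h
  unfold od
  by_cases ha : w.valuation L a = 0
  · rw [ha, WithZero.log_zero, neg_zero]
  · have h2 : WithZero.log (w.valuation L a) ≤ WithZero.log 1 :=
      (WithZero.log_le_log ha one_ne_zero).2 h1
    rw [WithZero.log_one] at h2
    omega

theorem od_unit (w : HeightOneSpectrum (𝓞 L)) {a b : L} (ha : 0 ≤ od w a) (hb : 0 ≤ od w b)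
    (hab : od w (a * b) = 0) (h0 : a * b ≠ 0) : od w a = 0 := by
  rw [od_mul w (left_ne_zero_of_mul h0) (right_ne_zero_of_mul h0)] at hab
  omega

theorem od_zero_of_mk (w : HeightOneSpectrum (𝓞 L)) {a : L} (h : FinitePlace.mk w a = 1) :
    od w a = 0 := by
  have ha : a ≠ 0 := by
    rintro rfl
    rw [map_zero] at h
    exact zero_ne_one h
  have h1 := od_nonneg w h.le
  have h2 : FinitePlace.mk w a⁻¹ ≤ 1 := by
    rw [map_inv₀, h, inv_one]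
  have h3 := od_nonneg w h2
  have h4 : od w (a * a⁻¹) = od w a + od w a⁻¹ := od_mul w ha (inv_ne_zero ha)
  rw [mul_inv_cancel₀ ha] at h4
  have h5 : od w (1 : L) = 0 := od_one_of w (map_one _)
  omega

end Pool.Agent.D0H41.OC
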