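import Mathlib
import Pool.Agent.D0H41.OC.Vp

/-! # Norms of elements and orders at the primes above a prime -/

set_option autoImplicit false

namespace Pool.Agent.D0H41.OC

open NumberField IsDedekindDomain UniqueFactorizationMonoid
open Pool.Agent.N747.AC (exists_den mk_pow_le coeAlg)

attribute [local instance] FractionRing.liftAlgebra FractionRing.isScalarTower_liftAlgebra

variable {K L : Type} [Field K] [NumberField K] [Field L] [NumberField L] [Algebra K L]

/-- **The orders of an element and its norm.** -/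
theorem norm_bound (v : HeightOneSpectrum (𝓞 K)) (ζ : L) (s : ℕ)
    (hζ : ∀ w : HeightOneSpectrum (𝓞 L), v.asIdeal.map (algebraMap (𝓞 K) (𝓞 L)) ≤ w.asIdeal →
      FinitePlace.mk w ζ ≤ 1)
    (hnorm : ((Ideal.absNorm v.asIdeal : ℝ) ^ s)⁻¹ ≤ FinitePlace.mk v (Algebra.norm K ζ))
    (W : Finset (HeightOneSpectrum (𝓞 L)))
    (hW : ∀ w ∈ W, v.asIdeal.map (algebraMap (𝓞 K) (𝓞 L)) ≤ w.asIdeal)
    (o : HeightOneSpectrum (𝓞 L) → ℕ) (ho : ∀ w ∈ W, (o w : ℤ) ≤ od w ζ) :
    ∑ w ∈ W, (o w : ℝ) * Real.log (Ideal.absNorm w.asIdeal) ≤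
      s * Real.log (Ideal.absNorm v.asIdeal) := by
  classical
  have hinj : Function.Injective (algebraMap (𝓞 K) (𝓞 L)) :=
    FaithfulSMul.algebraMap_injective (𝓞 K) (𝓞 L)
  have hvp := v.isPrime
  obtain ⟨P, hP⟩ : ∃ P : Ideal (𝓞 L), P = v.asIdeal.map (algebraMap (𝓞 K) (𝓞 L)) := ⟨_, rfl⟩
  have hPne : P ≠ ⊥ := by
    rw [hP, Ne, Ideal.map_eq_bot_iff_of_injective hinj]
    exact v.ne_bot
  have hNv : (1 : ℝ) < Ideal.absNorm v.asIdeal := by
    exact_mod_cast HeightOneSpectrum.one_lt_absNorm v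
  have hζ0 : ζ ≠ 0 := by
    rintro rfl
    rw [Algebra.norm_zero, map_zero] at hnorm
    have : (0 : ℝ) < ((Ideal.absNorm v.asIdeal : ℝ) ^ s)⁻¹ := by positivity
    linarith
  obtain ⟨d, hd, η, hη⟩ := exists_den (v := v) (ζ := ζ) hζ
  have hd0 : d ≠ 0 := by
    rintro rfl
    exact hd (Ideal.zero_mem _)
  have hη0 : η ≠ 0 := by
    rintro rfl
    rw [map_zero, mul_eq_zero] at hη
    rcases hη with h | h
    · rw [FaithfulSMul.algebraMap_eq_zero_iff, FaithfulSMul.algebraMap_eq_zero_iff] at h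
      exact hd0 h
    · exact hζ0 h
  obtain ⟨I, hI⟩ : ∃ I : Ideal (𝓞 L), I = ∏ w ∈ W, w.asIdeal ^ o w := ⟨_, rfl⟩
  have hIη : I ∣ Ideal.span {η} := by
    rw [hI]
    refine Finset.prod_dvd_of_coprime ?_ ?_
    · intro w _ w' _ hne
      have := w.isMaximal
      have := w'.isMaximal
      refine (Ideal.isCoprime_of_isMaximal ?_).pow
      intro h
      exact hne (HeightOneSpectrum.ext h)
    · intro w hw
      rw [Ideal.dvd_iff_le, Ideal.span_singleton_le_iff_mem]
      refine mem_pow_of w hη0 ((ho w hw).trans ?_)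
      have h1 : od w (algebraMap (𝓞 L) L η) = od w ζ := by
        rw [← hη, od_mul w _ hζ0]
        · have h2 : od w (algebraMap (𝓞 L) L (algebraMap (𝓞 K) (𝓞 L) d)) = 0 := by
            refine od_one_of w ?_
            exact (HeightOneSpectrum.valuation_eq_one_iff_notMem (K := L) w
              (r := algebraMap (𝓞 K) (𝓞 L) d)).2 (Pool.Agent.N459.AC.notMem_above (hW w hw) hd)
          rw [h2, zero_add]
        · rw [Ne, FaithfulSMul.algebraMap_eq_zero_iff, FaithfulSMul.algebraMap_eq_zero_iff]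
          exact hd0
      exact h1.ge
  have hIP : I ∣ P ^ ∑ w ∈ W, o w := by
    rw [hI, ← Finset.prod_pow_eq_pow_sum]
    refine Finset.prod_dvd_prod_of_dvd _ _ fun w hw => pow_dvd_pow_of_dvd ?_ _
    rw [Ideal.dvd_iff_le, hP]
    exact hW w hw
  have hfr : Module.finrank (𝓞 K) (𝓞 L) = Module.finrank K L :=
    (IsFractionRing.finrank_eq (𝓞 K) K (𝓞 L) L).symm
  have hr1 : Ideal.relNorm (𝓞 K) I ∣ v.asIdeal ^ (Module.finrank K L * ∑ w ∈ W, o w) := by
    have h1 := map_dvd (Ideal.relNorm (𝓞 K) (S := 𝓞 L)) hIP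
    rw [map_pow, hP, Ideal.relNorm_algebraMap, hfr, ← pow_mul] at h1
    exact h1
  obtain ⟨t, -, ht⟩ := (dvd_prime_pow (Ideal.prime_of_isPrime v.ne_bot v.isPrime) _).1 hr1
  rw [associated_iff_eq] at ht
  have hIn : Ideal.absNorm I = Ideal.absNorm v.asIdeal ^ t := by
    rw [← Ideal.absNorm_relNorm (𝓞 K) (𝓞 L) I, ht, map_pow]
  have hts : t ≤ s := by
    have h1 := map_dvd (Ideal.relNorm (𝓞 K) (S := 𝓞 L)) hIη
    rw [ht, Ideal.relNorm_singleton, Ideal.dvd_iff_le, Ideal.span_singleton_le_iff_mem] at h1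
    have h2 := mk_pow_le h1
    rw [Algebra.algebraMap_intNorm (L := L), ← hη, map_mul, coeAlg, Algebra.norm_algebraMap,
      map_mul, map_pow] at h2
    have h3 : FinitePlace.mk v (algebraMap (𝓞 K) K d) = 1 := by
      rw [FinitePlace.mk_apply]
      exact (FinitePlace.norm_eq_one_iff_notMem K v d).2 hd
    rw [h3, one_pow, one_mul] at h2
    have h4 := hnorm.trans h2
    by_contra hcon
    have h5 : (Ideal.absNorm v.asIdeal : ℝ) ^ s < (Ideal.absNorm v.asIdeal : ℝ) ^ t :=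
      pow_lt_pow_right₀ hNv (by omega)
    have h6 : (0 : ℝ) < (Ideal.absNorm v.asIdeal : ℝ) ^ s := by positivity
    have h7 := inv_strictAnti₀ h6 h5
    linarith
  have h1 : Real.log (Ideal.absNorm I) = ∑ w ∈ W, (o w : ℝ) * Real.log (Ideal.absNorm w.asIdeal) := by
    rw [hI, map_prod]
    push_cast
    rw [Real.log_prod]
    · refine Finset.sum_congr rfl fun w _ => ?_
      rw [map_pow]
      push_cast
      rw [Real.log_pow]
    · intro w _
      rw [map_pow]
      have h2 : Ideal.absNorm w.asIdeal ≠ 0 := Ideal.absNorm_eq_zero_iff.not.2 w.ne_bot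
      exact_mod_cast pow_ne_zero _ h2
  rw [← h1, hIn]
  push_cast
  rw [Real.log_pow]
  refine mul_le_mul_of_nonneg_right ?_ (Real.log_natCast_nonneg _)
  exact_mod_cast hts

end Pool.Agent.D0H41.OC
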