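import Mathlib
import Pool.Agent.D0H41.OC.Nrm

/-! # The discriminant and the primes above a prime -/

set_option autoImplicit false

namespace Pool.Agent.D0H41.OC

open NumberField IsDedekindDomain

variable {L : Type} [Field L] [NumberField L]

/-- the ramification index at `p` -/
noncomputable def rami (p : ℕ) (w : HeightOneSpectrum (𝓞 L)) : ℕ :=
  (Associates.mk w.asIdeal).count (Associates.mk (Ideal.span {(p : 𝓞 L)} : Ideal (𝓞 L))).factors

theorem rami_eq {p : ℕ} (hp : p.Prime) (w : HeightOneSpectrum (𝓞 L)) :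
    (rami p w : ℤ) = od w ((p : 𝓞 L) : L) := by
  have hp0 : (p : 𝓞 L) ≠ 0 := by exact_mod_cast hp.ne_zero
  unfold od rami
  have h1 : w.valuation L ((p : 𝓞 L) : L) = w.intValuation (p : 𝓞 L) :=
    HeightOneSpectrum.valuation_of_algebraMap w (p : 𝓞 L)
  rw [h1, HeightOneSpectrum.intValuation_if_neg w hp0, WithZero.log_exp, neg_neg]

theorem primes_above_finite {p : ℕ} (hp : p.Prime) :
    {w : HeightOneSpectrum (𝓞 L) | (p : 𝓞 L) ∈ w.asIdeal}.Finite := by
  have h0 : Ideal.span {(p : 𝓞 L)} ≠ 0 := by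
    rw [Ne, Ideal.zero_eq_bot, Ideal.span_singleton_eq_bot]
    exact_mod_cast hp.ne_zero
  refine (Ideal.finite_factors h0).subset ?_
  intro w hw
  exact Ideal.dvd_span_singleton.2 hw

/-- **The ramification above `p` and the discriminant.** -/
theorem disc_p {p : ℕ} (hp : p.Prime) (W : Finset (HeightOneSpectrum (𝓞 L)))
    (hW : ∀ w, w ∈ W ↔ (p : 𝓞 L) ∈ w.asIdeal) :
    ∑ w ∈ W, (rami p w : ℝ) * Real.log (Ideal.absNorm w.asIdeal) =
      Module.finrank ℚ L * Real.log p ∧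
    ∃ D : ℕ, D ∣ p ^ Module.finrank ℚ L ∧ D ∣ (discr L).natAbs ∧
      Real.log D = ∑ w ∈ W, ((rami p w : ℝ) - 1) * Real.log (Ideal.absNorm w.asIdeal) := by
  classical
  have hpZ : _root_.Prime (p : ℤ) := Nat.prime_iff_prime_int.mp hp
  have hmax : (Ideal.span {(p : ℤ)}).IsMaximal :=
    PrincipalIdealRing.isMaximal_of_irreducible hpZ.irreducible
  have hp0 : (p : 𝓞 L) ≠ 0 := by exact_mod_cast hp.ne_zero
  obtain ⟨P, hP⟩ : ∃ P : Ideal (𝓞 L), P = Ideal.span {(p : 𝓞 L)} := ⟨_, rfl⟩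
  have hPne : P ≠ 0 := by rw [hP, Ne, Ideal.zero_eq_bot, Ideal.span_singleton_eq_bot]; exact hp0
  have hPmap : Ideal.map (algebraMap ℤ (𝓞 L)) (Ideal.span {(p : ℤ)}) = P := by
    rw [Ideal.map_span, Set.image_singleton]; simp [hP]
  have hr1 : ∀ w ∈ W, 1 ≤ rami p w := by
    intro w hw
    have h1 := od_pos w hp0 ((hW w).1 hw)
    rw [← rami_eq hp] at h1
    exact_mod_cast h1
  have hr0 : ∀ w, w ∉ W → rami p w = 0 := by
    intro w hw
    have h1 : od w ((p : 𝓞 L) : L) = 0 := by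
      refine od_one_of w ?_
      exact (HeightOneSpectrum.valuation_eq_one_iff_notMem (K := L) w (r := (p : 𝓞 L))).2
        fun h => hw ((hW w).2 h)
    rw [← rami_eq hp] at h1
    exact_mod_cast h1
  have hprod : ∏ w ∈ W, w.asIdeal ^ rami p w = P := by
    have h1 := Ideal.finprod_heightOneSpectrum_factorization hPne
    rw [finprod_eq_prod_of_mulSupport_subset (s := W)] at h1
    · rw [← h1]
      refine Finset.prod_congr rfl fun w _ => ?_
      unfold rami HeightOneSpectrum.maxPowDividing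
      rw [hP]
    · intro w hw
      by_contra hcon
      apply hw
      have h2 := hr0 w hcon
      unfold rami at h2
      unfold HeightOneSpectrum.maxPowDividing
      rw [hP]
      show w.asIdeal ^ _ = 1
      rw [h2, pow_zero]
  obtain ⟨J, hJ⟩ : ∃ J : Ideal (𝓞 L), J = ∏ w ∈ W, w.asIdeal ^ (rami p w - 1) := ⟨_, rfl⟩
  obtain ⟨I, hI⟩ : ∃ I : Ideal (𝓞 L), I = ∏ w ∈ W, w.asIdeal := ⟨_, rfl⟩
  have hJI : J * I = P := by
    rw [hJ, hI, ← Finset.prod_mul_distrib, ← hprod]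
    refine Finset.prod_congr rfl fun w hw => ?_
    rw [← pow_succ, Nat.sub_add_cancel (hr1 w hw)]
  have hJd : J ∣ differentIdeal ℤ (𝓞 L) := by
    rw [hJ]
    refine Finset.prod_dvd_of_coprime ?_ ?_
    · intro w _ w' _ hne
      have := w.isMaximal
      have := w'.isMaximal
      refine (Ideal.isCoprime_of_isMaximal ?_).pow
      intro h
      exact hne (HeightOneSpectrum.ext h)
    · intro w hw
      refine pow_sub_one_dvd_differentIdeal ℤ w.asIdeal (rami p w) (p := Ideal.span {(p : ℤ)}) ?_ ?_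
      · rw [Ne, Ideal.span_singleton_eq_bot]; exact hpZ.ne_zero
      · rw [hPmap, ← hprod]
        exact Finset.dvd_prod_of_mem (fun w => w.asIdeal ^ rami p w) hw
  have hnP : Ideal.absNorm P = p ^ Module.finrank ℚ L := by
    rw [hP, Ideal.absNorm_span_natCast, RingOfIntegers.rank]
  have hne : ∀ w : HeightOneSpectrum (𝓞 L), (Ideal.absNorm w.asIdeal : ℝ) ≠ 0 := fun w => by
    exact_mod_cast Ideal.absNorm_eq_zero_iff.not.2 w.ne_bot
  have hlog : ∀ k : HeightOneSpectrum (𝓞 L) → ℕ,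
      Real.log (Ideal.absNorm (∏ w ∈ W, w.asIdeal ^ k w) : ℝ) =
        ∑ w ∈ W, (k w : ℝ) * Real.log (Ideal.absNorm w.asIdeal) := by
    intro k
    rw [map_prod]
    push_cast
    rw [Real.log_prod]
    · refine Finset.sum_congr rfl fun w _ => ?_
      rw [map_pow]
      push_cast
      rw [Real.log_pow]
    · intro w _
      rw [map_pow]
      push_cast
      exact pow_ne_zero _ (hne w)
  constructor
  · rw [← hlog, hprod, hnP]
    push_cast
    rw [Real.log_pow]
  · refine ⟨Ideal.absNorm J, ?_, ?_, ?_⟩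
    · rw [← hnP]
      exact Ideal.absNorm_dvd_absNorm_of_le (Ideal.dvd_iff_le.mp ⟨I, hJI.symm⟩)
    · have h4 := Ideal.absNorm_dvd_absNorm_of_le (Ideal.dvd_iff_le.mp hJd)
      rwa [NumberField.absNorm_differentIdeal L (𝓞 L)] at h4
    · rw [hJ, hlog]
      refine Finset.sum_congr rfl fun w hw => ?_
      rw [Nat.cast_sub (hr1 w hw), Nat.cast_one]

open Classical in
/-- **The primes above `p` at a point of a cover.** -/
theorem local_main {p : ℕ} (hp : p.Prime) {q : ℕ} (μ : ℕ) (hμ : 1 ≤ μ) (e d : Fin q → ℕ)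
    (he : ∀ c, 1 ≤ e c) (o : Fin q → HeightOneSpectrum (𝓞 L) → ℕ)
    (W : Finset (HeightOneSpectrum (𝓞 L))) (hW : ∀ w, w ∈ W ↔ (p : 𝓞 L) ∈ w.asIdeal)
    (h1 : ∀ w ∈ W, ∑ c, e c * o c w = μ * rami p w)
    (h2 : ∀ w ∈ W, ∀ c c', c ≠ c' → o c w = 0 ∨ o c' w = 0)
    (h3 : ∀ c, ∑ w ∈ W, (o c w : ℝ) * Real.log (Ideal.absNorm w.asIdeal) ≤
      (d c : ℝ) * μ * Real.log p)
    (hsum : ∑ c, e c * d c = Module.finrank ℚ L) (inD : Fin q → Prop)
    (Wd : Finset (HeightOneSpectrum (𝓞 L)))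
    (hWd : ∀ w ∈ W, ∀ c, inD c → 0 < o c w → w ∈ Wd) :
    ∃ D : ℕ, D ∣ p ^ Module.finrank ℚ L ∧ D ∣ (discr L).natAbs ∧
      ∑ c, ((e c * d c : ℕ) : ℝ) * (if inD c then 1 else 1 - (Nat.gcd (e c) μ : ℝ) / e c) *
        Real.log p ≤ Real.log D + ∑ w ∈ Wd, Real.log (Ideal.absNorm w.asIdeal) := by
  obtain ⟨k1, D, k2, k3, k4⟩ := disc_p hp W hW
  refine ⟨D, k2, k3, ?_⟩
  have hp0 : (p : 𝓞 L) ≠ 0 := by exact_mod_cast hp.ne_zero
  have hlogn : ∀ w : HeightOneSpectrum (𝓞 L), 0 ≤ Real.log (Ideal.absNorm w.asIdeal : ℝ) :=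
    fun w => Real.log_natCast_nonneg _
  have hlogp : 0 < Real.log p := Real.log_pos (by exact_mod_cast hp.one_lt)
  have hμ0 : (0 : ℝ) < μ := by exact_mod_cast hμ
  have hr1 : ∀ w ∈ W, 1 ≤ rami p w := by
    intro w hw
    have h1 := od_pos w hp0 ((hW w).1 hw)
    rw [← rami_eq hp] at h1
    exact_mod_cast h1
  -- the class of a prime
  have hcl : ∀ w ∈ W, ∃ c, 0 < o c w ∧ ∀ c', c' ≠ c → o c' w = 0 := by
    intro w hw
    have h4 := h1 w hw
    obtain ⟨c, -, hc⟩ : ∃ c ∈ (Finset.univ : Finset (Fin q)), e c * o c w ≠ 0 := by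
      by_contra hcon
      push Not at hcon
      rw [Finset.sum_eq_zero hcon] at h4
      have := hr1 w hw
      have : 0 < μ * rami p w := Nat.mul_pos (by omega) (by omega)
      omega
    have hc0 : 0 < o c w := Nat.pos_of_ne_zero (right_ne_zero_of_mul hc)
    refine ⟨c, hc0, fun c' hc' => ?_⟩
    rcases h2 w hw c c' (Ne.symm hc') with h | h
    · omega
    · exact h
  -- sums over the classes
  have hswap : ∀ f : Fin q → HeightOneSpectrum (𝓞 L) → ℝ,
      ∑ c, ∑ w ∈ W, (if 0 < o c w then f c w else 0) =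
        ∑ w ∈ W, ∑ c, (if 0 < o c w then f c w else 0) := fun f => Finset.sum_comm
  have hone : ∀ (f : Fin q → HeightOneSpectrum (𝓞 L) → ℝ) (w), w ∈ W → ∀ c, 0 < o c w →
      ∑ c, (if 0 < o c w then f c w else 0) = f c w := by
    intro f w hw c hc
    rw [Finset.sum_eq_single c]
    · rw [if_pos hc]
    · intro c' _ hc'
      rcases h2 w hw c c' (Ne.symm hc') with h | h
      · omega
      · rw [if_neg (by omega)]
    · intro h
      exact absurd (Finset.mem_univ c) h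
  obtain ⟨ℓ, hℓ⟩ : ∃ ℓ : HeightOneSpectrum (𝓞 L) → ℝ, ∀ w, ℓ w =
    Real.log (Ideal.absNorm w.asIdeal) := ⟨_, fun _ => rfl⟩
  simp only [← hℓ] at k1 k4 h3 hlogn ⊢
  obtain ⟨mass, hmass⟩ : ∃ mass : Fin q → ℝ, ∀ c, mass c =
    ∑ w ∈ W, (if 0 < o c w then (rami p w : ℝ) * ℓ w else 0) := ⟨_, fun _ => rfl⟩
  have heo : ∀ w ∈ W, ∀ c, 0 < o c w → e c * o c w = μ * rami p w := by
    intro w hw c hc
    rw [← h1 w hw, Finset.sum_eq_single c]
    · intro c' _ hc'
      rcases h2 w hw c c' (Ne.symm hc') with h | h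
      · omega
      · rw [h, mul_zero]
    · intro h
      exact absurd (Finset.mem_univ c) h
  have hm1 : ∀ c, mass c ≤ ((e c * d c : ℕ) : ℝ) * Real.log p := by
    intro c
    have h4 : (μ : ℝ) * mass c = e c * ∑ w ∈ W, (o c w : ℝ) * ℓ w := by
      rw [hmass, Finset.mul_sum, Finset.mul_sum]
      refine Finset.sum_congr rfl fun w hw => ?_
      split_ifs with h5
      · have h6 : ((e c : ℝ) * o c w) = μ * rami p w := by exact_mod_cast heo w hw c h5
        calc (μ : ℝ) * ((rami p w : ℝ) * ℓ w) = (μ * rami p w) * ℓ w := by ring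
          _ = _ := by rw [← h6]; ring
      · have h6 : o c w = 0 := by omega
        rw [h6, Nat.cast_zero, zero_mul, mul_zero, mul_zero]
    have h5 := mul_le_mul_of_nonneg_left (h3 c) (Nat.cast_nonneg (α := ℝ) (e c))
    rw [← h4] at h5
    have h6 : (μ : ℝ) * mass c ≤ μ * (((e c * d c : ℕ) : ℝ) * Real.log p) := by
      refine h5.trans (le_of_eq ?_)
      push_cast
      ring
    exact le_of_mul_le_mul_left h6 hμ0
  have hm2 : ∑ c, mass c = ∑ c, ((e c * d c : ℕ) : ℝ) * Real.log p := by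
    have h4 : ∑ c, mass c = Module.finrank ℚ L * Real.log p := by
      rw [← k1]
      simp only [hmass]
      rw [hswap]
      refine Finset.sum_congr rfl fun w hw => ?_
      obtain ⟨c, hc, -⟩ := hcl w hw
      exact hone (fun _ w => (rami p w : ℝ) * ℓ w) w hw c hc
    rw [h4, ← Finset.sum_mul, ← hsum]
    push_cast
    rfl
  have hm3 : ∀ c, mass c = ((e c * d c : ℕ) : ℝ) * Real.log p := by
    intro c
    exact ((Finset.sum_eq_sum_iff_of_le fun c _ => hm1 c).1 hm2) c (Finset.mem_univ c)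
  obtain ⟨co, hco⟩ : ∃ co : Fin q → ℝ, ∀ c, co c =
    if inD c then 1 else 1 - (Nat.gcd (e c) μ : ℝ) / e c := ⟨_, fun _ => rfl⟩
  simp only [← hco]
  have h4 : ∑ c, ((e c * d c : ℕ) : ℝ) * co c * Real.log p =
      ∑ c, ∑ w ∈ W, (if 0 < o c w then co c * ((rami p w : ℝ) * ℓ w) else 0) := by
    refine Finset.sum_congr rfl fun c _ => ?_
    have h5 : ((e c * d c : ℕ) : ℝ) * co c * Real.log p = co c * mass c := by
      rw [hm3]
      ring
    rw [h5, hmass, Finset.mul_sum]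
    refine Finset.sum_congr rfl fun w _ => ?_
    split_ifs
    · rfl
    · rw [mul_zero]
  rw [h4, hswap, k4]
  have h5 : ∑ w ∈ W, (if w ∈ Wd then ℓ w else 0) ≤ ∑ w ∈ Wd, ℓ w := by
    rw [← Finset.sum_filter]
    refine Finset.sum_le_sum_of_subset_of_nonneg ?_ fun w _ _ => hlogn w
    intro w hw
    exact (Finset.mem_filter.1 hw).2
  refine le_trans ?_ (add_le_add le_rfl h5)
  rw [← Finset.sum_add_distrib]
  refine Finset.sum_le_sum fun w hw => ?_
  obtain ⟨c, hc, -⟩ := hcl w hw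
  rw [hone (fun c w => co c * ((rami p w : ℝ) * ℓ w)) w hw c hc, hco]
  have hℓ0 := hlogn w
  have hrw : (1 : ℝ) ≤ rami p w := by exact_mod_cast hr1 w hw
  by_cases hD : inD c
  · rw [if_pos hD, if_pos (hWd w hw c hD hc)]
    linarith
  · rw [if_neg hD]
    have h6 : 0 ≤ (if w ∈ Wd then ℓ w else 0) := by
      split_ifs
      · exact hℓ0
      · exact le_rfl
    refine le_trans ?_ (le_add_of_nonneg_right h6)
    have hdv : e c ∣ μ * rami p w := ⟨o c w, (heo w hw c hc).symm⟩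
    have h7 := Nat.le_of_dvd (hr1 w hw) (div_gcd_dvd (he c) hdv)
    have hg0 : 0 < Nat.gcd (e c) μ := Nat.gcd_pos_of_pos_left _ (he c)
    have h8 : e c ≤ rami p w * Nat.gcd (e c) μ := by
      have h9 := Nat.mul_le_mul_right (Nat.gcd (e c) μ) h7
      rwa [Nat.div_mul_cancel (Nat.gcd_dvd_left _ _)] at h9
    have he0 : (0 : ℝ) < e c := by exact_mod_cast he c
    have h10 : 1 ≤ (rami p w : ℝ) * ((Nat.gcd (e c) μ : ℝ) / e c) := by
      rw [← mul_div_assoc, le_div_iff₀ he0, one_mul]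
      exact_mod_cast h8
    have h11 : (1 - (Nat.gcd (e c) μ : ℝ) / e c) * ((rami p w : ℝ) * ℓ w) =
        ((rami p w : ℝ) - rami p w * ((Nat.gcd (e c) μ : ℝ) / e c)) * ℓ w := by ring
    rw [h11]
    exact mul_le_mul_of_nonneg_right (by linarith) hℓ0

end Pool.Agent.D0H41.OC
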