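import Mathlib
import Pool.Agent.D0H41.OC.Orb
import Pool.Agent.D0H41.OC.Disc

/-! # The discriminant and weighted sums over primes -/

set_option autoImplicit false

namespace Pool.Agent.D0H41.OC

open NumberField IsDedekindDomain
open Pool.Agent.H813R3.Voj (rd)

/-- **The discriminant and weighted sums over primes.** -/
theorem sum_le {L : Type} [Field L] [NumberField L] {q : ℕ} (N G : Fin q → ℤ)
    (hN : ∀ j, N j ≠ 0) (hG : ∀ i j, i ≠ j → N i ∣ G j)
    (S : Finset ℕ) (c : Fin q → ℕ → ℝ) (hc0 : ∀ j p, 0 ≤ c j p) (hc1 : ∀ j p, c j p ≤ 1)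
    (X : ℕ → ℝ)
    (h : ∀ p : ℕ, p.Prime → p ∉ S → ∀ j, (p : ℤ) ∣ N j → ¬ (p : ℤ) ∣ G j → ∃ D : ℕ,
      D ∣ p ^ Module.finrank ℚ L ∧ D ∣ (discr L).natAbs ∧
      Module.finrank ℚ L * (c j p * Real.log p) ≤ Real.log D + X p) :
    ∃ T : Finset ℕ, (∀ p ∈ T, p.Prime ∧ p ∉ S ∧ ∃ j, (p : ℤ) ∣ N j ∧ ¬ (p : ℤ) ∣ G j) ∧
      ∑ j, ∑ p ∈ (N j).natAbs.primeFactors, c j p * Real.log p -
        ∑ j, Real.log (rd (Int.gcd (N j) (G j))) ≤
      ld L + (∑ p ∈ T, X p) / Module.finrank ℚ L + ∑ p ∈ S, Real.log p := by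
  classical
  have hn : 0 < Module.finrank ℚ L := Module.finrank_pos
  have hn0 : (0 : ℝ) < Module.finrank ℚ L := by exact_mod_cast hn
  have hN0 : ∀ j, (N j).natAbs ≠ 0 := fun j => Int.natAbs_ne_zero.2 (hN j)
  set A : Fin q → Finset ℕ := fun j => (N j).natAbs.primeFactors.filter
    fun p => ¬ (p : ℤ) ∣ G j with hA
  set t : Fin q → ℕ → ℝ := fun j p => c j p * Real.log p with ht
  have ht0 : ∀ j (p : ℕ), 0 ≤ t j p := fun j p => mul_nonneg (hc0 j p) (Real.log_natCast_nonneg p)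
  have ht1 : ∀ j (p : ℕ), t j p ≤ Real.log p := fun j p =>
    mul_le_of_le_one_left (Real.log_natCast_nonneg p) (hc1 j p)
  -- the primes in `A j` divide only `N j`
  have hAonly : ∀ j p, p ∈ A j → ∀ i, i ≠ j → ¬ (p : ℤ) ∣ N i := by
    intro j p hp i hij hpi
    rw [hA, Finset.mem_filter] at hp
    exact hp.2 (hpi.trans (hG i j hij))
  have hAdvd : ∀ j p, p ∈ A j → p.Prime ∧ (p : ℤ) ∣ N j ∧ ¬ (p : ℤ) ∣ G j := by
    intro j p hp
    rw [hA, Finset.mem_filter] at hp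
    exact ⟨Nat.prime_of_mem_primeFactors hp.1,
      Int.natCast_dvd.2 (Nat.dvd_of_mem_primeFactors hp.1), hp.2⟩
  have hdisj : ∀ j i, j ≠ i → Disjoint (A j) (A i) := by
    intro j i hji
    rw [Finset.disjoint_left]
    intro p hpj hpi
    exact hAonly j p hpj i (Ne.symm hji) (hAdvd i p hpi).2.1
  -- the common primes
  have hsplit : ∀ j, ∑ p ∈ (N j).natAbs.primeFactors, t j p ≤
      ∑ p ∈ A j, t j p + Real.log (rd (Int.gcd (N j) (G j))) := by
    intro j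
    have h1 : ∑ p ∈ (N j).natAbs.primeFactors, t j p = ∑ p ∈ A j, t j p +
        ∑ p ∈ (N j).natAbs.primeFactors.filter (fun p : ℕ => ¬ ¬ (p : ℤ) ∣ G j), t j p := by
      rw [hA, Finset.sum_filter_add_sum_filter_not]
    rw [h1]
    refine add_le_add le_rfl ?_
    rw [log_rd]
    refine (Finset.sum_le_sum fun p _ => ht1 j p).trans ?_
    refine Finset.sum_le_sum_of_subset_of_nonneg ?_ fun p _ _ => Real.log_natCast_nonneg p
    intro p hp
    rw [Finset.mem_filter, not_not] at hp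
    have hg0 : Int.gcd (N j) (G j) ≠ 0 := fun h => hN j (Int.gcd_eq_zero_iff.1 h).1
    refine Nat.mem_primeFactors.2 ⟨Nat.prime_of_mem_primeFactors hp.1, ?_, hg0⟩
    exact Nat.dvd_gcd (Nat.dvd_of_mem_primeFactors hp.1) (Int.natCast_dvd.1 hp.2)
  have h1 : ∑ j, ∑ p ∈ (N j).natAbs.primeFactors, t j p -
      ∑ j, Real.log (rd (Int.gcd (N j) (G j))) ≤ ∑ j, ∑ p ∈ A j, t j p := by
    rw [sub_le_iff_le_add, ← Finset.sum_add_distrib]
    exact Finset.sum_le_sum fun j _ => hsplit j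
  -- the primes in `S`
  have h2 : ∀ j, ∑ p ∈ A j, t j p = ∑ p ∈ A j \ S, t j p + ∑ p ∈ A j ∩ S, t j p := fun j => by
    rw [add_comm, Finset.sum_inter_add_sum_sdiff]
  have h3 : ∑ j, ∑ p ∈ A j ∩ S, t j p ≤ ∑ p ∈ S, Real.log p := by
    calc ∑ j, ∑ p ∈ A j ∩ S, t j p ≤ ∑ j, ∑ p ∈ A j ∩ S, Real.log p :=
          Finset.sum_le_sum fun j _ => Finset.sum_le_sum fun p _ => ht1 j p
      _ = ∑ p ∈ Finset.univ.biUnion fun j => A j ∩ S, Real.log p := by
          rw [Finset.sum_biUnion]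
          intro j _ i _ hji
          exact (hdisj j i hji).mono Finset.inter_subset_left Finset.inter_subset_left
      _ ≤ _ := by
          refine Finset.sum_le_sum_of_subset_of_nonneg ?_ fun p _ _ => Real.log_natCast_nonneg p
          intro p hp
          rw [Finset.mem_biUnion] at hp
          obtain ⟨j, -, hp⟩ := hp
          exact (Finset.mem_inter.1 hp).2
  -- the primes outside `S`
  set T : Finset ℕ := Finset.univ.biUnion fun j => A j \ S with hT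
  have hTmem : ∀ p ∈ T, ∃ j, p ∈ A j \ S := fun p hp => by
    rw [hT, Finset.mem_biUnion] at hp
    obtain ⟨j, -, hp⟩ := hp
    exact ⟨j, hp⟩
  refine ⟨T, fun p hp => ?_, ?_⟩
  · obtain ⟨j, hj⟩ := hTmem p hp
    rw [Finset.mem_sdiff] at hj
    exact ⟨(hAdvd j p hj.1).1, hj.2, j, (hAdvd j p hj.1).2⟩
  have hD : ∀ p ∈ T, ∃ D : ℕ, D ∣ p ^ Module.finrank ℚ L ∧ D ∣ (discr L).natAbs ∧
      ∀ j, p ∈ A j \ S → Module.finrank ℚ L * t j p ≤ Real.log D + X p := by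
    intro p hp
    obtain ⟨j, hj⟩ := hTmem p hp
    have hj' := Finset.mem_sdiff.1 hj
    obtain ⟨D, d1, d2, d3⟩ := h p (hAdvd j p hj'.1).1 hj'.2 j (hAdvd j p hj'.1).2.1
      (hAdvd j p hj'.1).2.2
    refine ⟨D, d1, d2, fun i hi => ?_⟩
    by_cases hij : i = j
    · rw [hij]
      exact d3
    · exact absurd (Finset.mem_sdiff.1 hi).1 (Finset.disjoint_left.1 (hdisj j i (Ne.symm hij)) hj'.1)
  choose! D hD1 hD2 hD3 using hD
  have hdisc0 : (discr L).natAbs ≠ 0 := Int.natAbs_ne_zero.2 (discr_ne_zero L)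
  have hdvd : ∏ p ∈ T, D p ∣ (discr L).natAbs := by
    refine Finset.prod_dvd_of_isRelPrime ?_ fun p hp => hD2 p hp
    intro p hp q hq hpq
    have hpp : p.Prime := by
      obtain ⟨j, hj⟩ := hTmem p hp
      exact (hAdvd j p (Finset.mem_sdiff.1 hj).1).1
    have hqq : q.Prime := by
      obtain ⟨j, hj⟩ := hTmem q hq
      exact (hAdvd j q (Finset.mem_sdiff.1 hj).1).1
    have h1 : Nat.Coprime (p ^ Module.finrank ℚ L) (q ^ Module.finrank ℚ L) :=
      Nat.Coprime.pow _ _ ((Nat.coprime_primes hpp hqq).2 hpq)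
    exact Nat.coprime_iff_isRelPrime.1
      ((h1.coprime_dvd_left (hD1 p hp)).coprime_dvd_right (hD1 q hq))
  have hD0 : ∀ p ∈ T, D p ≠ 0 := by
    intro p hp h0
    have h1 := hD2 p hp
    rw [h0, zero_dvd_iff] at h1
    exact hdisc0 h1
  have h5 : ∑ p ∈ T, Real.log (D p) ≤ Real.log |(discr L : ℝ)| := by
    have h2 : ((∏ p ∈ T, D p : ℕ) : ℝ) ≤ |(discr L : ℝ)| := by
      have h3 := Nat.le_of_dvd (Nat.pos_of_ne_zero hdisc0) hdvd
      have h4 : (((discr L).natAbs : ℕ) : ℝ) = |(discr L : ℝ)| := by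
        rw [Nat.cast_natAbs, Int.cast_abs]
      rw [← h4]
      exact_mod_cast h3
    have h3 : (0 : ℝ) < ((∏ p ∈ T, D p : ℕ) : ℝ) := by
      exact_mod_cast Nat.pos_of_ne_zero (Finset.prod_ne_zero_iff.2 hD0)
    have h4 := Real.log_le_log h3 h2
    refine le_trans (le_of_eq ?_) h4
    push_cast
    rw [Real.log_prod]
    intro p hp
    exact_mod_cast hD0 p hp
  have h6 : Module.finrank ℚ L * ∑ j, ∑ p ∈ A j \ S, t j p ≤
      ∑ p ∈ T, (Real.log (D p) + X p) := by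
    rw [Finset.mul_sum, hT, Finset.sum_biUnion]
    · refine Finset.sum_le_sum fun j _ => ?_
      rw [Finset.mul_sum]
      refine Finset.sum_le_sum fun p hp => ?_
      exact hD3 p (by
        rw [hT, Finset.mem_biUnion]
        exact ⟨j, Finset.mem_univ j, hp⟩) j hp
    · intro j _ i _ hji
      exact (hdisj j i hji).mono Finset.sdiff_subset Finset.sdiff_subset
  rw [Finset.sum_add_distrib] at h6
  have h7 : ∑ j, ∑ p ∈ A j \ S, t j p ≤ ld L + (∑ p ∈ T, X p) / Module.finrank ℚ L := by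
    unfold ld
    rw [← add_div, le_div_iff₀ hn0, mul_comm]
    linarith
  calc _ ≤ ∑ j, ∑ p ∈ A j, t j p := h1
    _ = ∑ j, ∑ p ∈ A j \ S, t j p + ∑ j, ∑ p ∈ A j ∩ S, t j p := by
        rw [← Finset.sum_add_distrib]
        exact Finset.sum_congr rfl fun j _ => h2 j
    _ ≤ _ := add_le_add h7 h3

/-- the order of an integer at a prime above `p` -/
theorem od_int {L : Type} [Field L] [NumberField L] (w : HeightOneSpectrum (𝓞 L)) {p : ℕ}
    (hp : p.Prime) (hpw : (p : 𝓞 L) ∈ w.asIdeal) (N : ℤ) (hN : N ≠ 0) :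
    od w (N : L) = N.natAbs.factorization p * od w ((p : 𝓞 L) : L) := by
  have hunit : ∀ z : ℤ, ¬ (p : ℤ) ∣ z → od w (z : L) = 0 := by
    intro z hz
    refine od_int_zero w fun hzw => ?_
    have h1 : IsCoprime (p : ℤ) z := (Nat.prime_iff_prime_int.1 hp).coprime_iff_not_dvd.2 hz
    obtain ⟨u, v, huv⟩ := h1
    apply w.isPrime.ne_top
    rw [Ideal.eq_top_iff_one]
    have h2 : (1 : 𝓞 L) = (u : 𝓞 L) * (p : 𝓞 L) + (v : 𝓞 L) * (z : 𝓞 L) := by
      have := congrArg (fun m : ℤ => (m : 𝓞 L)) huv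
      push_cast at this
      exact this.symm
    rw [h2]
    exact Ideal.add_mem _ (Ideal.mul_mem_left _ _ hpw) (Ideal.mul_mem_left _ _ hzw)
  obtain ⟨v, hv⟩ : ∃ v, v = N.natAbs.factorization p := ⟨_, rfl⟩
  have hN0 : N.natAbs ≠ 0 := Int.natAbs_ne_zero.2 hN
  obtain ⟨r, hr⟩ : ∃ r : ℕ, N.natAbs = p ^ v * r :=
    ⟨N.natAbs / p ^ v, by rw [hv]; exact (Nat.ordProj_mul_ordCompl_eq_self _ p).symm⟩
  have hpr : ¬ p ∣ r := by
    intro hpr
    have h1 : p ^ (v + 1) ∣ N.natAbs := by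
      rw [hr, pow_succ]
      exact Nat.mul_dvd_mul_left _ hpr
    have h2 := (hp.pow_dvd_iff_le_factorization hN0).1 h1
    omega
  have hr0 : r ≠ 0 := by
    rintro rfl
    exact hpr (dvd_zero _)
  obtain ⟨σ, hσ, hNσ⟩ : ∃ σ : ℤ, ¬ (p : ℤ) ∣ σ ∧ N = (p : ℤ) ^ v * σ := by
    rcases Int.natAbs_eq N with h | h
    · refine ⟨r, fun h1 => hpr (Int.natCast_dvd_natCast.1 h1), ?_⟩
      rw [h, hr]
      push_cast
      ring
    · refine ⟨-r, fun h1 => hpr (Int.natCast_dvd_natCast.1 ((dvd_neg).1 h1)), ?_⟩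
      rw [h, hr]
      push_cast
      ring
  have hσ0 : (σ : L) ≠ 0 := by
    have : σ ≠ 0 := by
      rintro rfl
      exact hσ (dvd_zero _)
    exact_mod_cast this
  have hpL : ((p : ℤ) : L) ≠ 0 := by exact_mod_cast hp.ne_zero
  have hpL' : ((p : ℤ) : L) = ((p : 𝓞 L) : L) := by push_cast; rfl
  rw [← hv]
  conv_lhs => rw [hNσ]
  rw [Int.cast_mul, Int.cast_pow, od_mul w (pow_ne_zero _ hpL) hσ0, od_pow, hunit σ hσ,
    add_zero, hpL']

end Pool.Agent.D0H41.OC
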