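import Mathlib
import Pool.Agent.D0H41.OC.Alg
import Pool.Agent.D0H41.OC.Aff
import Pool.Agent.D0H41.OC.Vp
import Pool.Agent.D0H41.OC.Gen

/-! # Covers with uniform ramification -/

set_option autoImplicit false

namespace Pool.Agent.D0H41.OC

open MvPolynomial NumberField IsDedekindDomain
open Pool.Agent.H813R3.Voj (rd)
open Pool.Agent.N459.AC (ev_int AInt above)

variable {n : ℕ}

/-- the primes of a finite set of places -/
theorem finite_primes (P : HeightOneSpectrum (𝓞 ℚ) → Prop)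
    (h : ∀ᶠ v : HeightOneSpectrum (𝓞 ℚ) in Filter.cofinite, P v) :
    ∃ Bad : Finset ℕ, ∀ p : ℕ, ∀ hp : p.Prime, p ∉ Bad → P (vp hp) := by
  classical
  rw [Filter.eventually_cofinite] at h
  refine ⟨h.toFinset.image fun v => Ideal.absNorm v.asIdeal, fun p hp hpB => ?_⟩
  by_contra hcon
  apply hpB
  rw [Finset.mem_image]
  exact ⟨vp hp, (Set.Finite.mem_toFinset _).2 hcon, absNorm_vp hp⟩

theorem mk_crd {p : ℕ} (hp : p.Prime) {x : Fin (n + 1) → ℤ} (hx0 : ¬ (p : ℤ) ∣ x 0) (i : Fin n) :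
    FinitePlace.mk (vp hp) (crd x i) ≤ 1 := by
  unfold crd
  rw [map_div₀, mk_vp_eq_one hp hx0, div_one]
  exact mk_vp_le hp _

theorem algQ {L : Type} [Field L] [NumberField L] (z : ℤ) : algebraMap ℚ L (z : ℚ) = (z : L) :=
  map_intCast _ _

/-- the order of the value of the affine equation -/
theorem od_aff {F : MvPolynomial (Fin (n + 1)) ℤ} {κ : ℕ} (hF : F.IsHomogeneous κ)
    {p : ℕ} (hp : p.Prime) {x : Fin (n + 1) → ℤ} (hx0 : ¬ (p : ℤ) ∣ x 0) (hFx : eval x F ≠ 0)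
    {L : Type} [Field L] [NumberField L] (w : HeightOneSpectrum (𝓞 L))
    (hpw : (p : 𝓞 L) ∈ w.asIdeal) :
    algebraMap ℚ L (eval (crd x) (aff F)) ≠ 0 ∧
    od w (algebraMap ℚ L (eval (crd x) (aff F))) =
      (eval x F).natAbs.factorization p * od w ((p : 𝓞 L) : L) := by
  have hx : x 0 ≠ 0 := by
    rintro h
    rw [h] at hx0
    exact hx0 (dvd_zero _)
  have h1 := aff_eval hF hx
  have h2 := congrArg (algebraMap ℚ L) h1
  rw [map_mul, map_pow, algQ, algQ] at h2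
  have hF0 : ((eval x F : ℤ) : L) ≠ 0 := by exact_mod_cast hFx
  have hx0' : (x 0 : L) ≠ 0 := by exact_mod_cast hx
  have h3 : algebraMap ℚ L (eval (crd x) (aff F)) ≠ 0 := by
    intro h0
    rw [h0, mul_zero] at h2
    exact hF0 h2
  refine ⟨h3, ?_⟩
  have h4 := congrArg (od w) h2
  rw [od_mul w (pow_ne_zero _ hx0') h3, od_pow, od_int w hp hpw _ hFx, od_int w hp hpw _ hx,
    Nat.factorization_eq_zero_of_not_dvd (fun h => hx0 (Int.natCast_dvd.2 h)), Nat.cast_zero,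
    zero_mul, mul_zero, zero_add] at h4
  exact h4.symm

/-- **One component.** -/
theorem one_uni (A : Type) [CommRing A] [IsDomain A] [IsIntegrallyClosed A]
    [Algebra (MvPolynomial (Fin n) ℚ) A] [FaithfulSMul (MvPolynomial (Fin n) ℚ) A]
    [Module.Finite (MvPolynomial (Fin n) ℚ) A] {F : MvPolynomial (Fin (n + 1)) ℤ} {κ : ℕ}
    (hF : F.IsHomogeneous κ) (haff : Irreducible (aff F)) (e : ℕ) (he : 1 ≤ e)
    (h : RamDvd A (aff F) e) :
    ∃ (H : MvPolynomial (Fin (n + 1)) ℤ) (E : ℕ) (Bad : Finset ℕ), H.IsHomogeneous E ∧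
      ¬ aff F ∣ aff H ∧ ∀ p : ℕ, p.Prime → p ∉ Bad → ∀ x : Fin (n + 1) → ℤ,
      ¬ (p : ℤ) ∣ x 0 → ¬ (p : ℤ) ∣ eval x H → eval x F ≠ 0 →
      ∀ (L : Type) [Field L] [NumberField L] (ψ : A →+* L),
        (∀ f : MvPolynomial (Fin n) ℚ, ψ (algebraMap (MvPolynomial (Fin n) ℚ) A f) =
          algebraMap ℚ L (eval (crd x) f)) →
        ∀ w : HeightOneSpectrum (𝓞 L), (p : 𝓞 L) ∈ w.asIdeal →
          (p : 𝓞 L) ∈ w.asIdeal ^ (e / Nat.gcd e ((eval x F).natAbs.factorization p)) := by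
  classical
  obtain ⟨g, hg, u, u', ζ, hu, hu'⟩ := ramified (A := A) (aff F) haff.prime e he h
  obtain ⟨D, hD⟩ := exists_homZ g
  obtain ⟨H, a, ha, hH, hHg⟩ := hD D le_rfl
  have hint : ∀ b : A, IsIntegral (MvPolynomial (Fin n) ℚ) b := fun b =>
    Algebra.IsIntegral.isIntegral b
  obtain ⟨Bad, hBad⟩ := finite_primes (fun v => AInt (m := n) v u ∧ AInt (m := n) v u' ∧
    AInt (m := n) v ζ) ((ev_int (hint u)).and ((ev_int (hint u')).and (ev_int (hint ζ))))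
  refine ⟨H, D, Bad ∪ a.natAbs.primeFactors, hH, ?_, ?_⟩
  · intro hd
    rw [hHg] at hd
    have hu : IsUnit (C (a : ℚ) : MvPolynomial (Fin n) ℚ) :=
      IsUnit.map C (isUnit_iff_ne_zero.2 (by exact_mod_cast ha))
    exact hg ((hu.dvd_mul_left).1 hd)
  intro p hp hpB x hx0 hHx hFx L _ _ ψ hψ w hpw
  rw [Finset.mem_union, not_or] at hpB
  obtain ⟨b1, b2, b3⟩ := hBad p hp hpB.1
  have hpa : ¬ (p : ℤ) ∣ a := by
    intro hd
    apply hpB.2
    exact Nat.mem_primeFactors.2 ⟨hp, Int.natCast_dvd.1 hd, Int.natAbs_ne_zero.2 ha⟩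
  have hcrd := mk_crd hp hx0
  have habove := (above_vp hp w).2 hpw
  have hx : x 0 ≠ 0 := by
    rintro h
    rw [h] at hx0
    exact hx0 (dvd_zero _)
  have hH0 : eval x H ≠ 0 := by
    intro h0
    rw [h0] at hHx
    exact hHx (dvd_zero _)
  -- the orders
  have o1 := od_nonneg w (b1 L ψ (crd x) hψ hcrd w habove)
  have o2 := od_nonneg w (b2 L ψ (crd x) hψ hcrd w habove)
  have o3 := od_nonneg w (b3 L ψ (crd x) hψ hcrd w habove)
  obtain ⟨f0, f1⟩ := od_aff hF hp hx0 hFx w hpw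
  obtain ⟨g0, g1⟩ := od_aff hH hp hx0 hH0 w hpw
  rw [Nat.factorization_eq_zero_of_not_dvd (fun h => hHx (Int.natCast_dvd.2 h)), Nat.cast_zero,
    zero_mul, hHg, map_mul, map_mul, eval_C, algQ] at g1
  rw [hHg, map_mul, map_mul, eval_C, algQ] at g0
  have ha0 : (a : L) ≠ 0 := by exact_mod_cast ha
  have hg0 : algebraMap ℚ L (eval (crd x) g) ≠ 0 := right_ne_zero_of_mul g0
  have hga : od w (algebraMap ℚ L (eval (crd x) g)) = 0 := by
    rw [od_mul w ha0 hg0, od_int w hp hpw a ha,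
      Nat.factorization_eq_zero_of_not_dvd (fun h => hpa (Int.natCast_dvd.2 h)), Nat.cast_zero,
      zero_mul, zero_add] at g1
    exact g1
  have e1 := congrArg ψ hu'
  rw [map_mul, hψ] at e1
  have hu0 : ψ u * ψ u' ≠ 0 := by rw [← e1]; exact hg0
  have ou : od w (ψ u) = 0 := by
    refine od_unit w o1 o2 ?_ hu0
    rw [← e1]
    exact hga
  have e2 := congrArg ψ hu
  rw [map_mul (algebraMap (MvPolynomial (Fin n) ℚ) A), map_mul ψ, hψ, hψ, map_mul ψ, map_pow] at e2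
  have hζ0 : ψ ζ ^ e ≠ 0 := by
    intro h0
    rw [h0, mul_zero] at e2
    exact mul_ne_zero hg0 f0 e2
  have e3 := congrArg (od w) e2
  rw [od_mul w hg0 f0, hga, zero_add, od_mul w (left_ne_zero_of_mul hu0) hζ0, ou, zero_add, od_pow,
    f1] at e3
  obtain ⟨t, ht⟩ : ∃ t : ℕ, (t : ℤ) = od w ((p : 𝓞 L) : L) := by
    have := od_pos w (by exact_mod_cast hp.ne_zero) hpw
    exact ⟨(od w ((p : 𝓞 L) : L)).toNat, Int.toNat_of_nonneg (by omega)⟩
  have ht1 : 1 ≤ t := by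
    have := od_pos w (by exact_mod_cast hp.ne_zero) hpw
    omega
  obtain ⟨s, hs⟩ : ∃ s : ℕ, (s : ℤ) = od w (ψ ζ) := ⟨(od w (ψ ζ)).toNat, Int.toNat_of_nonneg o3⟩
  rw [← ht, ← hs] at e3
  have hdvd : e ∣ (eval x F).natAbs.factorization p * t := ⟨s, by exact_mod_cast e3⟩
  have h1 := Nat.le_of_dvd (by omega) (div_gcd_dvd he hdvd)
  refine mem_pow_of w (by exact_mod_cast hp.ne_zero) ?_
  rw [← ht]
  exact_mod_cast h1

/-- **The cover.** -/
theorem cover_uni (A : Type) [CommRing A] [IsDomain A] [IsIntegrallyClosed A]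
    [Algebra (MvPolynomial (Fin n) ℚ) A] [FaithfulSMul (MvPolynomial (Fin n) ℚ) A]
    [Module.Finite (MvPolynomial (Fin n) ℚ) A] {q : ℕ}
    (F : Fin q → MvPolynomial (Fin (n + 1)) ℤ) (κ e : Fin q → ℕ)
    (hF : ∀ j, (F j).IsHomogeneous (κ j)) (hirr : ∀ j, Irreducible (map (Int.castRingHom ℚ) (F j)))
    (haff : ∀ j, Irreducible (aff (F j)))
    (hdist : ∀ i j, i ≠ j →
      ¬ Associated (map (Int.castRingHom ℚ) (F i)) (map (Int.castRingHom ℚ) (F j)))
    (he : ∀ j, 1 ≤ e j) (h : ∀ j, RamDvd A (aff (F j)) (e j)) :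
    ∃ (H : Fin q → MvPolynomial (Fin (n + 1)) ℤ) (E : Fin q → ℕ) (C : ℝ),
      (∀ j, (H j).IsHomogeneous (E j)) ∧
      (∀ j, ¬ map (Int.castRingHom ℚ) (F j) ∣ map (Int.castRingHom ℚ) (H j)) ∧
      ∀ x : Fin (n + 1) → ℤ, (∀ j, eval x (F j) ≠ 0) →
      ∀ (L : Type) [Field L] [NumberField L] (ψ : A →+* L),
        (∀ f : MvPolynomial (Fin n) ℚ, ψ (algebraMap (MvPolynomial (Fin n) ℚ) A f) =
          algebraMap ℚ L (eval (crd x) f)) →
        ∑ j, dd (e j) (eval x (F j)).natAbs -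
          ∑ j, Real.log (rd (Int.gcd (eval x (F j)) (eval x (H j)))) - C ≤ ld L := by
  classical
  choose H₀ E₀ Bad hH₀ hdvd hmain using fun j => one_uni A (hF j) (haff j) (e j) (he j) (h j)
  obtain ⟨R, hR⟩ : ∃ R : Fin q → MvPolynomial (Fin (n + 1)) ℤ,
      ∀ j, R j = ∏ i ∈ Finset.univ.erase j, F i := ⟨_, fun _ => rfl⟩
  have hRh : ∀ j, (R j).IsHomogeneous (∑ i ∈ Finset.univ.erase j, κ i) := by
    intro j
    rw [hR]
    exact IsHomogeneous.prod _ _ _ fun i _ => hF i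
  obtain ⟨H, hH⟩ : ∃ H : Fin q → MvPolynomial (Fin (n + 1)) ℤ,
      ∀ j, H j = H₀ j * (X 0 * R j) := ⟨_, fun _ => rfl⟩
  refine ⟨H, fun j => E₀ j + (1 + ∑ i ∈ Finset.univ.erase j, κ i),
    ∑ p ∈ Finset.univ.biUnion Bad, Real.log p, ?_, ?_, ?_⟩
  · intro j
    rw [hH]
    exact (hH₀ j).mul ((isHomogeneous_X _ _).mul (hRh j))
  · intro j hd
    rw [hH, map_mul, map_mul, hR, map_prod] at hd
    rcases (hirr j).prime.dvd_or_dvd hd with h | h
    · exact hdvd j (aff_dvd h)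
    rcases (hirr j).prime.dvd_or_dvd h with h | h
    · have h1 := aff_dvd (F := F j) (G := X 0) h
      rw [aff_X0] at h1
      exact (haff j).not_isUnit (isUnit_of_dvd_one h1)
    · obtain ⟨i, hi, h3⟩ := ((hirr j).prime.dvd_finsetProd_iff _).1 h
      exact hdist j i (Finset.ne_of_mem_erase hi).symm ((hirr j).associated_of_dvd (hirr i) h3)
  intro x hFx L _ _ ψ hψ
  have hHx : ∀ j, eval x (H j) = eval x (H₀ j) * (x 0 * eval x (R j)) := by
    intro j
    rw [hH, map_mul, map_mul, eval_X]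
  have hfp : (0 : ℝ) < Module.finrank ℚ L := by exact_mod_cast (Module.finrank_pos (R := ℚ) (M := L))
  obtain ⟨T, -, hT⟩ := sum_le (L := L) (fun j => eval x (F j)) (fun j => eval x (H j)) hFx (by
    intro i j hij
    show eval x (F i) ∣ eval x (H j)
    rw [hHx, hR, map_prod]
    exact Dvd.dvd.mul_left (Dvd.dvd.mul_left (Finset.dvd_prod_of_mem _
      (Finset.mem_erase.2 ⟨hij, Finset.mem_univ i⟩)) _) _) (Finset.univ.biUnion Bad)
    (fun j p => 1 - (Nat.gcd (e j) ((eval x (F j)).natAbs.factorization p) : ℝ) / e j)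
    (fun j p => coef_nonneg (e j) _ (he j)) (fun j p => by
      have h1 : (0 : ℝ) ≤ (Nat.gcd (e j) ((eval x (F j)).natAbs.factorization p) : ℝ) / e j := by
        positivity
      linarith) (fun _ => 0) (by
    intro p hp hpB j hpF hpH
    rw [Finset.mem_biUnion] at hpB
    push Not at hpB
    have hpHx : ¬ (p : ℤ) ∣ eval x (H₀ j) * (x 0 * eval x (R j)) := by rw [← hHx]; exact hpH
    have hx0 : ¬ (p : ℤ) ∣ x 0 := fun h => hpHx (Dvd.dvd.mul_left (Dvd.dvd.mul_right h _) _)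
    have hHp : ¬ (p : ℤ) ∣ eval x (H₀ j) := fun h => hpHx (Dvd.dvd.mul_right h _)
    obtain ⟨D, d1, d2, d3⟩ := Pool.Agent.TH910.Voj.disc_part (K := L) hp
      (ν := e j / Nat.gcd (e j) ((eval x (F j)).natAbs.factorization p))
      (Nat.div_pos (Nat.le_of_dvd (he j) (Nat.gcd_dvd_left _ _)) (Nat.gcd_pos_of_pos_left _ (he j)))
      (by
        intro 𝔮 h𝔮 hp𝔮
        have hp0 : (p : 𝓞 L) ≠ 0 := by exact_mod_cast hp.ne_zero
        have h𝔮0 : 𝔮 ≠ ⊥ := by
          rintro rfl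
          exact hp0 ((Ideal.mem_bot).1 hp𝔮)
        exact hmain j p hp (hpB j (Finset.mem_univ j)) x hx0 hHp (hFx j) L ψ hψ ⟨𝔮, h𝔮, h𝔮0⟩ hp𝔮)
    refine ⟨D, d1, d2, ?_⟩
    rw [add_zero]
    obtain ⟨ν, hν⟩ : ∃ ν, ν = e j / Nat.gcd (e j) ((eval x (F j)).natAbs.factorization p) :=
      ⟨_, rfl⟩
    have hν1 : 1 ≤ ν := by
      rw [hν]
      exact Nat.div_pos (Nat.le_of_dvd (he j) (Nat.gcd_dvd_left _ _))
        (Nat.gcd_pos_of_pos_left _ (he j))
    have hνr : (Nat.gcd (e j) ((eval x (F j)).natAbs.factorization p) : ℝ) / e j = 1 / ν := by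
      rw [hν, Nat.cast_div (Nat.gcd_dvd_left _ _), one_div_div]
      exact_mod_cast (Nat.gcd_pos_of_pos_left _ (he j)).ne'
    show (Module.finrank ℚ L : ℝ) * ((1 - (Nat.gcd (e j) ((eval x (F j)).natAbs.factorization p) :
      ℝ) / e j) * Real.log p) ≤ Real.log D
    rw [hνr]
    rw [← hν] at d3
    have hν0 : (1 : ℝ) ≤ ν := by exact_mod_cast hν1
    have hp0 : (0 : ℝ) < p := by exact_mod_cast hp.pos
    have hD0 : D ≠ 0 := by
      rintro rfl
      rw [zero_dvd_iff] at d2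
      exact (Int.natAbs_ne_zero.2 (discr_ne_zero L)) d2
    have hDp : (0 : ℝ) < D := by exact_mod_cast Nat.pos_of_ne_zero hD0
    have h2 : ((p : ℝ)) ^ (Module.finrank ℚ L * (ν - 1)) ≤ (D : ℝ) ^ ν := by
      exact_mod_cast d3
    have h3 := Real.log_le_log (by positivity) h2
    rw [Real.log_pow, Real.log_pow] at h3
    push_cast [Nat.cast_sub hν1] at h3
    have h4 : (Module.finrank ℚ L : ℝ) * ((1 - 1 / (ν : ℝ)) * Real.log p) =
        ((Module.finrank ℚ L : ℝ) * (ν - 1) * Real.log p) / ν := by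
      field_simp
    rw [h4, div_le_iff₀ (by linarith), mul_comm (Real.log (D : ℝ))]
    exact h3)
  rw [Finset.sum_const_zero, zero_div, add_zero] at hT
  have hT' : ∑ j, dd (e j) (eval x (F j)).natAbs -
      ∑ j, Real.log (rd (Int.gcd (eval x (F j)) (eval x (H j)))) ≤
      ld L + ∑ p ∈ Finset.univ.biUnion Bad, Real.log p := hT
  linarith

end Pool.Agent.D0H41.OC
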