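import Mathlib
import Pool.Agent.D0H41.OC.Uni
import Pool.Agent.D0H41.OC.Mass

/-! # More on the places of the rational numbers -/

set_option autoImplicit false

namespace Pool.Agent.D0H41.OC

open NumberField IsDedekindDomain MvPolynomial
open Pool.Agent.N459.AC
open Pool.Agent.N747.AC (mk_eq val_le_one)

theorem mk_vp_self {p : ℕ} (hp : p.Prime) : FinitePlace.mk (vp hp) (p : ℚ) = (p : ℝ)⁻¹ := by
  have h : (((p : ℕ) : 𝓞 ℚ) : ℚ) = (p : ℚ) := by push_cast; rfl
  have hp0 : ((p : ℕ) : 𝓞 ℚ) ≠ 0 := (prime_cast hp).ne_zero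
  rw [← h, mk_eq, HeightOneSpectrum.valuation_of_algebraMap,
    HeightOneSpectrum.intValuation_singleton (vp hp) hp0 rfl]
  have e : (WithZero.exp (-1 : ℤ) : WithZero (Multiplicative ℤ)) =
      ((Multiplicative.ofAdd (-1 : ℤ) : Multiplicative ℤ) : WithZero (Multiplicative ℤ)) := rfl
  rw [e, WithZeroMulInt.toNNReal_neg_apply _ WithZero.coe_ne_zero, WithZero.unzero_coe,
    toAdd_ofAdd, zpow_neg, zpow_one]
  push_cast
  rw [absNorm_vp hp]

theorem mk_vp_int {p : ℕ} (hp : p.Prime) {z : ℤ} (hz : z ≠ 0) :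
    FinitePlace.mk (vp hp) (z : ℚ) = ((p : ℝ) ^ z.natAbs.factorization p)⁻¹ := by
  obtain ⟨v, hv⟩ : ∃ v, v = z.natAbs.factorization p := ⟨_, rfl⟩
  have hN0 : z.natAbs ≠ 0 := Int.natAbs_ne_zero.2 hz
  obtain ⟨r, hr⟩ : ∃ r : ℕ, z.natAbs = p ^ v * r :=
    ⟨z.natAbs / p ^ v, by rw [hv]; exact (Nat.ordProj_mul_ordCompl_eq_self _ p).symm⟩
  have hpr : ¬ p ∣ r := by
    intro hpr
    have h1 : p ^ (v + 1) ∣ z.natAbs := by
      rw [hr, pow_succ]
      exact Nat.mul_dvd_mul_left _ hpr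
    have h2 := (hp.pow_dvd_iff_le_factorization hN0).1 h1
    omega
  obtain ⟨σ, hσ, hNσ⟩ : ∃ σ : ℤ, ¬ (p : ℤ) ∣ σ ∧ z = (p : ℤ) ^ v * σ := by
    rcases Int.natAbs_eq z with h | h
    · refine ⟨r, fun h1 => hpr (Int.natCast_dvd_natCast.1 h1), ?_⟩
      rw [h, hr]
      push_cast
      ring
    · refine ⟨-r, fun h1 => hpr (Int.natCast_dvd_natCast.1 ((dvd_neg).1 h1)), ?_⟩
      rw [h, hr]
      push_cast
      ring
  rw [← hv]
  have h1 : (z : ℚ) = (p : ℚ) ^ v * (σ : ℚ) := by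
    rw [hNσ]
    push_cast
    rfl
  rw [h1, map_mul, map_pow, mk_vp_self hp, mk_vp_eq_one hp hσ, mul_one, inv_pow]

variable {L : Type} [Field L] [NumberField L]

theorem mk_of_od_zero (w : HeightOneSpectrum (𝓞 L)) {a : L} (ha : a ≠ 0) (h : od w a = 0) :
    FinitePlace.mk w a = 1 := by
  unfold od at h
  have h0 : w.valuation L a ≠ 0 := (Valuation.ne_zero_iff _).2 ha
  have h1 : w.valuation L a = 1 := by
    have h2 : WithZero.log (w.valuation L a) = 0 := by omega
    rw [← WithZero.exp_log h0, h2, WithZero.exp_zero]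
  rw [mk_eq, h1, map_one]
  rfl

theorem od_pos_of_mk (w : HeightOneSpectrum (𝓞 L)) {a : L} (ha : a ≠ 0)
    (h : FinitePlace.mk w a < 1) : 1 ≤ od w a := by
  have h1 := od_nonneg w h.le
  by_contra hcon
  have h2 : od w a = 0 := by omega
  rw [mk_of_od_zero w ha h2] at h
  exact lt_irrefl _ h

theorem mk_lt_of_od_pos (w : HeightOneSpectrum (𝓞 L)) {a : L} (hle : FinitePlace.mk w a ≤ 1)
    (h : 1 ≤ od w a) : FinitePlace.mk w a < 1 := by
  rcases hle.lt_or_eq with h1 | h1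
  · exact h1
  · rw [od_zero_of_mk w h1] at h
    omega

/-- a product of integral elements is a unit only if the factors are -/
theorem mk_prod_one (v : FinitePlace L) {a b : L} (ha : v a ≤ 1) (hb : v b ≤ 1)
    (h : v (a * b) = 1) : v a = 1 ∧ v b = 1 := by
  rw [map_mul] at h
  have h1 : 0 ≤ v a := apply_nonneg _ _
  have h2 : 0 ≤ v b := apply_nonneg _ _
  constructor
  · refine le_antisymm ha ?_
    rw [← h]
    exact mul_le_of_le_one_right h1 hb
  · refine le_antisymm hb ?_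
    rw [← h]
    exact mul_le_of_le_one_left h2 ha

theorem lt_one_finite {a : L} (ha : a ≠ 0) :
    {w : HeightOneSpectrum (𝓞 L) | FinitePlace.mk w a < 1}.Finite := by
  have h1 : (Function.mulSupport fun w : FinitePlace L => w a).Finite :=
    FinitePlace.hasFiniteMulSupport ha
  have h2 : (FinitePlace.mk ⁻¹' (Function.mulSupport fun w : FinitePlace L => w a)).Finite :=
    h1.preimage (fun v _ w _ h => FinitePlace.mk_eq_iff.1 h)
  refine h2.subset fun v hv => ?_
  intro h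
  have hv' : FinitePlace.mk v a < 1 := hv
  have h' : FinitePlace.mk v a = 1 := h
  rw [h'] at hv'
  exact lt_irrefl _ hv'

end Pool.Agent.D0H41.OC
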