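import Mathlib
import Pool.Agent.D0H41.OC.Loc2
import Pool.Agent.D0H41.OC.Vp2

/-! # One component of the branch divisor of a cover -/

set_option autoImplicit false

namespace Pool.Agent.D0H41.OC

open MvPolynomial NumberField IsDedekindDomain
open Pool.Agent.N459.AC
open Pool.Agent.N747.AC (mk_eq val_le_one)

variable {n : ℕ}

/-- **One component**, points of full degree. -/
theorem one_gencov (A : Type) [CommRing A] [IsDomain A] [IsIntegrallyClosed A]
    [Algebra (MvPolynomial (Fin n) ℚ) A] [FaithfulSMul (MvPolynomial (Fin n) ℚ) A]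
    [Module.Finite (MvPolynomial (Fin n) ℚ) A] {N : ℕ}
    (hN : Module.finrank (MvPolynomial (Fin n) ℚ) A = N) (Y : Finset A)
    {F : MvPolynomial (Fin (n + 1)) ℤ} {κ : ℕ}
    (hF : F.IsHomogeneous κ) (haff : Irreducible (aff F)) {q : ℕ} (𝔮 : Fin q → Ideal A)
    (h𝔮 : ∀ c, (𝔮 c).IsPrime)
    (hover : ∀ c, (𝔮 c).comap (algebraMap (MvPolynomial (Fin n) ℚ) A) = Ideal.span {aff F})
    (hinj𝔮 : Function.Injective 𝔮)
    (hall : ∀ 𝔭 : Ideal A, 𝔭.IsPrime →
      𝔭.comap (algebraMap (MvPolynomial (Fin n) ℚ) A) = Ideal.span {aff F} → ∃ c, 𝔭 = 𝔮 c)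
    (e d : Fin q → ℕ) (he : ∀ c, RamIdx (aff F) (𝔮 c) (e c))
    (hd : ∀ c, ResDeg (aff F) (𝔮 c) (d c)) (hsum : ∑ c, e c * d c = N) :
    ∃ (H : MvPolynomial (Fin (n + 1)) ℤ) (E : ℕ) (Bad : Finset ℕ), H.IsHomogeneous E ∧
      ¬ aff F ∣ aff H ∧ ∀ p : ℕ, p.Prime → p ∉ Bad → ∀ x : Fin (n + 1) → ℤ,
      ¬ (p : ℤ) ∣ x 0 → ¬ (p : ℤ) ∣ eval x H → eval x F ≠ 0 → (p : ℤ) ∣ eval x F →
      ∀ (L : Type) [Field L] [NumberField L] (ψ : A →+* L),
        (∀ f : MvPolynomial (Fin n) ℚ, ψ (algebraMap (MvPolynomial (Fin n) ℚ) A f) =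
          algebraMap ℚ L (eval (crd x) f)) → Function.Surjective ψ → Module.finrank ℚ L = N →
        ∀ (inD : Fin q → Prop) [DecidablePred inD], (∀ c, inD c → ∀ y ∈ Y, y ∈ 𝔮 c) →
        ∀ Wd : Finset (HeightOneSpectrum (𝓞 L)),
          (∀ w : HeightOneSpectrum (𝓞 L), (p : 𝓞 L) ∈ w.asIdeal →
            (∀ y ∈ Y, FinitePlace.mk w (ψ y) < 1) → w ∈ Wd) →
        ∃ D : ℕ, D ∣ p ^ Module.finrank ℚ L ∧ D ∣ (discr L).natAbs ∧
          ∑ c, ((e c * d c : ℕ) : ℝ) * (if inD c then 1 else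
            1 - (Nat.gcd (e c) ((eval x F).natAbs.factorization p) : ℝ) / e c) * Real.log p ≤
          Real.log D + ∑ w ∈ Wd, Real.log (Ideal.absNorm w.asIdeal) := by
  classical
  obtain ⟨R, hR⟩ : ∃ R, R = MvPolynomial (Fin n) ℚ := ⟨_, rfl⟩
  have hFp : Prime (aff F) := haff.prime
  have he1 : ∀ c, 1 ≤ e c := by
    intro c
    obtain ⟨π, hπ, -, s, s', hs, hs', h⟩ := he c
    by_contra hcon
    have h0 : e c = 0 := by omega
    rw [h0, pow_zero, mul_one] at h
    apply hs'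
    rw [← h]
    refine Ideal.mul_mem_left _ _ ?_
    have h1 : aff F ∈ (𝔮 c).comap (algebraMap (MvPolynomial (Fin n) ℚ) A) := by
      rw [hover c]
      exact Ideal.mem_span_singleton_self _
    exact h1
  obtain ⟨ζ, g, g₁, u, u', ω, M, hg, hg1, hrel, huu, hcop, hmul, hdet, hspan, hY⟩ :=
    local_data2 (aff F) hFp Y N hN 𝔮 h𝔮 hover hinj𝔮 hall e d he hd
  -- the determinants
  have hdet' : ∀ c, ∃ (t : ℕ) (h : MvPolynomial (Fin n) ℚ), t ≤ d c ∧ ¬ aff F ∣ h ∧
      (M c).det = aff F ^ t * h := by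
    intro c
    have h0 : (M c).det ≠ 0 := by
      intro h
      apply hdet c
      rw [h]
      exact dvd_zero _
    obtain ⟨h, h1, h2⟩ := (FiniteMultiplicity.of_prime_left hFp h0).exists_eq_pow_mul_and_not_dvd
    refine ⟨_, h, ?_, h2, h1⟩
    by_contra hcon
    apply hdet c
    rw [h1]
    exact Dvd.dvd.mul_right (pow_dvd_pow _ (by omega)) _
  choose t h ht hh hMt using hdet'
  choose ca cb hcab using hcop
  obtain ⟨g₂, hg2⟩ := hg1
  choose k hk using hY
  obtain ⟨G, hG⟩ : ∃ G, G = g * ∏ c, h c := ⟨_, rfl⟩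
  have hGF : ¬ aff F ∣ G := by
    intro hd
    rw [hG] at hd
    rcases hFp.dvd_or_dvd hd with h1 | h1
    · exact hg h1
    · obtain ⟨c, -, h2⟩ := (hFp.dvd_finsetProd_iff _).1 h1
      exact hh c h2
  obtain ⟨E, hE⟩ := exists_homZ G
  obtain ⟨H, a, ha, hH, hHG⟩ := hE E le_rfl
  have hint : ∀ b : A, IsIntegral (MvPolynomial (Fin n) ℚ) b := fun b =>
    Algebra.IsIntegral.isIntegral b
  -- the finitely many bad primes
  obtain ⟨Bad, hBad⟩ := finite_primes (fun v =>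
    ((∀ c, AInt (m := n) v (ζ c)) ∧ AInt (m := n) v u ∧ AInt (m := n) v u') ∧
    ((∀ c c' (hc : c ≠ c'), AInt (m := n) v (ca c c' hc) ∧ AInt (m := n) v (cb c c' hc)) ∧
    ∀ c (y : Y) (hy : (y : A) ∈ 𝔮 c), AInt (m := n) v (k c y y.2 hy)) ∧
    ((∀ z : Fin n → ℚ, (∀ i, FinitePlace.mk v (z i) ≤ 1) → FinitePlace.mk v (eval z g₁) ≤ 1) ∧
    (∀ z : Fin n → ℚ, (∀ i, FinitePlace.mk v (z i) ≤ 1) → FinitePlace.mk v (eval z g₂) ≤ 1) ∧
    (∀ c, ∀ z : Fin n → ℚ, (∀ i, FinitePlace.mk v (z i) ≤ 1) →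
      FinitePlace.mk v (eval z (h c)) ≤ 1))) (by
    refine Filter.Eventually.and (Filter.Eventually.and ?_ (Filter.Eventually.and ?_ ?_))
      (Filter.Eventually.and (Filter.Eventually.and ?_ ?_) (Filter.Eventually.and ?_
        (Filter.Eventually.and ?_ ?_)))
    · exact Filter.eventually_all.2 fun c => ev_int (hint _)
    · exact ev_int (hint _)
    · exact ev_int (hint _)
    · refine Filter.eventually_all.2 fun c => Filter.eventually_all.2 fun c' => ?_
      by_cases hc : c = c'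
      · exact Filter.Eventually.of_forall fun v hc' => absurd hc hc'
      · filter_upwards [ev_int (hint (ca c c' hc)), ev_int (hint (cb c c' hc))] with v h1 h2 _
        exact ⟨h1, h2⟩
    · refine Filter.eventually_all.2 fun c => Filter.eventually_all.2 fun y => ?_
      by_cases hy : (y : A) ∈ 𝔮 c
      · filter_upwards [ev_int (hint (k c y y.2 hy))] with v h1 _
        exact h1
      · exact Filter.Eventually.of_forall fun v hy' => absurd hy' hy
    · exact ev_poly _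
    · exact ev_poly _
    · exact Filter.eventually_all.2 fun c => ev_poly _)
  refine ⟨H, E, Bad ∪ a.natAbs.primeFactors, hH, ?_, ?_⟩
  · intro hd
    rw [hHG] at hd
    have hu : IsUnit (C (a : ℚ) : MvPolynomial (Fin n) ℚ) :=
      IsUnit.map C (isUnit_iff_ne_zero.2 (by exact_mod_cast ha))
    exact hGF ((hu.dvd_mul_left).1 hd)
  intro p hp hpB x hx0 hHx hFx hpF L _ _ ψ hψ hsurj hL inD _ hinD Wd hWd
  rw [Finset.mem_union, not_or] at hpB
  obtain ⟨⟨b1, b2, b3⟩, ⟨b4, b5⟩, b6, b7, b8⟩ := hBad p hp hpB.1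
  have hpa : ¬ (p : ℤ) ∣ a := by
    intro hd
    apply hpB.2
    exact Nat.mem_primeFactors.2 ⟨hp, Int.natCast_dvd.1 hd, Int.natAbs_ne_zero.2 ha⟩
  have hcrd := mk_crd hp hx0
  have hx : x 0 ≠ 0 := by
    rintro h
    rw [h] at hx0
    exact hx0 (dvd_zero _)
  obtain ⟨μ, hμ⟩ : ∃ μ, μ = (eval x F).natAbs.factorization p := ⟨_, rfl⟩
  have hμ1 : 1 ≤ μ := by
    rw [hμ]
    exact hp.factorization_pos_of_dvd (Int.natAbs_ne_zero.2 hFx) (Int.natCast_dvd.1 hpF)
  -- values at `p`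
  obtain ⟨z, hz⟩ : ∃ z, z = crd x := ⟨_, rfl⟩
  rw [← hz] at hψ hcrd
  have hvG : FinitePlace.mk (vp hp) (eval z G) = 1 := by
    have h1 := congrArg (FinitePlace.mk (vp hp)) (aff_eval hH hx)
    rw [mk_vp_eq_one hp hHx, map_mul, map_pow, mk_vp_eq_one hp hx0, one_pow, one_mul, hHG,
      map_mul, eval_C, map_mul, mk_vp_eq_one hp hpa, one_mul, ← hz] at h1
    exact h1.symm
  have hvg12 := b6 z hcrd
  have hvg2 := b7 z hcrd
  have hvh := fun c => b8 c z hcrd
  have hvg' : FinitePlace.mk (vp hp) (eval z g) ≤ 1 := by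
    rw [hg2, map_mul, map_mul]
    exact mul_le_one₀ hvg12 (apply_nonneg _ _) hvg2
  have hvprod : ∀ s : Finset (Fin q), FinitePlace.mk (vp hp) (eval z (∏ c ∈ s, h c)) ≤ 1 := by
    intro s
    rw [map_prod, map_prod]
    exact Finset.prod_le_one (fun c _ => apply_nonneg _ _) fun c _ => hvh c
  have hsp := mk_prod_one (FinitePlace.mk (vp hp)) hvg' (hvprod Finset.univ) (by
    rw [← map_mul, ← hG]
    exact hvG)
  have hvg : FinitePlace.mk (vp hp) (eval z g) = 1 := hsp.1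
  have hvh1 : ∀ c, FinitePlace.mk (vp hp) (eval z (h c)) = 1 := by
    intro c
    have h1 := hsp.2
    rw [← Finset.mul_prod_erase _ _ (Finset.mem_univ c), map_mul] at h1
    exact (mk_prod_one (FinitePlace.mk (vp hp)) (hvh c) (hvprod _) h1).1
  have hvg1 : FinitePlace.mk (vp hp) (eval z g₁) = 1 := by
    have h1 := hvg
    rw [hg2, map_mul] at h1
    exact (mk_prod_one (FinitePlace.mk (vp hp)) hvg12 hvg2 h1).1
  have hvF : FinitePlace.mk (vp hp) (eval z (aff F)) = ((p : ℝ) ^ μ)⁻¹ := by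
    have h1 := congrArg (FinitePlace.mk (vp hp)) (aff_eval hF hx)
    rw [mk_vp_int hp hFx, map_mul, map_pow, mk_vp_eq_one hp hx0, one_pow, one_mul, ← hz, ← hμ] at h1
    exact h1.symm
  -- the primes above `p`
  obtain ⟨W, hW⟩ : ∃ W : Finset (HeightOneSpectrum (𝓞 L)), ∀ w, w ∈ W ↔ (p : 𝓞 L) ∈ w.asIdeal :=
    ⟨(primes_above_finite hp).toFinset, fun w => by rw [Set.Finite.mem_toFinset]; rfl⟩
  have hab : ∀ w : HeightOneSpectrum (𝓞 L), w ∈ W →
      (vp hp).asIdeal.map (algebraMap (𝓞 ℚ) (𝓞 L)) ≤ w.asIdeal := fun w hw =>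
    (above_vp hp w).2 ((hW w).1 hw)
  have wint : ∀ (b : A), AInt (m := n) (vp hp) b → ∀ w ∈ W, FinitePlace.mk w (ψ b) ≤ 1 :=
    fun b hb w hw => hb L ψ z hψ hcrd w (hab w hw)
  have wg : ∀ w ∈ W, FinitePlace.mk w (ψ (algebraMap _ A g)) = 1 := by
    intro w hw
    rw [hψ]
    exact (above (hab w hw) hvg.le).2.2 hvg
  have wg1 : ∀ w ∈ W, FinitePlace.mk w (ψ (algebraMap _ A g₁)) = 1 := by
    intro w hw
    rw [hψ]
    exact (above (hab w hw) hvg1.le).2.2 hvg1
  have wu : ∀ w ∈ W, FinitePlace.mk w (ψ u) = 1 := by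
    intro w hw
    have h1 := wg w hw
    rw [huu, map_mul] at h1
    exact (mk_prod_one (FinitePlace.mk w) (wint _ b2 w hw) (wint _ b3 w hw) h1).1
  have hF0 : algebraMap ℚ L (eval z (aff F)) ≠ 0 := by
    intro h0
    have h1 := congrArg (FinitePlace.mk (vp hp)) ((map_eq_zero (algebraMap ℚ L)).1 h0)
    rw [hvF, map_zero] at h1
    have : (0 : ℝ) < ((p : ℝ) ^ μ)⁻¹ := by
      have := hp.pos
      positivity
    linarith
  have hrelψ : ψ (algebraMap _ A g₁) * algebraMap ℚ L (eval z (aff F)) =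
      ψ u * ∏ c, ψ (ζ c) ^ e c := by
    have h1 := congrArg ψ hrel
    rw [map_mul (algebraMap _ A), map_mul ψ, hψ (aff F), map_mul ψ, map_prod] at h1
    simp only [map_pow] at h1
    exact h1
  have hg1L : ψ (algebraMap _ A g₁) ≠ 0 := by
    rw [hψ]
    intro h0
    have h1 := (map_eq_zero (algebraMap ℚ L)).1 h0
    rw [h1, map_zero] at hvg1
    exact zero_ne_one hvg1
  have hζ0 : ∀ c, ψ (ζ c) ≠ 0 := by
    intro c h0
    have h1 : ψ u * ∏ c, ψ (ζ c) ^ e c = 0 := by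
      rw [Finset.prod_eq_zero (Finset.mem_univ c), mul_zero]
      rw [h0, zero_pow (by have := he1 c; omega)]
    rw [← hrelψ] at h1
    exact mul_ne_zero hg1L hF0 h1
  have hu0 : ψ u ≠ 0 := by
    intro h0
    rw [h0, zero_mul] at hrelψ
    exact mul_ne_zero hg1L hF0 hrelψ
  have hod : ∀ c, ∀ w ∈ W, 0 ≤ od w (ψ (ζ c)) := fun c w hw => od_nonneg w (wint _ (b1 c) w hw)
  obtain ⟨o, ho⟩ : ∃ o : Fin q → HeightOneSpectrum (𝓞 L) → ℕ,
      ∀ c w, o c w = (od w (ψ (ζ c))).toNat := ⟨_, fun _ _ => rfl⟩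
  have hoz : ∀ c, ∀ w ∈ W, (o c w : ℤ) = od w (ψ (ζ c)) := by
    intro c w hw
    rw [ho]
    exact Int.toNat_of_nonneg (hod c w hw)
  have hopos : ∀ c, ∀ w ∈ W, 0 < o c w → FinitePlace.mk w (ψ (ζ c)) < 1 := by
    intro c w hw h1
    refine mk_lt_of_od_pos w (wint _ (b1 c) w hw) ?_
    rw [← hoz c w hw]
    exact_mod_cast h1
  have hodprod : ∀ (s : Finset (Fin q)) (w : HeightOneSpectrum (𝓞 L)),
      od w (∏ c ∈ s, ψ (ζ c) ^ e c) = ∑ c ∈ s, (e c : ℤ) * od w (ψ (ζ c)) := by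
    intro s w
    induction s using Finset.induction_on with
    | empty => rw [Finset.prod_empty, Finset.sum_empty]; exact od_one_of w (map_one _)
    | insert c s hc ih =>
      rw [Finset.prod_insert hc, Finset.sum_insert hc, od_mul w (pow_ne_zero _ (hζ0 c))
        (Finset.prod_ne_zero_iff.2 fun c _ => pow_ne_zero _ (hζ0 c)), od_pow, ih]
  have hc1 : ∀ w ∈ W, ∑ c, e c * o c w = μ * rami p w := by
    intro w hw
    have h1 := congrArg (od w) hrelψ
    rw [od_mul w hg1L hF0, od_zero_of_mk w (wg1 w hw), zero_add,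
      od_mul w hu0 (Finset.prod_ne_zero_iff.2 fun c _ => pow_ne_zero _ (hζ0 c)),
      od_zero_of_mk w (wu w hw), zero_add, hodprod, hz, (od_aff hF hp hx0 hFx w ((hW w).1 hw)).2,
      ← rami_eq hp, ← hμ] at h1
    have h2 : ((∑ c, e c * o c w : ℕ) : ℤ) = ((μ * rami p w : ℕ) : ℤ) := by
      push_cast
      rw [h1]
      exact Finset.sum_congr rfl fun c _ => by rw [hoz c w hw]
    exact_mod_cast h2
  have hc2 : ∀ w ∈ W, ∀ c c', c ≠ c' → o c w = 0 ∨ o c' w = 0 := by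
    intro w hw c c' hcc
    by_contra hcon
    rw [not_or] at hcon
    have h1 := hopos c w hw (Nat.pos_of_ne_zero hcon.1)
    have h2 := hopos c' w hw (Nat.pos_of_ne_zero hcon.2)
    obtain ⟨b9, b10⟩ := b4 c c' hcc
    have h3 := wg w hw
    rw [← hcab c c' hcc, map_add, map_mul, map_mul] at h3
    have h4 := FinitePlace.add_le (FinitePlace.mk w) (ψ (ca c c' hcc) * ψ (ζ c))
      (ψ (cb c c' hcc) * ψ (ζ c'))
    rw [h3] at h4
    have h5 : ∀ (a b : L), FinitePlace.mk w a ≤ 1 → FinitePlace.mk w b < 1 →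
        FinitePlace.mk w (a * b) < 1 := by
      intro a b ha hb
      rw [map_mul]
      exact lt_of_le_of_lt (mul_le_of_le_one_left (apply_nonneg _ _) ha) hb
    have h6 := h5 _ _ (wint _ b9 w hw) h1
    have h7 := h5 _ _ (wint _ b10 w hw) h2
    exact absurd h4 (not_le.2 (max_lt h6 h7))
  have hc3 : ∀ c, ∑ w ∈ W, (o c w : ℝ) * Real.log (Ideal.absNorm w.asIdeal) ≤
      (d c : ℝ) * μ * Real.log p := by
    intro c
    have hgz : eval z g ≠ 0 := by
      intro h0
      rw [h0, map_zero] at hvg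
      exact zero_ne_one hvg
    have hnorm := norm_eq_det (K := ℚ) (L := L) hL (fun i => ψ (ω i)) (eval z g) hgz (by
      intro y
      obtain ⟨b, rfl⟩ := hsurj y
      obtain ⟨r, hr⟩ := hspan b
      refine ⟨fun i => eval z (r i), ?_⟩
      have h1 := congrArg ψ hr
      rw [map_mul, map_sum, hψ] at h1
      rw [h1]
      refine Finset.sum_congr rfl fun i _ => ?_
      rw [map_mul, hψ]) (ψ (algebraMap _ A g) * ψ (ζ c)) ((M c).map (eval z)) (by
      intro i
      have h1 := congrArg ψ (hmul c i)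
      rw [map_mul, map_mul, map_sum] at h1
      rw [h1]
      refine Finset.sum_congr rfl fun j _ => ?_
      rw [map_mul, hψ, Matrix.map_apply])
    have hdetz : ((M c).map (eval z)).det = eval z (aff F) ^ t c * eval z (h c) := by
      have h1 : ((M c).map (eval z)).det = eval z (M c).det := by
        rw [RingHom.map_det]
        rfl
      rw [h1, hMt c, map_mul, map_pow]
    rw [hdetz] at hnorm
    have h2 := norm_bound (K := ℚ) (L := L) (vp hp) (ψ (algebraMap _ A g) * ψ (ζ c)) (d c * μ) (by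
      intro w hw
      have hwW : w ∈ W := (hW w).2 ((above_vp hp w).1 hw)
      rw [map_mul, wg w hwW, one_mul]
      exact wint _ (b1 c) w hwW) (by
      rw [hnorm, map_mul, map_pow, hvF, hvh1 c, mul_one, absNorm_vp hp, inv_pow, ← pow_mul]
      have hp1 : (1 : ℝ) ≤ p := by exact_mod_cast hp.one_lt.le
      have h3 : (p : ℝ) ^ (μ * t c) ≤ (p : ℝ) ^ (d c * μ) := by
        refine pow_le_pow_right₀ hp1 ?_
        rw [mul_comm (d c)]
        exact Nat.mul_le_mul_left _ (ht c)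
      exact inv_anti₀ (by positivity) h3) W hab (fun w => o c w) (by
      intro w hw
      have hgL : ψ (algebraMap _ A g) ≠ 0 := by
        intro h0
        have := wg w hw
        rw [h0, map_zero] at this
        exact zero_ne_one this
      rw [od_mul w hgL (hζ0 c), od_zero_of_mk w (wg w hw), zero_add]
      exact (hoz c w hw).le)
    rw [absNorm_vp hp] at h2
    push_cast at h2
    exact h2
  obtain ⟨D, d1, d2, d3⟩ := local_main hp μ hμ1 e d he1 o W hW hc1 hc2 hc3 (hsum.trans hL.symm)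
    inD Wd (by
    intro w hw c hc hcw
    refine hWd w ((hW w).1 hw) fun y hy => ?_
    have hyc := hinD c hc y hy
    have h1 := congrArg ψ (hk c y hy hyc)
    rw [map_mul, map_mul] at h1
    have h2 := congrArg (FinitePlace.mk w) h1
    rw [map_mul, wg w hw, one_mul, map_mul] at h2
    rw [h2]
    have h3 := wint _ (b5 c ⟨y, hy⟩ hyc) w hw
    have h4 := hopos c w hw hcw
    exact lt_of_le_of_lt (mul_le_of_le_one_right (apply_nonneg _ _) h3) h4)
  refine ⟨D, d1, d2, ?_⟩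
  rw [← hμ]
  refine le_trans (le_of_eq ?_) d3
  refine Finset.sum_congr rfl fun c _ => ?_
  congr 2
  split_ifs <;> rfl

end Pool.Agent.D0H41.OC
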