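import Mathlib
import Pool.Agent.D0H41.OC.Orb
import Pool.Agent.D0H41.OC.Disc

/-! # The discriminant and the weighted sums -/

set_option autoImplicit false

namespace Pool.Agent.D0H41.OC

open NumberField IsDedekindDomain
open Pool.Agent.H813R3.Voj (rd)

/-- the sum of the weighted sums, without the common primes -/
noncomputable def defic {q : ℕ} (e : Fin q → ℕ) (N : Fin q → ℤ) : ℝ :=
  ∑ j, dd (e j) (N j).natAbs -
    ∑ j, Real.log (rd (Int.gcd (N j) (∏ i ∈ Finset.univ.erase j, N i)))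

/-- **The discriminant is at least the weighted sum.** -/
theorem defic_le {L : Type} [Field L] [NumberField L] {q s : ℕ} (N : Fin q → ℤ)
    (hN : ∀ j, N j ≠ 0) (e : Fin q → ℕ) (he1 : ∀ j, 1 ≤ e j) (S : Finset ℕ)
    (hS : ∀ p ∈ S, p.Prime) (E : Fin s → ℕ) (a : Fin s → Fin q → ℕ) (c y : Fin s → L)
    (hE : ∀ i, 1 ≤ E i)
    (he : ∀ j, e j = Finset.univ.lcm fun i => E i / Nat.gcd (E i) (a i j))
    (hc : ∀ w : HeightOneSpectrum (𝓞 L), (∀ p ∈ S, (p : 𝓞 L) ∉ w.asIdeal) →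
      ∀ i, w.valuation L (c i) = 1)
    (hy : ∀ i, y i ^ E i = c i * ∏ j, (N j : L) ^ a i j) :
    defic e N ≤ ld L + ∑ p ∈ S, Real.log p := by
  classical
  rcases Nat.eq_zero_or_pos q with rfl | hq
  · have h1 : (0 : ℝ) ≤ ld L := by
      have := disc_sum (L := L) ∅ (fun _ => 1) (by simp) (by simp) (by simp)
      simpa using this
    have h2 : 0 ≤ ∑ p ∈ S, Real.log p := Finset.sum_nonneg fun p _ => Real.log_natCast_nonneg p
    have h3 : defic e N = 0 := by
      unfold defic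
      simp
    linarith
  have : Nonempty (Fin q) := ⟨⟨0, hq⟩⟩
  set G : Fin q → ℤ := fun j => ∏ i ∈ Finset.univ.erase j, N i with hG
  have hG0 : ∀ j, G j ≠ 0 := fun j => Finset.prod_ne_zero_iff.2 fun i _ => hN i
  have hN0 : ∀ j, (N j).natAbs ≠ 0 := fun j => Int.natAbs_ne_zero.2 (hN j)
  set A : Fin q → Finset ℕ := fun j => (N j).natAbs.primeFactors.filter
    fun p => ¬ (p : ℤ) ∣ G j with hA
  set t : Fin q → ℕ → ℝ := fun j p =>
    (1 - (Nat.gcd (e j) ((N j).natAbs.factorization p) : ℝ) / e j) * Real.log p with ht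
  have ht0 : ∀ j p, 0 ≤ t j p := fun j p => term_nonneg (e j) _ p (he1 j)
  have ht1 : ∀ j p, t j p ≤ Real.log p := by
    intro j p
    refine mul_le_of_le_one_left (Real.log_natCast_nonneg p) ?_
    have h1 : (0 : ℝ) ≤ (Nat.gcd (e j) ((N j).natAbs.factorization p) : ℝ) / e j := by positivity
    linarith
  -- the primes in `A j` divide only `N j`
  have hAonly : ∀ j p, p ∈ A j → ∀ i, i ≠ j → ¬ (p : ℤ) ∣ N i := by
    intro j p hp i hij hpi
    rw [hA, Finset.mem_filter] at hp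
    exact hp.2 (hpi.trans (Finset.dvd_prod_of_mem _ (Finset.mem_erase.2 ⟨hij, Finset.mem_univ i⟩)))
  have hAdvd : ∀ j p, p ∈ A j → p.Prime ∧ (p : ℤ) ∣ N j := by
    intro j p hp
    rw [hA, Finset.mem_filter] at hp
    exact ⟨Nat.prime_of_mem_primeFactors hp.1,
      Int.natCast_dvd.2 (Nat.dvd_of_mem_primeFactors hp.1)⟩
  have hdisj : ∀ j i, j ≠ i → Disjoint (A j) (A i) := by
    intro j i hji
    rw [Finset.disjoint_left]
    intro p hpj hpi
    exact hAonly j p hpj i (Ne.symm hji) (hAdvd i p hpi).2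
  -- the common primes
  have hsplit : ∀ j, dd (e j) (N j).natAbs ≤ ∑ p ∈ A j, t j p + Real.log (rd (Int.gcd (N j) (G j))) := by
    intro j
    have h1 : dd (e j) (N j).natAbs = ∑ p ∈ A j, t j p +
        ∑ p ∈ (N j).natAbs.primeFactors.filter (fun p : ℕ => ¬ ¬ (p : ℤ) ∣ G j), t j p := by
      rw [hA, Finset.sum_filter_add_sum_filter_not]
      rfl
    rw [h1]
    refine add_le_add le_rfl ?_
    rw [log_rd]
    refine (Finset.sum_le_sum fun p _ => ht1 j p).trans ?_
    refine Finset.sum_le_sum_of_subset_of_nonneg ?_ fun p _ _ => Real.log_natCast_nonneg p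
    intro p hp
    rw [Finset.mem_filter, not_not] at hp
    have hg0 : Int.gcd (N j) (G j) ≠ 0 := fun h => hN j (Int.gcd_eq_zero_iff.1 h).1
    refine Nat.mem_primeFactors.2 ⟨Nat.prime_of_mem_primeFactors hp.1, ?_, hg0⟩
    exact Nat.dvd_gcd (Nat.dvd_of_mem_primeFactors hp.1) (Int.natCast_dvd.1 hp.2)
  have h1 : defic e N ≤ ∑ j, ∑ p ∈ A j, t j p := by
    unfold defic
    rw [sub_le_iff_le_add, ← Finset.sum_add_distrib]
    exact Finset.sum_le_sum fun j _ => hsplit j
  -- the primes in `S`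
  have h2 : ∀ j, ∑ p ∈ A j, t j p = ∑ p ∈ A j \ S, t j p + ∑ p ∈ A j ∩ S, t j p := fun j => by
    rw [add_comm, Finset.sum_inter_add_sum_sdiff]
  have h3 : ∑ j, ∑ p ∈ A j ∩ S, t j p ≤ ∑ p ∈ S, Real.log p := by
    calc ∑ j, ∑ p ∈ A j ∩ S, t j p ≤ ∑ j, ∑ p ∈ A j ∩ S, Real.log p :=
          Finset.sum_le_sum fun j _ => Finset.sum_le_sum fun p _ => ht1 j p
      _ = ∑ p ∈ Finset.univ.biUnion fun j => A j ∩ S, Real.log p := by
          rw [Finset.sum_biUnion]
          intro j _ i _ hji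
          exact (hdisj j i hji).mono Finset.inter_subset_left Finset.inter_subset_left
      _ ≤ _ := by
          refine Finset.sum_le_sum_of_subset_of_nonneg ?_ fun p _ _ => Real.log_natCast_nonneg p
          intro p hp
          rw [Finset.mem_biUnion] at hp
          obtain ⟨j, -, hp⟩ := hp
          exact (Finset.mem_inter.1 hp).2
  -- the primes outside `S`
  set T : Finset ℕ := Finset.univ.biUnion fun j => A j \ S with hT
  have hTmem : ∀ p ∈ T, ∃ j, p ∈ A j \ S := fun p hp => by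
    rw [hT, Finset.mem_biUnion] at hp
    obtain ⟨j, -, hp⟩ := hp
    exact ⟨j, hp⟩
  choose! J hJ using hTmem
  have hJeq : ∀ j, ∀ p ∈ A j \ S, J p = j := by
    intro j p hp
    by_contra hne
    have hpT : p ∈ T := by
      rw [hT, Finset.mem_biUnion]
      exact ⟨j, Finset.mem_univ j, hp⟩
    have h4 := hJ p hpT
    exact (Finset.disjoint_left.1 (hdisj (J p) j hne) (Finset.mem_sdiff.1 h4).1)
      (Finset.mem_sdiff.1 hp).1
  set ν : ℕ → ℕ := fun p => e (J p) / Nat.gcd (e (J p)) ((N (J p)).natAbs.factorization p) with hν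
  have hν1 : ∀ p, 1 ≤ ν p := fun p =>
    Nat.div_pos (Nat.le_of_dvd (he1 _) (Nat.gcd_dvd_left _ _)) (Nat.gcd_pos_of_pos_left _ (he1 _))
  have h4 : ∑ j, ∑ p ∈ A j \ S, t j p = ∑ p ∈ T, (1 - 1 / (ν p : ℝ)) * Real.log p := by
    rw [hT, Finset.sum_biUnion]
    · refine Finset.sum_congr rfl fun j _ => Finset.sum_congr rfl fun p hp => ?_
      rw [hν, ht]
      simp only
      rw [hJeq j p hp]
      congr 2
      rw [Nat.cast_div (Nat.gcd_dvd_left _ _)]
      · rw [one_div_div]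
      · exact_mod_cast (Nat.gcd_pos_of_pos_left _ (he1 j)).ne'
    · intro j _ i _ hji
      exact (hdisj j i hji).mono Finset.sdiff_subset Finset.sdiff_subset
  have h5 : ∑ p ∈ T, (1 - 1 / (ν p : ℝ)) * Real.log p ≤ ld L := by
    refine disc_sum T ν (fun p hp => (hAdvd _ p (Finset.mem_sdiff.1 (hJ p hp)).1).1)
      (fun p _ => hν1 p) fun p hp 𝔮 h𝔮 hp𝔮 => ?_
    have h6 := hJ p hp
    rw [Finset.mem_sdiff] at h6
    have hpp := (hAdvd _ p h6.1).1
    refine ram_root N E a c y hE hN hy hpp (J p) (hAonly _ p h6.1) 𝔮 h𝔮 hp𝔮 ?_ (e (J p)) (he _)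
      (he1 _)
    rintro w rfl i
    refine hc w (fun l hl hlw => ?_) i
    -- two primes in one ideal
    have hlp : l ≠ p := by
      rintro rfl
      exact h6.2 hl
    have hcop := Nat.isCoprime_iff_coprime.2 ((Nat.coprime_primes (hS l hl) hpp).2 hlp)
    obtain ⟨u, v, huv⟩ := hcop
    apply h𝔮.ne_top
    rw [Ideal.eq_top_iff_one]
    have h7 : (1 : 𝓞 L) = (u : 𝓞 L) * (l : 𝓞 L) + (v : 𝓞 L) * (p : 𝓞 L) := by
      have := congrArg (fun m : ℤ => (m : 𝓞 L)) huv
      push_cast at this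
      exact this.symm
    rw [h7]
    exact Ideal.add_mem _ (Ideal.mul_mem_left _ _ hlw) (Ideal.mul_mem_left _ _ hp𝔮)
  calc defic e N ≤ ∑ j, ∑ p ∈ A j, t j p := h1
    _ = ∑ j, ∑ p ∈ A j \ S, t j p + ∑ j, ∑ p ∈ A j ∩ S, t j p := by
        rw [← Finset.sum_add_distrib]
        exact Finset.sum_congr rfl fun j _ => h2 j
    _ ≤ _ := by
        rw [h4]
        exact add_le_add h5 h3

end Pool.Agent.D0H41.OC
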