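import Mathlib
import Pool.Agent.D0H41.OC.Comp
import Pool.Agent.D0H41.OC.Loc
import Pool.Agent.N445.DF.A17

/-! # Families of components, and one exceptional set -/

set_option autoImplicit false

namespace Pool.Agent.D0H41.OC

open MvPolynomial Pool.Agent.TH910.Voj Pool.Agent.H813R3.Voj Pool.Agent.N445.VW
open Pool.Agent.N445.DF NumberField

/-- the inequality at the point `x` -/
def Ineq {n r t : ℕ} (F : Fin r → MvPolynomial (Fin (n + 1)) ℤ) (e : Fin r → ℕ)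
    (F' G' : Fin t → MvPolynomial (Fin (n + 1)) ℤ) (k' e' : Fin t → ℕ) (Λ θ H : ℝ)
    (x : Fin (n + 1) → ℤ) : Prop :=
  (∀ j, eval x (F j) ≠ 0) ∧ (∀ l, eval x (F' l) ≠ 0) ∧
    θ * H + Λ * ∑ l, ih (F' l) (G' l) (k' l) (e' l) x ≤ defic e fun j => eval x (F j)

/-- **Families of components.** -/
theorem main_orb {n r t : ℕ} (hn : 2 ≤ n)
    (F : Fin r → MvPolynomial (Fin (n + 1)) ℤ) (k e : Fin r → ℕ) (w : Fin r → ℝ)
    (hhom : ∀ j, (F j).IsHomogeneous (k j)) (hirr : ∀ j, Irreducible (toQ (F j)))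
    (hdist : ∀ i j, i ≠ j → ¬ Associated (toQ (F i)) (toQ (F j))) (he : ∀ j, 1 ≤ e j)
    (hw : ∀ j, ∃ α, HasAlpha (F j) α ∧ w j ≤ ow α (e j) (k j))
    (F' G' : Fin t → MvPolynomial (Fin (n + 1)) ℤ) (k' e' : Fin t → ℕ)
    (hhom' : ∀ l, (F' l).IsHomogeneous (k' l)) (hirr' : ∀ l, Irreducible (toQ (F' l)))
    (hcop : ∀ l, ¬ toQ (F' l) ∣ toQ (G' l)) (Λ : ℝ) (hΛ : 0 ≤ Λ)
    (θ : ℝ) (hθ : θ < ∑ j, w j) :
    Sparse (n + 1) (fun B x => (∃ c : Fin (n + 1) → ℤ, ∑ i, c i * x i = 1) ∧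
      ¬ Ineq F e F' G' k' e' Λ θ (Real.log B) x) := by
  classical
  set G : Fin r → MvPolynomial (Fin (n + 1)) ℤ := fun j => ∏ i ∈ Finset.univ.erase j, F i with hG
  have hGdvd : ∀ j, ¬ toQ (F j) ∣ toQ (G j) := by
    intro j hdvd
    rw [hG, map_prod] at hdvd
    obtain ⟨i, hi, h2⟩ := ((hirr j).prime.dvd_finsetProd_iff _).mp hdvd
    exact hdist j i (Finset.ne_of_mem_erase hi).symm ((hirr j).associated_of_dvd (hirr i) h2)
  have hGev : ∀ j (x : Fin (n + 1) → ℤ), eval x (G j) = ∏ i ∈ Finset.univ.erase j, eval x (F i) :=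
    fun j x => map_prod _ _ _
  have hF0 : ∀ j, F j ≠ 0 := by
    intro j h0
    exact (hirr j).ne_zero (by rw [h0, map_zero])
  have hF0' : ∀ l, F' l ≠ 0 := by
    intro l h0
    exact (hirr' l).ne_zero (by rw [h0, map_zero])
  set Δ : ℝ := (∑ j, w j) - θ with hΔ
  have hΔ0 : 0 < Δ := by rw [hΔ]; linarith
  set η : ℝ := Δ / (4 * (r + 1)) with hη
  have hη0 : 0 < η := by positivity
  set ε : ℝ := min 1 (Δ / (4 * (Λ + 1) * (t + 1))) with hε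
  have hε0 : 0 < ε := lt_min one_pos (by positivity)
  have hε1 : ε ≤ 1 := min_le_left _ _
  have hsp : ∀ j, Sparse (n + 1) (fun B x => eval x (F j) = 0 ∨
      (((∃ c : Fin (n + 1) → ℤ, ∑ i, c i * x i = 1) ∧ eval x (F j) ≠ 0 ∧
          dd (e j) (eval x (F j)).natAbs < (w j - η) * Real.log B) ∨
        (eval x (F j) ≠ 0 ∧ (B : ℝ) ^ η < rd (Int.gcd (eval x (F j)) (eval x (G j)))))) := by
    intro j
    obtain ⟨α, hα, hwα⟩ := hw j
    refine (sparse_zeros (F j) (hF0 j)).or (((orb_comp hn (F j) (hhom j) (hirr j) α hα (e j) (he j)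
      η hη0).mono ?_).or (sparse_gcd (F j) (G j) (hhom j) (hirr j) (hGdvd j) hη0))
    rintro B x hB hx ⟨h1, h2, h3⟩
    refine ⟨h1, h2, h3.trans_le ?_⟩
    have hlB : 0 ≤ Real.log B := Real.log_natCast_nonneg B
    exact mul_le_mul_of_nonneg_right (by linarith) hlB
  have hsp' : ∀ l, Sparse (n + 1) (fun B x => eval x (F' l) = 0 ∨
      ((eval x (F' l) ≠ 0 ∧ ((eval x (F' l)).natAbs : ℝ) ≤ (B : ℝ) ^ ((k' l : ℝ) - ε)) ∨
        (eval x (F' l) ≠ 0 ∧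
          (B : ℝ) ^ ε < (Int.gcd (eval x (F' l)) (eval x (G' l)) : ℝ)))) := fun l =>
    (sparse_zeros (F' l) (hF0' l)).or ((sparse_small_value (F' l) (hhom' l) (hF0' l) hε0 hε1).or
      (sparse_gcd_full (F' l) (G' l) (hhom' l) (hirr' l) (hcop l) hε0))
  refine ((Sparse.exists_fin hsp).or (Sparse.exists_fin hsp')).mono ?_
  rintro B x hB hx ⟨hprim, hbad⟩
  by_contra hcon
  rw [not_or] at hcon
  obtain ⟨c1, c2⟩ := hcon
  push Not at c1 c2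
  have hB1 : (1 : ℝ) ≤ B := by exact_mod_cast hB
  have hBpos : (0 : ℝ) < B := by linarith
  have hlogB : 0 ≤ Real.log B := Real.log_nonneg hB1
  apply hbad
  refine ⟨fun j => (c1 j).1, fun l => (c2 l).1, ?_⟩
  -- the ideals
  have h1 : ∀ l, ih (F' l) (G' l) (k' l) (e' l) x ≤ 2 * ε * Real.log B := by
    intro l
    obtain ⟨a1, a2, a3⟩ := c2 l
    exact ih_le _ _ _ _ B x hB hx hprim a1 ε (a2 a1).le (a3 a1)
  have h2 : ∑ l, ih (F' l) (G' l) (k' l) (e' l) x ≤ t * (2 * ε * Real.log B) := by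
    refine (Finset.sum_le_sum fun l _ => h1 l).trans (le_of_eq ?_)
    rw [Finset.sum_const, Finset.card_univ, Fintype.card_fin, nsmul_eq_mul]
  have h3 : Λ * ∑ l, ih (F' l) (G' l) (k' l) (e' l) x ≤ Λ * (t * (2 * ε * Real.log B)) :=
    mul_le_mul_of_nonneg_left h2 hΛ
  have h4 : Λ * (t * (2 * ε)) ≤ Δ / 2 := by
    have h5 : ε ≤ Δ / (4 * (Λ + 1) * (t + 1)) := min_le_right _ _
    rw [le_div_iff₀ (by positivity)] at h5
    have ht0 : (0 : ℝ) ≤ t := Nat.cast_nonneg t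
    have h6 : Λ * t ≤ (Λ + 1) * (t + 1) := by nlinarith
    nlinarith
  have h7 : Λ * (t * (2 * ε * Real.log B)) = Λ * (t * (2 * ε)) * Real.log B := by ring
  rw [h7] at h3
  have h8 := mul_le_mul_of_nonneg_right h4 hlogB
  -- the components
  have h9 : ∀ j, (w j - η) * Real.log B ≤ dd (e j) (eval x (F j)).natAbs := by
    intro j
    exact (c1 j).2.1 hprim (c1 j).1
  have h10 : ∀ j, Real.log (rd (Int.gcd (eval x (F j)) (∏ i ∈ Finset.univ.erase j, eval x (F i)))) ≤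
      η * Real.log B := by
    intro j
    have h11 := (c1 j).2.2 (c1 j).1
    rw [hGev] at h11
    rw [← Real.log_rpow hBpos]
    refine Real.log_le_log ?_ h11
    have : 0 < rd (Int.gcd (eval x (F j)) (∏ i ∈ Finset.univ.erase j, eval x (F i))) :=
      Finset.prod_pos fun p hp => (Nat.prime_of_mem_primeFactors hp).pos
    exact_mod_cast this
  have h11 : ∑ j, (w j - η) * Real.log B - ∑ _j : Fin r, η * Real.log B ≤
      defic e fun j => eval x (F j) := by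
    unfold defic
    exact sub_le_sub (Finset.sum_le_sum fun j _ => h9 j) (Finset.sum_le_sum fun j _ => h10 j)
  have h12 : ∑ j, (w j - η) * Real.log B - ∑ _j : Fin r, η * Real.log B =
      (θ + Δ - 2 * (r * η)) * Real.log B := by
    rw [← Finset.sum_mul, Finset.sum_sub_distrib, Finset.sum_const, Finset.sum_const,
      Finset.card_univ, Fintype.card_fin, nsmul_eq_mul, nsmul_eq_mul, hΔ]
    ring
  have h13 : 2 * (r * η) ≤ Δ / 2 := by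
    rw [hη]
    have hr0 : (0 : ℝ) ≤ r := Nat.cast_nonneg r
    rw [← mul_div_assoc, ← mul_div_assoc, div_le_iff₀ (by positivity)]
    nlinarith
  have h14 : (θ + Δ / 2) * Real.log B ≤ (θ + Δ - 2 * (r * η)) * Real.log B :=
    mul_le_mul_of_nonneg_right (by linarith) hlogB
  have h15 : (θ + Δ / 2) * Real.log B = θ * Real.log B + Δ / 2 * Real.log B := by ring
  linarith

/-- the data -/
abbrev DatO (n : ℕ) : Type := (r : ℕ) × (t : ℕ) × ((Fin r → ℕ) ×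
  (Fin r → MvPolynomial (Fin (n + 1)) ℤ) ×
  (Fin t → MvPolynomial (Fin (n + 1)) ℤ) × (Fin t → MvPolynomial (Fin (n + 1)) ℤ) ×
  (Fin t → ℕ) × (Fin t → ℕ) × ℕ × ℚ)

instance (n : ℕ) : Countable (DatO n) := inferInstance

/-- the height of a primitive vector is positive -/
theorem one_le_ht {n : ℕ} {x : Fin (n + 1) → ℤ}
    (hprim : ∃ c : Fin (n + 1) → ℤ, ∑ i, c i * x i = 1) : 1 ≤ ht x := by
  by_contra hcon
  have h0 : ht x = 0 := by omega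
  obtain ⟨c, hc⟩ := hprim
  have hx0 : ∀ i, x i = 0 := by
    intro i
    have h3 : (x i).natAbs ≤ ht x := Finset.le_sup (f := fun i => (x i).natAbs) (Finset.mem_univ i)
    rw [h0] at h3
    exact Int.natAbs_eq_zero.1 (by omega)
  simp [hx0] at hc

/-- **One exceptional set.** -/
theorem one_orb {n : ℕ} (hn : 2 ≤ n) : ∃ Z : Set (Fin (n + 1) → ℤ), DZ Z ∧
    ∀ (r t : ℕ) (F : Fin r → MvPolynomial (Fin (n + 1)) ℤ) (k e : Fin r → ℕ) (w : Fin r → ℝ)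
      (_ : ∀ j, (F j).IsHomogeneous (k j)) (_ : ∀ j, Irreducible (toQ (F j)))
      (_ : ∀ i j, i ≠ j → ¬ Associated (toQ (F i)) (toQ (F j))) (_ : ∀ j, 1 ≤ e j)
      (_ : ∀ j, ∃ α, HasAlpha (F j) α ∧ w j ≤ ow α (e j) (k j))
      (F' G' : Fin t → MvPolynomial (Fin (n + 1)) ℤ) (k' e' : Fin t → ℕ)
      (_ : ∀ l, (F' l).IsHomogeneous (k' l)) (_ : ∀ l, (G' l).IsHomogeneous (e' l))
      (_ : ∀ l, Irreducible (toQ (F' l))) (_ : ∀ l, ¬ toQ (F' l) ∣ toQ (G' l))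
      (Λ : ℝ) (_ : 0 ≤ Λ) (θ : ℝ) (_ : 0 ≤ θ) (_ : θ < ∑ j, w j), ∃ T : ℝ,
      ∀ x : Fin (n + 1) → ℤ, (∃ c : Fin (n + 1) → ℤ, ∑ i, c i * x i = 1) → x ∉ Z →
        T < Real.log (ht x) → Ineq F e F' G' k' e' Λ θ (Real.log (ht x)) x := by
  classical
  set P : DatO n → (Fin (n + 1) → ℤ) → Prop := fun D x =>
    match D with
    | ⟨r, t, e, F, F', G', k', e', Λ, θ⟩ =>
      0 ≤ (θ : ℝ) ∧ (∃ (k : Fin r → ℕ) (w : Fin r → ℝ), (∀ j, (F j).IsHomogeneous (k j)) ∧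
        (∀ j, Irreducible (toQ (F j))) ∧
        (∀ i j, i ≠ j → ¬ Associated (toQ (F i)) (toQ (F j))) ∧ (∀ j, 1 ≤ e j) ∧
        (∀ j, ∃ α, HasAlpha (F j) α ∧ w j ≤ ow α (e j) (k j)) ∧ (θ : ℝ) < ∑ j, w j) ∧
      (∀ l, (F' l).IsHomogeneous (k' l)) ∧ (∀ l, Irreducible (toQ (F' l))) ∧
      (∀ l, ¬ toQ (F' l) ∣ toQ (G' l)) ∧
      (∃ c : Fin (n + 1) → ℤ, ∑ i, c i * x i = 1) ∧
      ¬ Ineq F e F' G' k' e' (Λ : ℝ) (θ : ℝ) (Real.log (ht x)) x with hP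
  obtain ⟨Z, hZ, hfin⟩ := exists_diag' P (by
    rintro ⟨r, t, e, F, F', G', k', e', Λ, θ⟩
    by_cases hv : 0 ≤ (θ : ℝ) ∧ (∃ (k : Fin r → ℕ) (w : Fin r → ℝ),
        (∀ j, (F j).IsHomogeneous (k j)) ∧ (∀ j, Irreducible (toQ (F j))) ∧
        (∀ i j, i ≠ j → ¬ Associated (toQ (F i)) (toQ (F j))) ∧ (∀ j, 1 ≤ e j) ∧
        (∀ j, ∃ α, HasAlpha (F j) α ∧ w j ≤ ow α (e j) (k j)) ∧ (θ : ℝ) < ∑ j, w j) ∧
      (∀ l, (F' l).IsHomogeneous (k' l)) ∧ (∀ l, Irreducible (toQ (F' l))) ∧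
      (∀ l, ¬ toQ (F' l) ∣ toQ (G' l))
    · obtain ⟨hθ0, ⟨k, w, h1, h2, h3, h3', h4, h5⟩, h6, h7, h8⟩ := hv
      refine (main_orb hn F k e w h1 h2 h3 h3' h4 F' G' k' e' h6 h7 h8 (Λ : ℝ) (Nat.cast_nonneg _)
        (θ : ℝ) h5).mono ?_
      rintro B x hB hx ⟨-, -, -, -, -, hprim, hlt⟩
      refine ⟨hprim, fun hI => hlt ?_⟩
      obtain ⟨i1, i2, i3⟩ := hI
      refine ⟨i1, i2, le_trans ?_ i3⟩
      have hht : ht x ≤ B := nrm_le.2 hx
      have h0 := one_le_ht hprim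
      have hlog : Real.log (ht x) ≤ Real.log B :=
        Real.log_le_log (by exact_mod_cast h0) (by exact_mod_cast hht)
      have := mul_le_mul_of_nonneg_left hlog hθ0
      linarith
    · refine (Sparse.false (n + 1)).mono ?_
      rintro B x - - ⟨g1, g2, g3, g4, g5, -, -⟩
      exact hv ⟨g1, g2, g3, g4, g5⟩)
  refine ⟨Z, hZ, ?_⟩
  intro r t F k e w h1 h2 h3 h3' h4 F' G' k' e' h5 h6 h7 h8 Λ hΛ θ hθ0 hθ
  obtain ⟨θ', hθ1, hθ2⟩ := exists_rat_btwn hθ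
  have hθ0' : (0 : ℝ) ≤ θ' := hθ0.trans hθ1.le
  obtain ⟨Λ', hΛ'⟩ : ∃ Λ' : ℕ, Λ' = ⌈Λ⌉₊ := ⟨_, rfl⟩
  have hΛΛ : Λ ≤ Λ' := by rw [hΛ']; exact Nat.le_ceil Λ
  have hfin1 := hfin ⟨r, t, e, F, F', G', k', e', Λ', θ'⟩
  have hih : ∀ l, ∃ C : ℝ, ∀ x : Fin (n + 1) → ℤ,
      (∃ c : Fin (n + 1) → ℤ, ∑ i, c i * x i = 1) → eval x (F' l) ≠ 0 →
      -C ≤ ih (F' l) (G' l) (k' l) (e' l) x := fun l => ih_ge _ _ _ _ (h5 l) (h6 l)
  choose Cl hCl using hih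
  obtain ⟨C1, hC1⟩ : ∃ C1 : ℝ, C1 = (Λ' - Λ) * ∑ l, Cl l := ⟨_, rfl⟩
  obtain ⟨C2, hC2⟩ := (hfin1.image fun x => Real.log (ht x)).bddAbove
  refine ⟨max C2 (C1 / (θ' - θ)), fun x hprim hxZ hT => ?_⟩
  have hI : Ineq F e F' G' k' e' (Λ' : ℝ) (θ' : ℝ) (Real.log (ht x)) x := by
    by_contra hcon
    have : Real.log (ht x) ≤ C2 := by
      refine hC2 ⟨x, ⟨?_, hxZ⟩, rfl⟩
      exact ⟨hθ0', ⟨k, w, h1, h2, h3, h3', h4, hθ2⟩, h5, h7, h8, hprim, hcon⟩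
    have := (le_max_left C2 (C1 / (θ' - θ))).trans_lt hT
    linarith
  obtain ⟨i1, i2, i3⟩ := hI
  refine ⟨i1, i2, le_trans ?_ i3⟩
  have e1 : C1 ≤ (θ' - θ) * Real.log (ht x) := by
    have := (le_max_right C2 (C1 / (θ' - θ))).trans_lt hT
    rw [div_lt_iff₀ (by linarith)] at this
    linarith
  have e3 : -∑ l, Cl l ≤ ∑ l, ih (F' l) (G' l) (k' l) (e' l) x := by
    rw [← Finset.sum_neg_distrib]
    exact Finset.sum_le_sum fun l _ => hCl l x hprim (i2 l)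
  have e4 : (Λ' - Λ) * -∑ l, Cl l ≤ (Λ' - Λ) * ∑ l, ih (F' l) (G' l) (k' l) (e' l) x :=
    mul_le_mul_of_nonneg_left e3 (by linarith)
  rw [hC1] at e1
  linarith

end Pool.Agent.D0H41.OC
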