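import Mathlib
import Pool.Agent.D0H41.OC.Fam

/-! # Families of components with classes, proximity, and one exceptional set -/

set_option autoImplicit false

namespace Pool.Agent.D0H41.OC

open MvPolynomial Pool.Agent.TH910.Voj Pool.Agent.H813R3.Voj Pool.Agent.N445.VW
open Pool.Agent.N445.DF NumberField

/-- the proximity function of `R = 0` for the places in `S'` and infinity -/
noncomputable def px {n : ℕ} (S' : Finset ℕ) (R : MvPolynomial (Fin (n + 1)) ℤ) (d : ℕ)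
    (x : Fin (n + 1) → ℤ) : ℝ :=
  ∑ p ∈ S', ((eval x R).natAbs.factorization p : ℝ) * Real.log p -
    Real.log (|(eval x R : ℝ)| / (ht x : ℝ) ^ d)

/-- the weighted sum -/
noncomputable def Psi {n r q : ℕ} (F H : Fin r → MvPolynomial (Fin (n + 1)) ℤ)
    (J : Fin q → Fin r) (e : Fin q → ℕ) (lam : Fin q → ℝ) (x : Fin (n + 1) → ℤ) : ℝ :=
  ∑ c, lam c * dd (e c) (eval x (F (J c))).natAbs -
    ∑ j, Real.log (rd (Int.gcd (eval x (F j)) (eval x (H j))))

/-- the inequality at the point `x` -/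
def Ineq2 {n r q t : ℕ} (F H : Fin r → MvPolynomial (Fin (n + 1)) ℤ)
    (J : Fin q → Fin r) (e : Fin q → ℕ) (lam : Fin q → ℝ)
    (F' G' : Fin t → MvPolynomial (Fin (n + 1)) ℤ) (k' e' : Fin t → ℕ)
    (R : MvPolynomial (Fin (n + 1)) ℤ) (d : ℕ) (S' : Finset ℕ) (M Λ c₀ : ℕ) (θ h : ℝ)
    (x : Fin (n + 1) → ℤ) : Prop :=
  x 0 ≠ 0 ∧ (∀ j, eval x (F j) ≠ 0) ∧ (∀ l, eval x (F' l) ≠ 0) ∧ eval x R ≠ 0 ∧
    θ * h + M * px S' R d x + Λ * ∑ l, ih (F' l) (G' l) (k' l) (e' l) x + c₀ ≤ Psi F H J e lam x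

theorem dd_zero (N : ℕ) : dd 0 N = Real.log (rd N) := by
  unfold dd
  rw [log_rd]
  refine Finset.sum_congr rfl fun p _ => ?_
  rw [Nat.cast_zero, div_zero, sub_zero, one_mul]

/-- **The weighted sum at almost all points**, for all indices (`0` is for the radical). -/
theorem orb_comp' {n : ℕ} (hn : 2 ≤ n) (F : MvPolynomial (Fin (n + 1)) ℤ) {k : ℕ}
    (hk : F.IsHomogeneous k) (hirr : Irreducible (toQ F)) (α : ℝ)
    (hα : HasAlpha F α) (e : ℕ) (η : ℝ) (hη : 0 < η) :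
    Sparse (n + 1) (fun B x => (∃ c : Fin (n + 1) → ℤ, ∑ i, c i * x i = 1) ∧ eval x F ≠ 0 ∧
      dd e (eval x F).natAbs < (ow α e k - η) * Real.log B) := by
  rcases Nat.eq_zero_or_pos e with rfl | he
  swap
  · exact orb_comp hn F hk hirr α hα e he η hη
  refine (rad_alpha hn F hk hirr α hα η hη).mono ?_
  rintro B x hB hx ⟨hprim, hne, hlt⟩
  refine ⟨hprim, hne, ?_⟩
  by_contra hcon
  push Not at hcon
  have hBr : (1 : ℝ) ≤ B := by exact_mod_cast hB
  have hB0 : (0 : ℝ) < B := by linarith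
  have hlB : 0 ≤ Real.log B := Real.log_nonneg hBr
  have hα1 := alpha_ge hα
  rw [dd_zero] at hlt
  have h1 : (wgt α k - η) * Real.log B ≤ Real.log (rd (eval x F).natAbs) := by
    rw [← Real.log_rpow hB0]
    exact Real.log_le_log (by positivity) hcon.le
  have h2 : ow α 0 k ≤ wgt α k := by
    unfold ow
    split_ifs with h3 h4
    · unfold wgt
      rw [if_pos h3]
      simp
    · exact absurd h4.1 Nat.not_prime_zero
    · have h5 : 2 * α ≤ wgt α k := wgt_two α k (by linarith) (by linarith)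
      simp only [Nat.cast_zero, div_zero, sub_zero, one_mul]
      exact max_le (by linarith) le_rfl
  have h3 : (ow α 0 k - η) * Real.log B ≤ (wgt α k - η) * Real.log B :=
    mul_le_mul_of_nonneg_right (by linarith) hlB
  linarith

/-- the proximity function is small at almost all points -/
theorem px_small {n : ℕ} (S' : Finset ℕ) (hS' : ∀ p ∈ S', p.Prime)
    (R : MvPolynomial (Fin (n + 1)) ℤ) {d : ℕ} (hd : R.IsHomogeneous d) (hR : R ≠ 0) {η : ℝ}
    (hη : 0 < η) :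
    Sparse (n + 1) (fun B x => (∃ c : Fin (n + 1) → ℤ, ∑ i, c i * x i = 1) ∧
      (eval x R = 0 ∨ η * Real.log B < px S' R d x)) := by
  classical
  set ε : ℝ := min 1 (η / (S'.card + 1)) with hε
  have hε0 : 0 < ε := lt_min one_pos (by positivity)
  have hε1 : ε ≤ 1 := min_le_left _ _
  have hall : Sparse (n + 1) (fun B x => ∃ i : Fin S'.card, (eval x R ≠ 0 ∧
      (B : ℝ) ^ ε < (((S'.equivFin.symm i : ℕ) ^ padicValInt (S'.equivFin.symm i : ℕ) (eval x R)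
        : ℕ) : ℝ))) := by
    refine Sparse.exists_fin fun i => ?_
    exact sparse_padic R hd hR _ (hS' _ (S'.equivFin.symm i).2) hε0 hε1
  refine ((sparse_zeros R hR).or ((sparse_small_value R hd hR hε0 hε1).or hall)).mono ?_
  rintro B x hB hx ⟨hprim, hbad⟩
  by_contra hcon
  rw [not_or, not_or] at hcon
  obtain ⟨c1, c2, c3⟩ := hcon
  push Not at c2 c3
  rcases hbad with hbad | hbad
  · exact c1 hbad
  have hBr : (1 : ℝ) ≤ B := by exact_mod_cast hB
  have hB0 : (0 : ℝ) < B := by linarith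
  have hlB : 0 ≤ Real.log B := Real.log_nonneg hBr
  have hx1 := one_le_ht hprim
  have hxB : ht x ≤ B := nrm_le.2 hx
  have hx1' : (1 : ℝ) ≤ ht x := by exact_mod_cast hx1
  have hxB' : (ht x : ℝ) ≤ B := by exact_mod_cast hxB
  have hR0 : (0 : ℝ) < |(eval x R : ℝ)| := abs_pos.2 (by exact_mod_cast c1)
  have h1 : -Real.log (|(eval x R : ℝ)| / (ht x : ℝ) ^ d) ≤ ε * Real.log B := by
    rw [Real.log_div hR0.ne' (by positivity), Real.log_pow]
    have h2 : ((d : ℝ) - ε) * Real.log B ≤ Real.log |(eval x R : ℝ)| := by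
      rw [← Real.log_rpow hB0]
      refine Real.log_le_log (by positivity) ?_
      have h3 := (c2 c1).le
      rwa [Nat.cast_natAbs, Int.cast_abs] at h3
    have h3 : (d : ℝ) * Real.log (ht x) ≤ d * Real.log B :=
      mul_le_mul_of_nonneg_left (Real.log_le_log (by linarith) hxB') (Nat.cast_nonneg _)
    linarith
  have h2 : ∀ p ∈ S', ((eval x R).natAbs.factorization p : ℝ) * Real.log p ≤ ε * Real.log B := by
    intro p hp
    have hpp := hS' p hp
    have h3 := c3 (S'.equivFin ⟨p, hp⟩) c1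
    rw [Equiv.symm_apply_apply] at h3
    have h4 : padicValInt p (eval x R) = (eval x R).natAbs.factorization p := by
      rw [Nat.factorization_def _ hpp]
      rfl
    rw [h4] at h3
    have h5 : (0 : ℝ) < ((p ^ (eval x R).natAbs.factorization p : ℕ) : ℝ) := by
      exact_mod_cast pow_pos hpp.pos _
    have h6 := Real.log_le_log h5 h3
    rw [Real.log_rpow hB0] at h6
    push_cast at h6
    rwa [Real.log_pow] at h6
  have h3 := Finset.sum_le_sum h2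
  rw [Finset.sum_const, nsmul_eq_mul] at h3
  have h4 : ε * (S'.card + 1) ≤ η := by
    have h5 : ε ≤ η / (S'.card + 1) := min_le_right _ _
    rwa [le_div_iff₀ (by positivity)] at h5
  have h5 := mul_le_mul_of_nonneg_right h4 hlB
  have h6 : px S' R d x ≤ η * Real.log B := by
    unfold px
    linarith
  linarith

/-- **Families of components with classes.** -/
theorem main_gen {n r q t : ℕ} (hn : 2 ≤ n)
    (F H : Fin r → MvPolynomial (Fin (n + 1)) ℤ) (k : Fin r → ℕ)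
    (hhom : ∀ j, (F j).IsHomogeneous (k j)) (hirr : ∀ j, Irreducible (toQ (F j)))
    (hH : ∀ j, ¬ toQ (F j) ∣ toQ (H j))
    (J : Fin q → Fin r) (e : Fin q → ℕ) (lam : Fin q → ℝ) (hlam : ∀ c, 0 ≤ lam c) (w : Fin q → ℝ)
    (hw : ∀ c, ∃ α, HasAlpha (F (J c)) α ∧ w c ≤ ow α (e c) (k (J c)))
    (F' G' : Fin t → MvPolynomial (Fin (n + 1)) ℤ) (k' e' : Fin t → ℕ)
    (hhom' : ∀ l, (F' l).IsHomogeneous (k' l)) (hirr' : ∀ l, Irreducible (toQ (F' l)))
    (hcop : ∀ l, ¬ toQ (F' l) ∣ toQ (G' l))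
    (R : MvPolynomial (Fin (n + 1)) ℤ) (d : ℕ) (hd : R.IsHomogeneous d) (hR : R ≠ 0)
    (S' : Finset ℕ) (hS' : ∀ p ∈ S', p.Prime) (M Λ c₀ : ℕ)
    (θ : ℝ) (hθ : θ < ∑ c, lam c * w c) :
    Sparse (n + 1) (fun B x => (∃ c : Fin (n + 1) → ℤ, ∑ i, c i * x i = 1) ∧
      ¬ Ineq2 F H J e lam F' G' k' e' R d S' M Λ c₀ θ (Real.log B) x) := by
  classical
  have hF0 : ∀ j, F j ≠ 0 := by
    intro j h0
    exact (hirr j).ne_zero (by rw [h0, map_zero])
  have hF0' : ∀ l, F' l ≠ 0 := by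
    intro l h0
    exact (hirr' l).ne_zero (by rw [h0, map_zero])
  set Δ : ℝ := (∑ c, lam c * w c) - θ with hΔ
  have hΔ0 : 0 < Δ := by rw [hΔ]; linarith
  have hL0 : 0 ≤ ∑ c, lam c := Finset.sum_nonneg fun c _ => hlam c
  set η : ℝ := Δ / (5 * ((∑ c, lam c) + r + M + 1)) with hη
  have hη0 : 0 < η := by positivity
  set ε : ℝ := min 1 (Δ / (10 * (Λ + 1) * (t + 1))) with hε
  have hε0 : 0 < ε := lt_min one_pos (by positivity)
  have hε1 : ε ≤ 1 := min_le_left _ _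
  have hspc : ∀ c : Fin q, Sparse (n + 1) (fun B x =>
      (∃ c : Fin (n + 1) → ℤ, ∑ i, c i * x i = 1) ∧ eval x (F (J c)) ≠ 0 ∧
          dd (e c) (eval x (F (J c))).natAbs < (w c - η) * Real.log B) := by
    intro c
    obtain ⟨α, hα, hwα⟩ := hw c
    refine (orb_comp' hn (F (J c)) (hhom (J c)) (hirr (J c)) α hα (e c) η hη0).mono ?_
    rintro B x hB hx ⟨h1, h2, h3⟩
    refine ⟨h1, h2, h3.trans_le ?_⟩
    have hlB : 0 ≤ Real.log B := Real.log_natCast_nonneg B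
    exact mul_le_mul_of_nonneg_right (by linarith) hlB
  have hsp : ∀ j, Sparse (n + 1) (fun B x => eval x (F j) = 0 ∨
      (eval x (F j) ≠ 0 ∧ (B : ℝ) ^ η < rd (Int.gcd (eval x (F j)) (eval x (H j))))) := by
    intro j
    exact (sparse_zeros (F j) (hF0 j)).or (sparse_gcd (F j) (H j) (hhom j) (hirr j) (hH j) hη0)
  have hsp' : ∀ l, Sparse (n + 1) (fun B x => eval x (F' l) = 0 ∨
      ((eval x (F' l) ≠ 0 ∧ ((eval x (F' l)).natAbs : ℝ) ≤ (B : ℝ) ^ ((k' l : ℝ) - ε)) ∨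
        (eval x (F' l) ≠ 0 ∧
          (B : ℝ) ^ ε < (Int.gcd (eval x (F' l)) (eval x (G' l)) : ℝ)))) := fun l =>
    (sparse_zeros (F' l) (hF0' l)).or ((sparse_small_value (F' l) (hhom' l) (hF0' l) hε0 hε1).or
      (sparse_gcd_full (F' l) (G' l) (hhom' l) (hirr' l) (hcop l) hε0))
  have hx0 := sparse_zeros (X 0 : MvPolynomial (Fin (n + 1)) ℤ) (X_ne_zero 0)
  obtain ⟨B₀, hB₀⟩ := eventually_ge (Δ / 5) (by positivity) (Real.exp c₀)
  refine (((Sparse.exists_fin hspc).or ((Sparse.exists_fin hsp).or (Sparse.exists_fin hsp'))).or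
    ((px_small S' hS' R hd hR hη0).or hx0)).of_eventually B₀ ?_
  rintro B x hBB hB hx ⟨hprim, hbad⟩
  by_contra hcon
  rw [not_or, not_or, not_or, not_or] at hcon
  obtain ⟨⟨c0, c1, c2⟩, c3, c4⟩ := hcon
  push Not at c0 c1 c2 c3 c4
  have hB1 : (1 : ℝ) ≤ B := by exact_mod_cast hB
  have hBpos : (0 : ℝ) < B := by linarith
  have hlogB : 0 ≤ Real.log B := Real.log_nonneg hB1
  apply hbad
  obtain ⟨c5, c6⟩ := c3 hprim
  rw [eval_X] at c4
  refine ⟨c4, fun j => (c1 j).1, fun l => (c2 l).1, c5, ?_⟩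
  -- the constant
  have hc0 : (c₀ : ℝ) ≤ Δ / 5 * Real.log B := by
    have h1 := Real.log_le_log (Real.exp_pos _) (hB₀ B hBB)
    rwa [Real.log_exp, Real.log_rpow hBpos] at h1
  -- the ideals
  have h1 : ∀ l, ih (F' l) (G' l) (k' l) (e' l) x ≤ 2 * ε * Real.log B := by
    intro l
    obtain ⟨a1, a2, a3⟩ := c2 l
    exact ih_le _ _ _ _ B x hB hx hprim a1 ε (a2 a1).le (a3 a1)
  have h2 : ∑ l, ih (F' l) (G' l) (k' l) (e' l) x ≤ t * (2 * ε * Real.log B) := by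
    refine (Finset.sum_le_sum fun l _ => h1 l).trans (le_of_eq ?_)
    rw [Finset.sum_const, Finset.card_univ, Fintype.card_fin, nsmul_eq_mul]
  have h3 : (Λ : ℝ) * ∑ l, ih (F' l) (G' l) (k' l) (e' l) x ≤ Λ * (t * (2 * ε * Real.log B)) :=
    mul_le_mul_of_nonneg_left h2 (Nat.cast_nonneg _)
  have h4 : (Λ : ℝ) * (t * (2 * ε)) ≤ Δ / 5 := by
    have h5 : ε ≤ Δ / (10 * (Λ + 1) * (t + 1)) := min_le_right _ _
    rw [le_div_iff₀ (by positivity)] at h5
    have ht0 : (0 : ℝ) ≤ t := Nat.cast_nonneg t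
    have hΛ0 : (0 : ℝ) ≤ Λ := Nat.cast_nonneg Λ
    have h6 : (Λ : ℝ) * t ≤ (Λ + 1) * (t + 1) := by nlinarith
    nlinarith
  have h7 : (Λ : ℝ) * (t * (2 * ε * Real.log B)) = Λ * (t * (2 * ε)) * Real.log B := by ring
  rw [h7] at h3
  have h8 := mul_le_mul_of_nonneg_right h4 hlogB
  -- the proximity
  have h8' : (M : ℝ) * px S' R d x ≤ M * (η * Real.log B) :=
    mul_le_mul_of_nonneg_left c6 (Nat.cast_nonneg _)
  -- the components
  have h9 : ∀ c, lam c * ((w c - η) * Real.log B) ≤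
      lam c * dd (e c) (eval x (F (J c))).natAbs := by
    intro c
    exact mul_le_mul_of_nonneg_left (c0 c hprim (c1 (J c)).1) (hlam c)
  have h10 : ∀ j, Real.log (rd (Int.gcd (eval x (F j)) (eval x (H j)))) ≤ η * Real.log B := by
    intro j
    have h11 := (c1 j).2 (c1 j).1
    rw [← Real.log_rpow hBpos]
    refine Real.log_le_log ?_ h11
    have : 0 < rd (Int.gcd (eval x (F j)) (eval x (H j))) :=
      Finset.prod_pos fun p hp => (Nat.prime_of_mem_primeFactors hp).pos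
    exact_mod_cast this
  have h11 : ∑ c, lam c * ((w c - η) * Real.log B) - ∑ _j : Fin r, η * Real.log B ≤
      Psi F H J e lam x := by
    unfold Psi
    exact sub_le_sub (Finset.sum_le_sum fun c _ => h9 c) (Finset.sum_le_sum fun j _ => h10 j)
  have h12 : ∑ c, lam c * ((w c - η) * Real.log B) - ∑ _j : Fin r, η * Real.log B =
      (θ + Δ - ((∑ c, lam c) + r) * η) * Real.log B := by
    have h13 : ∑ c, lam c * ((w c - η) * Real.log B) =
        (∑ c, lam c * w c - (∑ c, lam c) * η) * Real.log B := by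
      rw [Finset.sum_mul, ← Finset.sum_sub_distrib, Finset.sum_mul]
      exact Finset.sum_congr rfl fun c _ => by ring
    rw [h13, Finset.sum_const, Finset.card_univ, Fintype.card_fin, nsmul_eq_mul, hΔ]
    ring
  have h13 : ((∑ c, lam c) + r + M) * η ≤ Δ / 5 := by
    rw [hη]
    rw [← mul_div_assoc, div_le_iff₀ (by positivity)]
    have hr0 : (0 : ℝ) ≤ r := Nat.cast_nonneg r
    have hM0 : (0 : ℝ) ≤ M := Nat.cast_nonneg M
    nlinarith
  have h14 := mul_le_mul_of_nonneg_right h13 hlogB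
  have h15 : 0 ≤ Δ / 5 * Real.log B := by positivity
  have h16 : (θ + Δ - ((∑ c, lam c) + r) * η) * Real.log B = θ * Real.log B +
      5 * (Δ / 5 * Real.log B) - ((∑ c, lam c) + r) * η * Real.log B := by ring
  have h17 : ((∑ c, lam c) + r + M) * η * Real.log B =
      ((∑ c, lam c) + r) * η * Real.log B + M * (η * Real.log B) := by ring
  rw [h12, h16] at h11
  rw [h17] at h14
  linarith

/-- the data -/
abbrev Dat2 (n : ℕ) : Type := (r : ℕ) × (q : ℕ) × (t : ℕ) × ((Fin q → Fin r) × (Fin q → ℕ) ×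
  (Fin q → ℚ) × (Fin r → MvPolynomial (Fin (n + 1)) ℤ) × (Fin r → MvPolynomial (Fin (n + 1)) ℤ) ×
  (Fin t → MvPolynomial (Fin (n + 1)) ℤ) × (Fin t → MvPolynomial (Fin (n + 1)) ℤ) ×
  (Fin t → ℕ) × (Fin t → ℕ) × MvPolynomial (Fin (n + 1)) ℤ × ℕ × Finset ℕ × ℕ × ℕ × ℕ × ℚ)

set_option synthInstance.maxSize 4096 in
instance (n : ℕ) : Countable (Dat2 n) := inferInstance

/-- the hypotheses on the data -/
structure Hyp {n r q t : ℕ} (F H : Fin r → MvPolynomial (Fin (n + 1)) ℤ)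
    (J : Fin q → Fin r) (e : Fin q → ℕ) (lam : Fin q → ℝ)
    (F' G' : Fin t → MvPolynomial (Fin (n + 1)) ℤ) (k' : Fin t → ℕ)
    (R : MvPolynomial (Fin (n + 1)) ℤ) (d : ℕ) (S' : Finset ℕ) (k : Fin r → ℕ) (w : Fin q → ℝ) :
    Prop where
  hom : ∀ j, (F j).IsHomogeneous (k j)
  irr : ∀ j, Irreducible (toQ (F j))
  cop : ∀ j, ¬ toQ (F j) ∣ toQ (H j)
  lam0 : ∀ c, 0 ≤ lam c
  wt : ∀ c, ∃ α, HasAlpha (F (J c)) α ∧ w c ≤ ow α (e c) (k (J c))
  hom' : ∀ l, (F' l).IsHomogeneous (k' l)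
  irr' : ∀ l, Irreducible (toQ (F' l))
  cop' : ∀ l, ¬ toQ (F' l) ∣ toQ (G' l)
  homR : R.IsHomogeneous d
  R0 : R ≠ 0
  S'p : ∀ p ∈ S', p.Prime

/-- **One exceptional set.** -/
theorem one_gen {n : ℕ} (hn : 2 ≤ n) : ∃ Z : Set (Fin (n + 1) → ℤ), DZ Z ∧
    ∀ (r q t : ℕ) (F H : Fin r → MvPolynomial (Fin (n + 1)) ℤ) (J : Fin q → Fin r)
      (e : Fin q → ℕ) (lam : Fin q → ℚ) (F' G' : Fin t → MvPolynomial (Fin (n + 1)) ℤ)
      (k' e' : Fin t → ℕ) (R : MvPolynomial (Fin (n + 1)) ℤ) (d : ℕ) (S' : Finset ℕ)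
      (M Λ c₀ : ℕ) (k : Fin r → ℕ) (w : Fin q → ℝ)
      (_ : Hyp F H J e (fun c => (lam c : ℝ)) F' G' k' R d S' k w) (θ : ℝ) (_ : 0 ≤ θ)
      (_ : θ < ∑ c, (lam c : ℝ) * w c), ∃ T : ℝ,
      ∀ x : Fin (n + 1) → ℤ, (∃ c : Fin (n + 1) → ℤ, ∑ i, c i * x i = 1) → x ∉ Z →
        T < Real.log (ht x) →
        Ineq2 F H J e (fun c => (lam c : ℝ)) F' G' k' e' R d S' M Λ c₀ θ (Real.log (ht x)) x := by
  classical
  set P : Dat2 n → (Fin (n + 1) → ℤ) → Prop := fun D x =>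
    match D with
    | ⟨r, q, t, J, e, lam, F, H, F', G', k', e', R, d, S', M, Λ, c₀, θ⟩ =>
      0 ≤ (θ : ℝ) ∧ (∃ (k : Fin r → ℕ) (w : Fin q → ℝ),
        Hyp F H J e (fun c => (lam c : ℝ)) F' G' k' R d S' k w ∧
        (θ : ℝ) < ∑ c, (lam c : ℝ) * w c) ∧
      (∃ c : Fin (n + 1) → ℤ, ∑ i, c i * x i = 1) ∧
      ¬ Ineq2 F H J e (fun c => (lam c : ℝ)) F' G' k' e' R d S' M Λ c₀ (θ : ℝ)
        (Real.log (ht x)) x with hP
  obtain ⟨Z, hZ, hfin⟩ := exists_diag' P (by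
    rintro ⟨r, q, t, J, e, lam, F, H, F', G', k', e', R, d, S', M, Λ, c₀, θ⟩
    by_cases hv : 0 ≤ (θ : ℝ) ∧ (∃ (k : Fin r → ℕ) (w : Fin q → ℝ),
        Hyp F H J e (fun c => (lam c : ℝ)) F' G' k' R d S' k w ∧
        (θ : ℝ) < ∑ c, (lam c : ℝ) * w c)
    · obtain ⟨hθ0, ⟨k, w, h1, h2⟩⟩ := hv
      refine (main_gen hn F H k h1.hom h1.irr h1.cop J e (fun c => (lam c : ℝ)) h1.lam0 w h1.wt
        F' G' k' e' h1.hom' h1.irr' h1.cop' R d h1.homR h1.R0 S' h1.S'p M Λ c₀ (θ : ℝ) h2).mono ?_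
      rintro B x hB hx ⟨-, -, hprim, hlt⟩
      refine ⟨hprim, fun hI => hlt ?_⟩
      obtain ⟨i0, i1, i2, i3, i4⟩ := hI
      refine ⟨i0, i1, i2, i3, le_trans ?_ i4⟩
      have hht : ht x ≤ B := nrm_le.2 hx
      have h0 := one_le_ht hprim
      have hlog : Real.log (ht x) ≤ Real.log B :=
        Real.log_le_log (by exact_mod_cast h0) (by exact_mod_cast hht)
      have := mul_le_mul_of_nonneg_left hlog hθ0
      linarith
    · refine (Sparse.false (n + 1)).mono ?_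
      rintro B x - - ⟨g1, g2, -, -⟩
      exact hv ⟨g1, g2⟩)
  refine ⟨Z, hZ, ?_⟩
  intro r q t F H J e lam F' G' k' e' R d S' M Λ c₀ k w hHyp θ hθ0 hθ
  obtain ⟨θ', hθ1, hθ2⟩ := exists_rat_btwn hθ
  have hθ0' : (0 : ℝ) ≤ θ' := hθ0.trans hθ1.le
  have hfin1 := hfin ⟨r, q, t, J, e, lam, F, H, F', G', k', e', R, d, S', M, Λ, c₀, θ'⟩
  obtain ⟨C2, hC2⟩ := (hfin1.image fun x => Real.log (ht x)).bddAbove
  refine ⟨C2, fun x hprim hxZ hT => ?_⟩
  have hI : Ineq2 F H J e (fun c => (lam c : ℝ)) F' G' k' e' R d S' M Λ c₀ (θ' : ℝ)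
      (Real.log (ht x)) x := by
    by_contra hcon
    have : Real.log (ht x) ≤ C2 := by
      refine hC2 ⟨x, ⟨?_, hxZ⟩, rfl⟩
      exact ⟨hθ0', ⟨k, w, hHyp, hθ2⟩, hprim, hcon⟩
    linarith
  obtain ⟨i0, i1, i2, i3, i4⟩ := hI
  refine ⟨i0, i1, i2, i3, le_trans ?_ i4⟩
  have h1 := mul_le_mul_of_nonneg_right hθ1.le (Real.log_natCast_nonneg (ht x))
  linarith

end Pool.Agent.D0H41.OC
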