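import Mathlib
import Pool.Agent.D0H41.OC.Cov2
import Pool.Agent.D0H41.OC.Fam2

/-! # Points of full degree on a cover -/

set_option autoImplicit false

namespace Pool.Agent.D0H41.OC

open MvPolynomial NumberField IsDedekindDomain
open Pool.Agent.N459.AC
open Pool.Agent.H813R3.Voj (rd)

variable {n : ℕ}

theorem ramidx_pos {R A : Type} [CommRing R] [CommRing A] [Algebra R A] {F : R} {𝔮 : Ideal A}
    {e : ℕ} (h : RamIdx F 𝔮 e) (hF : algebraMap R A F ∈ 𝔮) : 1 ≤ e := by
  obtain ⟨π, hπ, -, s, s', hs, hs', h⟩ := h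
  by_contra hcon
  have h0 : e = 0 := by omega
  rw [h0, pow_zero, mul_one] at h
  apply hs'
  rw [← h]
  exact Ideal.mul_mem_left _ _ hF

open Classical in
/-- the truncated counting function of the common zeros of `Y`, outside `S` -/
noncomputable def tcount {A : Type} [CommRing A] [Algebra (MvPolynomial (Fin n) ℚ) A]
    (Y : Finset A) (S : Finset ℕ) {L : Type} [Field L] [NumberField L] (ψ : A →+* L) : ℝ :=
  (∑ᶠ w : HeightOneSpectrum (𝓞 L), if (∀ p ∈ S, (p : 𝓞 L) ∉ w.asIdeal) ∧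
    (∀ i : Fin n, FinitePlace.mk w (ψ (algebraMap (MvPolynomial (Fin n) ℚ) A (X i))) ≤ 1) ∧
    (∀ y ∈ Y, FinitePlace.mk w (ψ y) < 1) then Real.log (Ideal.absNorm w.asIdeal) else 0) /
      Module.finrank ℚ L

theorem coef_mem (e μ : ℕ) : 0 ≤ 1 - (Nat.gcd e μ : ℝ) / e ∧ 1 - (Nat.gcd e μ : ℝ) / e ≤ 1 := by
  have h1 : (0 : ℝ) ≤ (Nat.gcd e μ : ℝ) / e := by positivity
  refine ⟨?_, by linarith⟩
  rcases Nat.eq_zero_or_pos e with rfl | he
  · rw [Nat.cast_zero, div_zero]
    norm_num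
  · exact coef_nonneg e μ he

open Classical in
/-- **The cover.** -/
theorem cover_gen (A : Type) [CommRing A] [IsDomain A] [IsIntegrallyClosed A]
    [Algebra (MvPolynomial (Fin n) ℚ) A] [FaithfulSMul (MvPolynomial (Fin n) ℚ) A]
    [Module.Finite (MvPolynomial (Fin n) ℚ) A] {N : ℕ}
    (hN : Module.finrank (MvPolynomial (Fin n) ℚ) A = N) {r q : ℕ}
    (F : Fin r → MvPolynomial (Fin (n + 1)) ℤ) (κ : Fin r → ℕ)
    (hF : ∀ j, (F j).IsHomogeneous (κ j)) (hirr : ∀ j, Irreducible (map (Int.castRingHom ℚ) (F j)))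
    (haff : ∀ j, Irreducible (aff (F j)))
    (hdist : ∀ i j, i ≠ j →
      ¬ Associated (map (Int.castRingHom ℚ) (F i)) (map (Int.castRingHom ℚ) (F j)))
    (J : Fin q → Fin r) (𝔮 : Fin q → Ideal A) (h𝔮 : ∀ c, (𝔮 c).IsPrime)
    (hover : ∀ c, (𝔮 c).comap (algebraMap (MvPolynomial (Fin n) ℚ) A) =
      Ideal.span {aff (F (J c))})
    (hinj𝔮 : Function.Injective 𝔮)
    (hall : ∀ j, ∀ 𝔭 : Ideal A, 𝔭.IsPrime →
      𝔭.comap (algebraMap (MvPolynomial (Fin n) ℚ) A) = Ideal.span {aff (F j)} →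
      ∃ c, J c = j ∧ 𝔭 = 𝔮 c)
    (e d : Fin q → ℕ) (he : ∀ c, RamIdx (aff (F (J c))) (𝔮 c) (e c))
    (hd : ∀ c, ResDeg (aff (F (J c))) (𝔮 c) (d c))
    (hsum : ∀ j, ∑ c with J c = j, e c * d c = N) (Y : Finset A) :
    ∃ (H : Fin r → MvPolynomial (Fin (n + 1)) ℤ) (E : Fin r → ℕ) (C : ℝ),
      (∀ j, (H j).IsHomogeneous (E j)) ∧
      (∀ j, ¬ map (Int.castRingHom ℚ) (F j) ∣ map (Int.castRingHom ℚ) (H j)) ∧
      ∀ x : Fin (n + 1) → ℤ, (∀ j, eval x (F j) ≠ 0) →
      ∀ (L : Type) [Field L] [NumberField L] (ψ : A →+* L),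
        (∀ f : MvPolynomial (Fin n) ℚ, ψ (algebraMap (MvPolynomial (Fin n) ℚ) A f) =
          algebraMap ℚ L (eval (crd x) f)) → Function.Surjective ψ → Module.finrank ℚ L = N →
        (∃ y ∈ Y, ψ y ≠ 0) → ∀ S : Finset ℕ, (∀ p ∈ S, p.Prime) →
        Psi F H J (fun c => if ∀ y ∈ Y, y ∈ 𝔮 c then 0 else e c)
          (fun c => ((e c * d c : ℕ) : ℝ) / N) x - C ≤
            ld L + tcount (n := n) Y S ψ + ∑ p ∈ S, Real.log p := by
  choose H₀ E₀ Bad hH₀ hdvd hmain using fun j => by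
    refine one_gencov A hN Y (hF j) (haff j) (q := Fintype.card {c // J c = j})
      (fun i => 𝔮 ((Fintype.equivFin {c // J c = j}).symm i)) (fun i => h𝔮 _) (fun i => ?_)
      (fun i i' hii => ?_) (fun 𝔭 h𝔭 h𝔭' => ?_)
      (fun i => e ((Fintype.equivFin {c // J c = j}).symm i))
      (fun i => d ((Fintype.equivFin {c // J c = j}).symm i)) (fun i => ?_) (fun i => ?_) ?_
    · have h1 := ((Fintype.equivFin {c // J c = j}).symm i).2
      have h2 := hover ((Fintype.equivFin {c // J c = j}).symm i : Fin q)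
      rwa [h1] at h2
    · exact (Fintype.equivFin {c // J c = j}).symm.injective (Subtype.ext (hinj𝔮 hii))
    · obtain ⟨c, hc, hc'⟩ := hall j 𝔭 h𝔭 h𝔭'
      refine ⟨Fintype.equivFin {c // J c = j} ⟨c, hc⟩, ?_⟩
      rw [Equiv.symm_apply_apply]
      exact hc'
    · have h1 := ((Fintype.equivFin {c // J c = j}).symm i).2
      have h2 := he ((Fintype.equivFin {c // J c = j}).symm i : Fin q)
      rwa [h1] at h2
    · have h1 := ((Fintype.equivFin {c // J c = j}).symm i).2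
      have h2 := hd ((Fintype.equivFin {c // J c = j}).symm i : Fin q)
      rwa [h1] at h2
    · rw [← hsum j, Finset.sum_subtype (Finset.univ.filter fun c => J c = j) (p := fun c => J c = j)
        (fun c => by simp) (fun c => e c * d c)]
      exact Equiv.sum_comp (Fintype.equivFin {c // J c = j}).symm
        (fun c : {c // J c = j} => e c * d c)
  have he1 : ∀ c, 1 ≤ e c := by
    intro c
    refine ramidx_pos (he c) ?_
    have h1 : aff (F (J c)) ∈ (𝔮 c).comap (algebraMap (MvPolynomial (Fin n) ℚ) A) := by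
      rw [hover c]
      exact Ideal.mem_span_singleton_self _
    exact h1
  obtain ⟨e', he'⟩ : ∃ e' : Fin q → ℕ, e' = fun c => if ∀ y ∈ Y, y ∈ 𝔮 c then 0 else e c :=
    ⟨_, rfl⟩
  rw [← he']
  obtain ⟨R, hR⟩ : ∃ R : Fin r → MvPolynomial (Fin (n + 1)) ℤ,
      ∀ j, R j = ∏ i ∈ Finset.univ.erase j, F i := ⟨_, fun _ => rfl⟩
  have hRh : ∀ j, (R j).IsHomogeneous (∑ i ∈ Finset.univ.erase j, κ i) := by
    intro j
    rw [hR]
    exact IsHomogeneous.prod _ _ _ fun i _ => hF i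
  obtain ⟨H, hH⟩ : ∃ H : Fin r → MvPolynomial (Fin (n + 1)) ℤ,
      ∀ j, H j = H₀ j * (X 0 * R j) := ⟨_, fun _ => rfl⟩
  refine ⟨H, fun j => E₀ j + (1 + ∑ i ∈ Finset.univ.erase j, κ i),
    ∑ p ∈ Finset.univ.biUnion Bad, Real.log p, ?_, ?_, ?_⟩
  · intro j
    rw [hH]
    exact (hH₀ j).mul ((isHomogeneous_X _ _).mul (hRh j))
  · intro j hd
    rw [hH, map_mul, map_mul, hR, map_prod] at hd
    rcases (hirr j).prime.dvd_or_dvd hd with h | h
    · exact hdvd j (aff_dvd h)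
    rcases (hirr j).prime.dvd_or_dvd h with h | h
    · have h1 := aff_dvd (F := F j) (G := X 0) h
      rw [aff_X0] at h1
      exact (haff j).not_isUnit (isUnit_of_dvd_one h1)
    · obtain ⟨i, hi, h3⟩ := ((hirr j).prime.dvd_finsetProd_iff _).1 h
      exact hdist j i (Finset.ne_of_mem_erase hi).symm ((hirr j).associated_of_dvd (hirr i) h3)
  intro x hFx L _ _ ψ hψ hsurj hL hY S hS
  have hHx : ∀ j, eval x (H j) = eval x (H₀ j) * (x 0 * eval x (R j)) := by
    intro j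
    rw [hH, map_mul, map_mul, eval_X]
  have hm : (0 : ℝ) < Module.finrank ℚ L := by
    exact_mod_cast (Module.finrank_pos (R := ℚ) (M := L))
  have hNr : (0 : ℝ) < N := by rw [← hL]; exact hm
  -- the primes above `p` where the point meets `V(Y)`
  obtain ⟨Wd, hWd⟩ : ∃ Wd : ℕ → Finset (HeightOneSpectrum (𝓞 L)), ∀ p : ℕ, p.Prime → ∀ w,
      w ∈ Wd p ↔ (p : 𝓞 L) ∈ w.asIdeal ∧ ∀ y ∈ Y, FinitePlace.mk w (ψ y) < 1 := by
    refine ⟨fun p => if hp : p.Prime then (primes_above_finite (L := L) hp).toFinset.filter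
      (fun w => ∀ y ∈ Y, FinitePlace.mk w (ψ y) < 1) else ∅, fun p hp w => ?_⟩
    simp only [dif_pos hp, Finset.mem_filter, Set.Finite.mem_toFinset]
    rfl
  obtain ⟨co, hco⟩ : ∃ co : Fin q → ℕ → ℝ, ∀ c p, co c p =
      1 - (Nat.gcd (e' c) ((eval x (F (J c))).natAbs.factorization p) : ℝ) / e' c :=
    ⟨_, fun _ _ => rfl⟩
  have hco0 : ∀ c p, 0 ≤ co c p := fun c p => by rw [hco]; exact (coef_mem _ _).1
  have hco1 : ∀ c p, co c p ≤ 1 := fun c p => by rw [hco]; exact (coef_mem _ _).2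
  obtain ⟨T, hT1, hT⟩ := sum_le (L := L) (fun j => eval x (F j)) (fun j => eval x (H j)) hFx (by
    intro i j hij
    show eval x (F i) ∣ eval x (H j)
    rw [hHx, hR, map_prod]
    exact Dvd.dvd.mul_left (Dvd.dvd.mul_left (Finset.dvd_prod_of_mem _
      (Finset.mem_erase.2 ⟨hij, Finset.mem_univ i⟩)) _) _) (S ∪ Finset.univ.biUnion Bad)
    (fun j p => ∑ c with J c = j, ((e c * d c : ℕ) : ℝ) / N * co c p)
    (fun j p => Finset.sum_nonneg fun c _ => mul_nonneg (by positivity) (hco0 c p))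
    (fun j p => by
      have h1 : ∑ c with J c = j, ((e c * d c : ℕ) : ℝ) / N * co c p ≤
          ∑ c with J c = j, ((e c * d c : ℕ) : ℝ) / N :=
        Finset.sum_le_sum fun c _ => mul_le_of_le_one_right (by positivity) (hco1 c p)
      refine h1.trans (le_of_eq ?_)
      rw [← Finset.sum_div, div_eq_one_iff_eq hNr.ne', ← Nat.cast_sum, hsum j])
    (fun p => ∑ w ∈ Wd p, Real.log (Ideal.absNorm w.asIdeal)) (by
    intro p hp hpB j hpF hpH
    rw [Finset.mem_union, not_or, Finset.mem_biUnion] at hpB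
    obtain ⟨-, hpB⟩ := hpB
    push Not at hpB
    have hpHx : ¬ (p : ℤ) ∣ eval x (H₀ j) * (x 0 * eval x (R j)) := by rw [← hHx]; exact hpH
    have hx0 : ¬ (p : ℤ) ∣ x 0 := fun h => hpHx (Dvd.dvd.mul_left (Dvd.dvd.mul_right h _) _)
    have hHp : ¬ (p : ℤ) ∣ eval x (H₀ j) := fun h => hpHx (Dvd.dvd.mul_right h _)
    obtain ⟨D, d1, d2, d3⟩ := hmain j p hp (hpB j (Finset.mem_univ j)) x hx0 hHp (hFx j) hpF L ψ hψ
      hsurj hL (fun i => ∀ y ∈ Y, y ∈ 𝔮 ((Fintype.equivFin {c // J c = j}).symm i))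
      (fun i hi => hi) (Wd p) (fun w hw hwY => (hWd p hp w).2 ⟨hw, hwY⟩)
    refine ⟨D, d1, d2, le_trans (le_of_eq ?_) d3⟩
    show (Module.finrank ℚ L : ℝ) * ((∑ c with J c = j, ((e c * d c : ℕ) : ℝ) / N * co c p) *
      Real.log p) = _
    rw [Finset.sum_subtype (Finset.univ.filter fun c => J c = j) (p := fun c => J c = j)
        (fun c => by simp) (fun c => ((e c * d c : ℕ) : ℝ) / N * co c p),
      ← Equiv.sum_comp (Fintype.equivFin {c // J c = j}).symm, Finset.sum_mul, Finset.mul_sum]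
    refine Finset.sum_congr rfl fun i _ => ?_
    rw [hco, he', hL]
    have h1 := ((Fintype.equivFin {c // J c = j}).symm i).2
    rw [h1]
    show (N : ℝ) * (((e ((Fintype.equivFin {c // J c = j}).symm i) *
      d ((Fintype.equivFin {c // J c = j}).symm i) : ℕ) : ℝ) / N * (1 - (Nat.gcd (if ∀ y ∈ Y,
      y ∈ 𝔮 ((Fintype.equivFin {c // J c = j}).symm i) then 0 else
        e ((Fintype.equivFin {c // J c = j}).symm i)) ((eval x (F j)).natAbs.factorization p) : ℝ) /
        ((if ∀ y ∈ Y, y ∈ 𝔮 ((Fintype.equivFin {c // J c = j}).symm i) then 0 else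
        e ((Fintype.equivFin {c // J c = j}).symm i) : ℕ) : ℝ)) * Real.log p) = _
    split_ifs with h2
    · rw [Nat.cast_zero, div_zero, sub_zero]
      field_simp
    · field_simp)
  -- the sum over the components
  have hPsi : ∑ j, ∑ p ∈ (eval x (F j)).natAbs.primeFactors,
      (∑ c with J c = j, ((e c * d c : ℕ) : ℝ) / N * co c p) * Real.log p =
      ∑ c, ((e c * d c : ℕ) : ℝ) / N * dd (e' c) (eval x (F (J c))).natAbs := by
    rw [← Finset.sum_fiberwise Finset.univ J]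
    refine Finset.sum_congr rfl fun j _ => ?_
    simp only [Finset.sum_mul]
    rw [Finset.sum_comm]
    refine Finset.sum_congr rfl fun c hc => ?_
    rw [Finset.mem_filter] at hc
    unfold dd
    rw [Finset.mul_sum, hc.2]
    refine Finset.sum_congr rfl fun p _ => ?_
    rw [hco, hc.2]
    ring
  -- the truncated counting function
  have hcount : (∑ p ∈ T, ∑ w ∈ Wd p, Real.log (Ideal.absNorm w.asIdeal)) / Module.finrank ℚ L ≤
      tcount (n := n) Y S ψ := by
    obtain ⟨y, hy, hy0⟩ := hY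
    obtain ⟨Q, hQ⟩ : ∃ Q : HeightOneSpectrum (𝓞 L) → Prop, ∀ w, Q w ↔
        (∀ p ∈ S, (p : 𝓞 L) ∉ w.asIdeal) ∧
        (∀ i : Fin n, FinitePlace.mk w (ψ (algebraMap (MvPolynomial (Fin n) ℚ) A (X i))) ≤ 1) ∧
        (∀ y ∈ Y, FinitePlace.mk w (ψ y) < 1) := ⟨_, fun _ => Iff.rfl⟩
    have hfin : {w | Q w}.Finite :=
      (lt_one_finite hy0).subset fun w hw => ((hQ w).1 hw).2.2 y hy
    have h1 : tcount (n := n) Y S ψ = (∑ w ∈ hfin.toFinset, Real.log (Ideal.absNorm w.asIdeal)) /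
        Module.finrank ℚ L := by
      unfold tcount
      congr 1
      have h2 : (fun w : HeightOneSpectrum (𝓞 L) => if (∀ p ∈ S, (p : 𝓞 L) ∉ w.asIdeal) ∧
        (∀ i : Fin n, FinitePlace.mk w (ψ (algebraMap (MvPolynomial (Fin n) ℚ) A (X i))) ≤ 1) ∧
        (∀ y ∈ Y, FinitePlace.mk w (ψ y) < 1) then Real.log (Ideal.absNorm w.asIdeal) else 0) =
        fun w => if Q w then Real.log (Ideal.absNorm w.asIdeal) else 0 := by
        funext w
        exact if_congr (hQ w).symm rfl rfl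
      rw [h2, finsum_eq_sum_of_support_subset (s := hfin.toFinset)]
      · refine Finset.sum_congr rfl fun w hw => ?_
        have hQw : Q w := (Set.Finite.mem_toFinset hfin).1 hw
        rw [if_pos hQw]
      · intro w hw
        rw [Function.mem_support] at hw
        rw [Set.Finite.coe_toFinset]
        by_contra hcon
        exact hw (if_neg hcon)
    rw [h1]
    refine div_le_div_of_nonneg_right ?_ hm.le
    rw [← Finset.sum_biUnion]
    · refine Finset.sum_le_sum_of_subset_of_nonneg ?_ fun w _ _ => Real.log_natCast_nonneg _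
      intro w hw
      rw [Finset.mem_biUnion] at hw
      obtain ⟨p, hp, hwp⟩ := hw
      obtain ⟨hpp, hpS, j, -, hpH⟩ := hT1 p hp
      rw [Finset.mem_union, not_or] at hpS
      obtain ⟨hw1, hw2⟩ := (hWd p hpp w).1 hwp
      have hpHx : ¬ (p : ℤ) ∣ eval x (H₀ j) * (x 0 * eval x (R j)) := by rw [← hHx]; exact hpH
      have hx0 : ¬ (p : ℤ) ∣ x 0 := fun h => hpHx (Dvd.dvd.mul_left (Dvd.dvd.mul_right h _) _)
      rw [Set.Finite.mem_toFinset]
      refine (hQ w).2 ⟨?_, ?_, hw2⟩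
      · intro p' hp' hw'
        have hne : p ≠ p' := by
          rintro rfl
          exact hpS.1 hp'
        have hcop : IsCoprime (p : ℤ) (p' : ℤ) :=
          Nat.isCoprime_iff_coprime.2 ((Nat.coprime_primes hpp (hS p' hp')).2 hne)
        obtain ⟨a, b, hab⟩ := hcop
        apply w.isPrime.ne_top
        rw [Ideal.eq_top_iff_one]
        have h3 : (1 : 𝓞 L) = (a : 𝓞 L) * (p : 𝓞 L) + (b : 𝓞 L) * (p' : 𝓞 L) := by
          have := congrArg (fun m : ℤ => (m : 𝓞 L)) hab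
          push_cast at this
          exact this.symm
        rw [h3]
        exact Ideal.add_mem _ (Ideal.mul_mem_left _ _ hw1) (Ideal.mul_mem_left _ _ hw')
      · intro i
        rw [hψ, eval_X]
        exact (above ((above_vp hpp w).2 hw1) (mk_crd hpp hx0 i)).1
    · intro p hp p' hp' hne
      rw [Function.onFun, Finset.disjoint_left]
      intro w hw hw'
      have hpp := (hT1 p hp).1
      have hpp' := (hT1 p' hp').1
      have hw1 := ((hWd p hpp w).1 hw).1
      have hw1' := ((hWd p' hpp' w).1 hw').1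
      obtain ⟨a, b, hab⟩ : IsCoprime (p : ℤ) (p' : ℤ) :=
        Nat.isCoprime_iff_coprime.2 ((Nat.coprime_primes hpp hpp').2 hne)
      apply w.isPrime.ne_top
      rw [Ideal.eq_top_iff_one]
      have h3 : (1 : 𝓞 L) = (a : 𝓞 L) * (p : 𝓞 L) + (b : 𝓞 L) * (p' : 𝓞 L) := by
        have := congrArg (fun m : ℤ => (m : 𝓞 L)) hab
        push_cast at this
        exact this.symm
      rw [h3]
      exact Ideal.add_mem _ (Ideal.mul_mem_left _ _ hw1) (Ideal.mul_mem_left _ _ hw1')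
  have hT' : ∑ c, ((e c * d c : ℕ) : ℝ) / N * dd (e' c) (eval x (F (J c))).natAbs -
      ∑ j, Real.log (rd (Int.gcd (eval x (F j)) (eval x (H j)))) ≤
      ld L + (∑ p ∈ T, ∑ w ∈ Wd p, Real.log (Ideal.absNorm w.asIdeal)) / Module.finrank ℚ L +
        ∑ p ∈ S ∪ Finset.univ.biUnion Bad, Real.log p := by
    rw [← hPsi]
    exact hT
  have hunion : ∑ p ∈ S ∪ Finset.univ.biUnion Bad, Real.log p ≤
      ∑ p ∈ S, Real.log p + ∑ p ∈ Finset.univ.biUnion Bad, Real.log p := by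
    rw [← Finset.sum_union_inter]
    exact le_add_of_nonneg_right (Finset.sum_nonneg fun p _ => Real.log_natCast_nonneg p)
  unfold Psi
  linarith

end Pool.Agent.D0H41.OC
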